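import Pool.Agent.helper12.AI.Cube

/-!
# AI-AinfA: `A_∞` weights are `Good`

PROOF.  Cube `Q`, `κ = ⟨log s⟩_Q`, `a = ⟨s⟩_Q > 0`; by assumption `a exp (- κ) ≤ C` (`log (1 / s) = - log s`).  `∫_Q (log s - κ)_+`: from `v_+ ≤ exp v`: `⟨(log s - κ)_+⟩ ≤ ⟨s⟩ exp (- κ) ≤ C`, and `⟨log s - κ⟩ = 0`, so `⟨|log s - κ|⟩ = 2 ⟨(log s - κ)_+⟩ ≤ 2 C`.
And `⟨s⟩ ≤ C exp κ`.  So `K = 2 C` (and `C ≥ 0`, in fact `C ≥ 1`; use `K = 2 max C 0`).  Conversion from Bochner integrals to lintegrals: `ofReal_integral_eq_lintegral_ofReal`, `setAverage_eq`.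
-/

set_option autoImplicit false

open MeasureTheory FourierTransform
open scoped ENNReal InnerProductSpace ComplexConjugate

namespace Pool.Agent.helper12.AI

open Pool.Agent.helper12.RT

variable {n : ℕ}

private theorem ainfA_int {f : E n → ℝ} (hf : LocallyIntegrable f volume) (x : E n) (r : ℝ) :
    IntegrableOn f (cube x r) volume := by
  obtain ⟨R, hR⟩ := (cube_bounded x r).subset_closedBall (0 : E n)
  exact (hf.integrableOn_isCompact (isCompact_closedBall (0 : E n) R)).mono_set hR

theorem ainfA {s : E n → ℝ} {C : ℝ} (h : AinfLe s C) : Good (2 * max C 0) s := by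
  refine ⟨h.meas, h.pos, ?_⟩
  intro x r hr
  have hV0 : volume (cube x r) ≠ 0 := (cube_vol_pos x hr).ne'
  have hVt : volume (cube x r) ≠ ∞ := cube_vol_ne_top x r
  set V : ℝ := (volume (cube x r)).toReal with hV
  have hVpos : 0 < V := ENNReal.toReal_pos hV0 hVt
  have hVe : volume (cube x r) = ENNReal.ofReal V := (ENNReal.ofReal_toReal hVt).symm
  have hreal : volume.real (cube x r) = V := rfl
  have hs : IntegrableOn s (cube x r) volume := ainfA_int h.loc x r
  have hl : IntegrableOn (fun y => Real.log (s y)) (cube x r) volume := ainfA_int h.logloc x r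
  have hfin : IsFiniteMeasure (volume.restrict (cube x r)) := ⟨by
    rw [Measure.restrict_apply_univ]; exact hVt.lt_top⟩
  set κ : ℝ := ⨍ y in cube x r, Real.log (s y) with hκ
  set a : ℝ := ⨍ y in cube x r, s y with ha
  have hI : ∫ y in cube x r, s y = V * a := by
    rw [ha, setAverage_eq, hreal, smul_eq_mul]
    field_simp
  have hL : ∫ y in cube x r, Real.log (s y) = V * κ := by
    rw [hκ, setAverage_eq, hreal, smul_eq_mul]
    field_simp
  have hneg : (⨍ y in cube x r, Real.log (1 / s y)) = -κ := by
    rw [hκ, setAverage_eq, setAverage_eq]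
    have : (fun y => Real.log (1 / s y)) = fun y => -Real.log (s y) := by
      funext y
      rw [one_div, Real.log_inv]
    rw [this, integral_neg, smul_neg]
  have hle : a * Real.exp (-κ) ≤ C := by
    have := h.le x r hr
    rwa [hneg] at this
  have hle2 : a ≤ max C 0 * Real.exp κ := by
    have h1 : a = a * Real.exp (-κ) * Real.exp κ := by
      rw [mul_assoc, ← Real.exp_add]; simp
    rw [h1]
    exact mul_le_mul_of_nonneg_right (hle.trans (le_max_left _ _)) (Real.exp_pos κ).le
  have hC0 : 0 ≤ max C 0 := le_max_right _ _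
  refine ⟨κ, ?_, ?_⟩
  · have hint : Integrable (fun y => |Real.log (s y) - κ|) (volume.restrict (cube x r)) :=
      (hl.sub (integrable_const κ)).abs
    rw [← ofReal_integral_eq_lintegral_ofReal hint (ae_of_all _ fun y => abs_nonneg _), hVe,
      ← ENNReal.ofReal_mul (by positivity)]
    apply ENNReal.ofReal_le_ofReal
    have hint2 : Integrable (fun y => 2 * Real.exp (-κ) * s y - (Real.log (s y) - κ))
        (volume.restrict (cube x r)) :=
      (hs.const_mul _).sub (hl.sub (integrable_const κ))
    have hpt : ∀ y, |Real.log (s y) - κ| ≤ 2 * Real.exp (-κ) * s y - (Real.log (s y) - κ) := by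
      intro y
      have hexp : Real.exp (Real.log (s y) - κ) = Real.exp (-κ) * s y := by
        rw [sub_eq_add_neg, Real.exp_add, Real.exp_log (h.pos y), mul_comm]
      have h1 := Real.add_one_le_exp (Real.log (s y) - κ)
      have h2 := Real.exp_pos (Real.log (s y) - κ)
      rw [mul_assoc, ← hexp]
      rcases abs_cases (Real.log (s y) - κ) with hc | hc <;> rw [hc.1] <;> linarith
    calc ∫ y in cube x r, |Real.log (s y) - κ|
        ≤ ∫ y in cube x r, (2 * Real.exp (-κ) * s y - (Real.log (s y) - κ)) :=
          integral_mono hint hint2 hpt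
      _ = 2 * Real.exp (-κ) * (V * a) - (V * κ - V * κ) := by
          have e1 : ∫ y in cube x r, (2 * Real.exp (-κ) * s y - (Real.log (s y) - κ)) =
              (∫ y in cube x r, 2 * Real.exp (-κ) * s y) -
                ∫ y in cube x r, (Real.log (s y) - κ) :=
            integral_sub (hs.const_mul _) (hl.sub (integrable_const κ))
          have e2 : ∫ y in cube x r, (Real.log (s y) - κ) = (∫ y in cube x r, Real.log (s y)) -
              ∫ _y in cube x r, κ := integral_sub hl (integrable_const κ)
          rw [e1, e2, integral_const_mul, hI, hL, integral_const,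
            measureReal_restrict_apply_univ, hreal, smul_eq_mul]
      _ = 2 * (a * Real.exp (-κ)) * V := by ring
      _ ≤ 2 * max C 0 * V := by
          apply mul_le_mul_of_nonneg_right _ hVpos.le
          linarith [hle.trans (le_max_left C 0)]
  · rw [← ofReal_integral_eq_lintegral_ofReal hs (ae_of_all _ fun y => (h.pos y).le), hVe,
      ← ENNReal.ofReal_mul (by positivity), hI]
    apply ENNReal.ofReal_le_ofReal
    have h3 : a ≤ 2 * max C 0 * Real.exp κ := by
      have : 0 ≤ max C 0 * Real.exp κ := by positivity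
      linarith
    calc V * a ≤ V * (2 * max C 0 * Real.exp κ) := mul_le_mul_of_nonneg_left h3 hVpos.le
      _ = 2 * max C 0 * Real.exp κ * V := by ring

end Pool.Agent.helper12.AI
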