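import Pool.Agent.helper12.AI.Defs

/-!
# AI-Cube: cubes

`cube x r` is the closed cube with centre `x` and side `2 r`.  PROOFS.  `RT/Doub.lean` may contain the volume (import it if useful); otherwise `PiLp.volume_preserving_ofLp`, `Real.volume_Icc`, `MeasureTheory.Measure.volume_pi`.
-/

set_option autoImplicit false

open MeasureTheory FourierTransform
open scoped ENNReal InnerProductSpace ComplexConjugate

namespace Pool.Agent.helper12.AI

open Pool.Agent.helper12.RT

variable {n : ℕ}

private theorem Cube_eq (x : E n) (r : ℝ) :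
    cube x r = (@WithLp.ofLp 2 (Fin n → ℝ)) ⁻¹'
      (Set.univ.pi fun i => Set.Icc (x i - r) (x i + r)) := by
  ext y
  simp only [cube, Set.mem_ofPred_eq, Set.mem_preimage, Set.mem_pi, Set.mem_univ, forall_const,
    Set.mem_Icc, abs_le]
  refine forall_congr' fun i => ?_
  constructor
  · rintro ⟨h1, h2⟩
    constructor <;> linarith
  · rintro ⟨h1, h2⟩
    constructor <;> linarith

private theorem Cube_box_meas (x : E n) (r : ℝ) :
    MeasurableSet (Set.univ.pi fun i : Fin n => Set.Icc (x i - r) (x i + r)) :=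
  MeasurableSet.univ_pi fun _ => measurableSet_Icc

private theorem Cube_norm {x y : E n} {t : ℝ} (ht : 0 ≤ t) (h : y ∈ cube x t) :
    ‖y - x‖ ≤ √n * t := by
  rw [EuclideanSpace.norm_eq]
  have h1 : ∑ i, ‖(y - x) i‖ ^ 2 ≤ (n : ℝ) * t ^ 2 := by
    have h2 : ∑ i : Fin n, ‖(y - x) i‖ ^ 2 ≤ ∑ _i : Fin n, t ^ 2 := by
      refine Finset.sum_le_sum fun i _ => ?_
      have h3 : ‖(y - x) i‖ ≤ t := by
        rw [Real.norm_eq_abs]
        exact h i
      exact pow_le_pow_left₀ (norm_nonneg _) h3 2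
    refine h2.trans (le_of_eq ?_)
    rw [Finset.sum_const, Finset.card_univ, Fintype.card_fin, nsmul_eq_mul]
  refine (Real.sqrt_le_sqrt h1).trans (le_of_eq ?_)
  rw [Real.sqrt_mul (Nat.cast_nonneg n), Real.sqrt_sq ht]

theorem cube_meas (x : E n) (r : ℝ) : MeasurableSet (cube x r) := by
  rw [Cube_eq]
  exact (PiLp.volume_preserving_ofLp (Fin n)).measurable (Cube_box_meas x r)

theorem cube_vol (x : E n) {r : ℝ} (hr : 0 ≤ r) : volume (cube x r) = ENNReal.ofReal ((2 * r) ^ n) := by
  rw [Cube_eq, (PiLp.volume_preserving_ofLp (Fin n)).measure_preimage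
    (Cube_box_meas x r).nullMeasurableSet, MeasureTheory.volume_pi_pi]
  have h : ∀ i : Fin n, volume (Set.Icc (x i - r) (x i + r)) = ENNReal.ofReal (2 * r) := by
    intro i
    rw [Real.volume_Icc]
    congr 1
    ring
  rw [Finset.prod_congr rfl fun i _ => h i, Finset.prod_const, Finset.card_univ, Fintype.card_fin,
    ENNReal.ofReal_pow (by linarith)]

theorem cube_vol_pos (x : E n) {r : ℝ} (hr : 0 < r) : 0 < volume (cube x r) := by
  rw [cube_vol x hr.le, ENNReal.ofReal_pos]
  positivity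

theorem cube_bounded (x : E n) (r : ℝ) : Bornology.IsBounded (cube x r) := by
  refine (Metric.isBounded_closedBall (x := x) (r := √n * |r|)).subset fun y hy => ?_
  rw [Metric.mem_closedBall, dist_eq_norm]
  exact Cube_norm (abs_nonneg r) fun i => (hy i).trans (le_abs_self r)

theorem cube_vol_ne_top (x : E n) (r : ℝ) : volume (cube x r) ≠ ∞ :=
  (cube_bounded x r).measure_lt_top.ne

theorem cube_subset {x y : E n} {r r' : ℝ} (h : ∀ i, |y i - x i| + r ≤ r') : cube y r ⊆ cube x r' := by
  intro z hz i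
  have h1 := hz i
  have h2 := h i
  have h3 : z i - x i = (z i - y i) + (y i - x i) := by ring
  rw [h3]
  refine (abs_add_le _ _).trans ?_
  linarith

theorem cube_subset_ball (x : E n) {r : ℝ} (hr : 0 ≤ r) {y : E n} (hy : y ∈ cube x r) :
    ‖y - x‖ ≤ √n * r := Cube_norm hr hy

theorem mem_cube_of_norm {x y : E n} {r : ℝ} (h : ‖y - x‖ ≤ r) : y ∈ cube x r := by
  intro i
  have h1 := PiLp.norm_apply_le (y - x) i
  rw [PiLp.sub_apply, Real.norm_eq_abs] at h1
  exact h1.trans h

theorem cube_iUnion (x : E n) : ⋃ k : ℕ, cube x (k : ℝ) = Set.univ := by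
  rw [Set.eq_univ_iff_forall]
  intro y
  obtain ⟨k, hk⟩ := exists_nat_ge ‖y - x‖
  exact Set.mem_iUnion.2 ⟨k, mem_cube_of_norm hk⟩

end Pool.Agent.helper12.AI
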