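import Pool.Agent.helper12.AI.Gauss
import Pool.Agent.helper12.RT.OpsA

/-!
# AI-Heat: the heat semigroup on bounded real functions

`P t f x = ∫ g t (x - y) f y dy`, `g t ≥ 0`, `∫ g t = 1`.  PROOFS.  Everything is elementary.  Measurability of `P t f`: `(x, y) ↦ g t (x - y) f y` is
jointly measurable, `StronglyMeasurable.integral_prod_right` (or convolution lemmas).  `P_semi`: Fubini (`integral_integral_swap`, the function
`g a (x - y) g b (y - z) f z` is integrable on the product since `|f| ≤ M`) and `g_semi`.  `P_exp`: `exp v ≥ exp m (1 + v - m)` with `m = P t f x`.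
`P_cs`: Cauchy-Schwarz; e.g. integrate `0 ≤ (f h' - h f')²`-type inequality: with `A = P t (f²) x`, `B = P t (h²) x`, `C = P t (f h) x` the
quadratic `P t ((α f - β h)²) x ≥ 0` for all `α, β` gives `C² ≤ A B`.  `P_int`: `∫ P t f = ∫ f` by Fubini.
-/

set_option autoImplicit false

open MeasureTheory FourierTransform
open scoped ENNReal InnerProductSpace ComplexConjugate

namespace Pool.Agent.helper12.AI

open Pool.Agent.helper12.RT

variable {n : ℕ}

/-- the product kernel `k(y) g b (y - z) f z` is integrable -/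
theorem Heat_prod_int {F : Type*} [NormedAddCommGroup F] [NormedSpace ℝ F] {b : ℝ} (hb : 0 < b)
    {f : E n → F} (hf : StronglyMeasurable f) {M : ℝ} (hM : ∀ x, ‖f x‖ ≤ M) {k : E n → ℝ}
    (hk : Integrable k) :
    Integrable (fun p : E n × E n => k p.1 • (g b (p.1 - p.2) • f p.2))
      ((volume : Measure (E n)).prod (volume : Measure (E n))) := by
  have hgm : StronglyMeasurable fun p : E n × E n => g b (p.1 - p.2) :=
    ((g_cont b).comp (continuous_fst.sub continuous_snd)).stronglyMeasurable
  have hfm : StronglyMeasurable fun p : E n × E n => f p.2 := hf.comp_measurable measurable_snd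
  have hkm : AEStronglyMeasurable (fun p : E n × E n => k p.1)
      ((volume : Measure (E n)).prod (volume : Measure (E n))) := hk.aestronglyMeasurable.comp_fst
  have hm : AEStronglyMeasurable (fun p : E n × E n => k p.1 • (g b (p.1 - p.2) • f p.2))
      ((volume : Measure (E n)).prod (volume : Measure (E n))) :=
    hkm.smul (hgm.smul hfm).aestronglyMeasurable
  have hin : ∀ y : E n, Integrable fun z => g b (y - z) • f z := fun y =>
    (g_sub_integrable hb y).smul_bdd M hf.aestronglyMeasurable
      (Filter.Eventually.of_forall hM)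
  rw [integrable_prod_iff hm]
  refine ⟨Filter.Eventually.of_forall fun y => (hin y).smul (k y), ?_⟩
  refine Integrable.mono' (hk.norm.mul_const M) hm.norm.integral_prod_right' ?_
  refine Filter.Eventually.of_forall fun y => ?_
  have h0 : 0 ≤ ∫ z, ‖k y • (g b (y - z) • f z)‖ := integral_nonneg fun z => norm_nonneg _
  rw [Real.norm_of_nonneg h0]
  have h1 : ∀ z, ‖k y • (g b (y - z) • f z)‖ = ‖k y‖ * ‖g b (y - z) • f z‖ := fun z =>
    norm_smul _ _
  simp only [h1]
  rw [integral_const_mul]
  apply mul_le_mul_of_nonneg_left _ (norm_nonneg _)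
  calc ∫ z, ‖g b (y - z) • f z‖ ≤ ∫ z, g b (y - z) * M := by
        apply integral_mono (hin y).norm ((g_sub_integrable hb y).mul_const M)
        intro z
        change ‖g b (y - z) • f z‖ ≤ g b (y - z) * M
        rw [norm_smul, Real.norm_of_nonneg (g_pos hb _).le]
        exact mul_le_mul_of_nonneg_left (hM z) (g_pos hb _).le
    _ = M := by rw [integral_mul_const, integral_g_sub hb, one_mul]

theorem P_integrable {t : ℝ} (ht : 0 < t) {f : E n → ℝ} (hf : BMr f) (x : E n) :
    Integrable fun y => g t (x - y) * f y := by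
  obtain ⟨h1, C, hC⟩ := hf
  exact (g_sub_integrable ht x).mul_bdd (c := C) h1.aestronglyMeasurable
    (Filter.Eventually.of_forall hC)

theorem P_const {t : ℝ} (ht : 0 < t) (c : ℝ) (x : E n) : P t (fun _ => c) x = c := by
  unfold P
  rw [integral_mul_const, integral_g_sub ht, one_mul]

theorem P_mono {t : ℝ} (ht : 0 < t) {f h : E n → ℝ} (hf : BMr f) (hh : BMr h) (hfh : ∀ y, f y ≤ h y)
    (x : E n) : P t f x ≤ P t h x := by
  unfold P
  apply integral_mono (P_integrable ht hf x) (P_integrable ht hh x)
  intro y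
  exact mul_le_mul_of_nonneg_left (hfh y) (g_pos ht _).le

theorem P_ge {t : ℝ} (ht : 0 < t) {f : E n → ℝ} (hf : BMr f) {m : ℝ} (h : ∀ y, m ≤ f y) (x : E n) :
    m ≤ P t f x := by
  have := P_mono ht (BMr.const m) hf h x
  rwa [P_const ht] at this

theorem P_le {t : ℝ} (ht : 0 < t) {f : E n → ℝ} (hf : BMr f) {m : ℝ} (h : ∀ y, f y ≤ m) (x : E n) :
    P t f x ≤ m := by
  have := P_mono ht hf (BMr.const m) h x
  rwa [P_const ht] at this

theorem P_bmr {t : ℝ} (ht : 0 < t) {f : E n → ℝ} (hf : BMr f) : BMr (P t f) := by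
  obtain ⟨h1, C, hC⟩ := hf
  refine ⟨?_, C, fun x => ?_⟩
  · have hm : StronglyMeasurable (Function.uncurry fun x y : E n => g t (x - y) * f y) := by
      apply StronglyMeasurable.mul
      · exact ((g_cont t).comp (continuous_fst.sub continuous_snd)).stronglyMeasurable
      · exact (h1.comp measurable_snd).stronglyMeasurable
    exact hm.integral_prod_right.measurable
  · rw [abs_le]
    exact ⟨P_ge ht ⟨h1, C, hC⟩ (fun y => (abs_le.1 (hC y)).1) x,
      P_le ht ⟨h1, C, hC⟩ (fun y => (abs_le.1 (hC y)).2) x⟩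

theorem P_add {t : ℝ} (ht : 0 < t) {f h : E n → ℝ} (hf : BMr f) (hh : BMr h) (x : E n) :
    P t (fun y => f y + h y) x = P t f x + P t h x := by
  unfold P
  rw [← integral_add (P_integrable ht hf x) (P_integrable ht hh x)]
  congr 1
  ext y
  ring

theorem P_sub {t : ℝ} (ht : 0 < t) {f h : E n → ℝ} (hf : BMr f) (hh : BMr h) (x : E n) :
    P t (fun y => f y - h y) x = P t f x - P t h x := by
  unfold P
  rw [← integral_sub (P_integrable ht hf x) (P_integrable ht hh x)]
  congr 1
  ext y
  ring

theorem P_smul (t c : ℝ) (f : E n → ℝ) (x : E n) : P t (fun y => c * f y) x = c * P t f x := by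
  unfold P
  rw [← integral_const_mul]
  congr 1
  ext y
  ring

theorem P_nonneg (t : ℝ) {f : E n → ℝ} (h : ∀ y, 0 ≤ f y) (x : E n) : 0 ≤ P t f x := by
  unfold P
  apply integral_nonneg
  intro y
  apply mul_nonneg _ (h y)
  unfold g
  positivity

theorem P_semi {a b : ℝ} (ha : 0 < a) (hb : 0 < b) {f : E n → ℝ} (hf : BMr f) (x : E n) :
    P a (P b f) x = P (a + b) f x := by
  obtain ⟨h1, C, hC⟩ := hf
  have hint := Heat_prod_int (k := fun y => g a (x - y)) hb h1.stronglyMeasurable (M := C) hC
    (g_sub_integrable ha x)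
  have e1 : P a (P b f) x = ∫ y, ∫ z, g a (x - y) • (g b (y - z) • f z) := by
    unfold P
    congr 1
    ext y
    rw [← integral_const_mul]
    rfl
  rw [e1, integral_integral_swap hint]
  unfold P
  congr 1
  ext z
  rw [← g_semi ha hb, ← integral_mul_const]
  congr 1
  ext y
  simp only [smul_eq_mul]
  ring

theorem bmr_exp {f : E n → ℝ} (hf : BMr f) : BMr fun x => Real.exp (f x) := by
  obtain ⟨h1, C, hC⟩ := hf
  refine ⟨Real.measurable_exp.comp h1, Real.exp C, fun x => ?_⟩
  rw [abs_of_pos (Real.exp_pos _)]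
  exact Real.exp_le_exp.2 (le_of_abs_le (hC x))

theorem P_exp {t : ℝ} (ht : 0 < t) {f : E n → ℝ} (hf : BMr f) (x : E n) :
    Real.exp (P t f x) ≤ P t (fun y => Real.exp (f y)) x := by
  obtain ⟨m, hm⟩ : ∃ m, m = P t f x := ⟨_, rfl⟩
  have hb1 : BMr fun y => f y - (m - 1) := hf.sub (BMr.const _)
  have hb2 : BMr fun y => Real.exp m * (f y - (m - 1)) := (BMr.const (Real.exp m)).mul hb1
  have h1 : P t (fun y => Real.exp m * (f y - (m - 1))) x = Real.exp m := by
    rw [P_smul, P_sub ht hf (BMr.const _), P_const ht, ← hm]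
    ring
  rw [← hm, ← h1]
  apply P_mono ht hb2 (bmr_exp hf)
  intro y
  have h2 := Real.add_one_le_exp (f y - m)
  have h3 : Real.exp (f y) = Real.exp m * Real.exp (f y - m) := by
    rw [← Real.exp_add]
    congr 1
    ring
  rw [h3]
  apply mul_le_mul_of_nonneg_left _ (Real.exp_pos m).le
  linarith

theorem P_cs {t : ℝ} (ht : 0 < t) {f h : E n → ℝ} (hf : BMr f) (hh : BMr h) (x : E n) :
    (P t (fun y => f y * h y) x) ^ 2 ≤ P t (fun y => f y ^ 2) x * P t (fun y => h y ^ 2) x := by
  have hff : BMr fun y => f y ^ 2 := by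
    have := hf.mul hf
    simpa [pow_two] using this
  have hhh : BMr fun y => h y ^ 2 := by
    have := hh.mul hh
    simpa [pow_two] using this
  have hfh : BMr fun y => f y * h y := hf.mul hh
  have key : ∀ c : ℝ, 0 ≤ P t (fun y => h y ^ 2) x * (c * c) +
      (-2 * P t (fun y => f y * h y) x) * c + P t (fun y => f y ^ 2) x := by
    intro c
    have h1 : 0 ≤ P t (fun y => (f y - c * h y) ^ 2) x := P_nonneg t (fun y => sq_nonneg _) x
    have h2 : (fun y => (f y - c * h y) ^ 2) =
        fun y => (f y ^ 2 - (2 * c) * (f y * h y)) + (c * c) * h y ^ 2 := by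
      ext y
      ring
    rw [h2, P_add ht (hff.sub ((BMr.const (2 * c)).mul hfh)) ((BMr.const (c * c)).mul hhh),
      P_sub ht hff ((BMr.const (2 * c)).mul hfh), P_smul, P_smul] at h1
    linarith
  have h3 := discrim_le_zero key
  unfold discrim at h3
  linarith

theorem P_int {t : ℝ} (ht : 0 < t) {f : E n → ℝ} (hf : BMr f) (hi : Integrable f) :
    Integrable (P t f) ∧ ∫ x, P t f x = ∫ x, f x := by
  have hint := Heat_prod_int (f := fun _ : E n => (1 : ℝ)) (M := 1) ht stronglyMeasurable_const
    (fun x => by simp) hi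
  have e1 : ∀ x, P t f x = ∫ y, f y • (g t (y - x) • (1 : ℝ)) := by
    intro x
    unfold P
    congr 1
    ext y
    rw [← g_neg t (y - x), neg_sub]
    simp only [smul_eq_mul]
    ring
  have e2 : P t f = fun x => ∫ y, f y • (g t (y - x) • (1 : ℝ)) := funext e1
  constructor
  · rw [e2]
    exact hint.integral_prod_right
  · rw [e2, ← integral_integral_swap hint]
    congr 1
    ext y
    rw [integral_smul]
    simp only [smul_eq_mul, mul_one]
    rw [integral_g_sub ht, mul_one]

/-- logarithms and exponentials of bounded functions are bounded -/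
theorem bmr_log {s : E n → ℝ} (hs : BMr s) {m : ℝ} (hm : 0 < m) (h : ∀ x, m ≤ s x) :
    BMr fun x => Real.log (s x) := by
  obtain ⟨h1, C, hC⟩ := hs
  refine ⟨Real.measurable_log.comp h1, |Real.log m| + |Real.log C|, fun x => ?_⟩
  have h2 : s x ≤ C := le_of_abs_le (hC x)
  have h3 : Real.log m ≤ Real.log (s x) := Real.log_le_log hm (h x)
  have h4 : Real.log (s x) ≤ Real.log C := Real.log_le_log (hm.trans_le (h x)) h2
  rw [abs_le]
  constructor
  · have := neg_abs_le (Real.log m)
    have := abs_nonneg (Real.log C)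
    linarith
  · have := le_abs_self (Real.log C)
    have := abs_nonneg (Real.log m)
    linarith

end Pool.Agent.helper12.AI
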