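import Pool.Agent.helper12.AI.GoodA
import Pool.Agent.helper12.AI.Heat

/-!
# AI-CubeHeat: from cubes to the heat extension

PROOF.  Fix `t > 0`, `x`; `Q_j = cube x (2^j √t)`.  For `z ∈ Q_j \ Q_(j-1)` (`j ≥ 1`) `‖z - x‖ ≥ 2^(j-1) √t`, `g t (x - z) ≤ (√t)⁻¹ ^ n exp (- π 4^(j-1))`, on `Q_0` `g ≤ (√t)⁻¹ ^ n`; `|Q_j| = (2^(j+1) √t)^n`.  So for
measurable `f ≥ 0`: `∫ g t (x - y) f y dy ≤ ∑_j b_j ⟨f⟩_(Q_j)`, `b_j = 2^((j+1) n) exp (- π 4^j / 4)` for `j ≥ 1`, `b_0 = 2^n` (`gauss_cubes`; as lintegrals).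
Let `κ_j` be the number of `Q_j` for `s` (`Good`); `|κ_j - κ_(j-1)| ≤ D := K (1 + 2^n)` (`kappa_close`), so `κ_j ≤ κ_0 + j D`, and
`∫ g s ≤ ∑ b_j K exp (κ_0 + j D) = C₁ exp κ_0`, `∫ g |log s - κ_0| ≤ ∑ b_j (K + j D) = C₂`.  The series converge and depend on `K, n` only (super-exponential decay).  So
`log (P t s x) ≤ κ_0 + log C₁`, `P t (log s) x ≥ κ_0 - C₂`: `HA (log C₁ + C₂)` (`heat_HA`; take `c = max 0 ..`).  For two weights: `exp (κ_0(s)) ≤ exp K ⟨s⟩_(Q_0)` (`kappa_le`), so
`P t s x · P t w x ≤ C₁² exp (2 K) ⟨s⟩_(Q_0) ⟨w⟩_(Q_0) ≤ C₁² exp (2 K) K`.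
-/

set_option autoImplicit false

open MeasureTheory FourierTransform
open scoped ENNReal InnerProductSpace ComplexConjugate

namespace Pool.Agent.helper12.AI

open Pool.Agent.helper12.RT

variable {n : ℕ}

/-- the coefficients of the majorant of the Gaussian kernel by cubes -/
private noncomputable def chb (n : ℕ) (j : ℕ) : ℝ :=
  2 ^ ((j + 1) * n) * Real.exp (Real.pi / 4 * (1 - 4 ^ j))

private theorem chb_nonneg (n j : ℕ) : 0 ≤ chb n j := by
  unfold chb
  positivity

/-- pointwise majorant of the Gaussian kernel -/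
private theorem ch_point {t : ℝ} (ht : 0 < t) (x y : E n) :
    ENNReal.ofReal (g t (x - y)) ≤ ∑' j : ℕ, (cube x (2 ^ j * √t)).indicator
      (fun _ => ENNReal.ofReal ((√t)⁻¹ ^ n * Real.exp (Real.pi / 4 * (1 - 4 ^ j)))) y := by
  have hρ : 0 < √t := Real.sqrt_pos.2 ht
  have hex : ∃ j : ℕ, y ∈ cube x (2 ^ j * √t) := by
    obtain ⟨j, hj⟩ := pow_unbounded_of_one_lt (‖y - x‖ / √t) (by norm_num : (1 : ℝ) < 2)
    exact ⟨j, mem_cube_of_norm ((div_lt_iff₀ hρ).1 hj).le⟩
  classical
  have hs := Nat.find_spec hex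
  obtain ⟨j, hj⟩ : ∃ j, j = Nat.find hex := ⟨_, rfl⟩
  rw [← hj] at hs
  refine le_trans ?_ (ENNReal.le_tsum j)
  rw [Set.indicator_of_mem hs]
  apply ENNReal.ofReal_le_ofReal
  unfold g
  apply mul_le_mul_of_nonneg_left _ (by positivity)
  apply Real.exp_le_exp.2
  rcases Nat.eq_zero_or_pos j with h0 | h0
  · rw [h0, pow_zero, sub_self, mul_zero]
    have : 0 ≤ Real.pi * ‖x - y‖ ^ 2 / t := by positivity
    linarith
  · have h1 : y ∉ cube x (2 ^ (j - 1) * √t) := Nat.find_min hex (m := j - 1) (by omega)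
    have h2 : 2 ^ (j - 1) * √t < ‖x - y‖ := by
      rw [← norm_neg, neg_sub]
      by_contra hcon
      exact h1 (mem_cube_of_norm (not_lt.1 hcon))
    have h3 : (2 ^ (j - 1) * √t) ^ 2 ≤ ‖x - y‖ ^ 2 :=
      pow_le_pow_left₀ (by positivity) h2.le 2
    rw [mul_pow, Real.sq_sqrt ht.le] at h3
    have h4 : ((2 : ℝ) ^ (j - 1)) ^ 2 = 4 ^ (j - 1) := by
      rw [← pow_mul, mul_comm, pow_mul]
      norm_num
    rw [h4] at h3
    have h5 : (4 : ℝ) ^ j = 4 * 4 ^ (j - 1) := by
      conv_lhs => rw [show j = (j - 1) + 1 by omega]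
      rw [pow_succ]
      ring
    have h6 : Real.pi * 4 ^ (j - 1) ≤ Real.pi * ‖x - y‖ ^ 2 / t := by
      rw [le_div_iff₀ ht, mul_assoc]
      exact mul_le_mul_of_nonneg_left h3 Real.pi_pos.le
    rw [h5]
    have := Real.pi_pos
    linarith

/-- the Gaussian average is at most a combination of averages over cubes -/
private theorem ch_cubes {t : ℝ} (ht : 0 < t) (x : E n) {F : E n → ℝ≥0∞} (hF : Measurable F)
    {V : ℕ → ℝ} (hV : ∀ j, 0 ≤ V j)
    (h : ∀ j, ∫⁻ y in cube x (2 ^ j * √t), F y ≤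
      ENNReal.ofReal (V j) * volume (cube x (2 ^ j * √t)))
    (hsum : Summable fun j => chb n j * V j) :
    ∫⁻ y, ENNReal.ofReal (g t (x - y)) * F y ≤ ENNReal.ofReal (∑' j, chb n j * V j) := by
  have hρ : 0 < √t := Real.sqrt_pos.2 ht
  rw [ENNReal.ofReal_tsum_of_nonneg (fun j => mul_nonneg (chb_nonneg n j) (hV j)) hsum]
  calc ∫⁻ y, ENNReal.ofReal (g t (x - y)) * F y
      ≤ ∫⁻ y, ∑' j : ℕ, (cube x (2 ^ j * √t)).indicator
        (fun y => ENNReal.ofReal ((√t)⁻¹ ^ n * Real.exp (Real.pi / 4 * (1 - 4 ^ j))) * F y) y := by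
        apply lintegral_mono
        intro y
        calc ENNReal.ofReal (g t (x - y)) * F y ≤ (∑' j : ℕ, (cube x (2 ^ j * √t)).indicator
              (fun _ => ENNReal.ofReal ((√t)⁻¹ ^ n * Real.exp (Real.pi / 4 * (1 - 4 ^ j)))) y) *
                F y := mul_le_mul_left (ch_point ht x y) _
          _ = ∑' j : ℕ, (cube x (2 ^ j * √t)).indicator
              (fun y => ENNReal.ofReal ((√t)⁻¹ ^ n *
                Real.exp (Real.pi / 4 * (1 - 4 ^ j))) * F y) y := by
              rw [← ENNReal.tsum_mul_right]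
              apply tsum_congr
              intro j
              by_cases hy : y ∈ cube x (2 ^ j * √t)
              · rw [Set.indicator_of_mem hy, Set.indicator_of_mem hy]
              · rw [Set.indicator_of_notMem hy, Set.indicator_of_notMem hy, zero_mul]
    _ = ∑' j : ℕ, ∫⁻ y, (cube x (2 ^ j * √t)).indicator
        (fun y => ENNReal.ofReal ((√t)⁻¹ ^ n * Real.exp (Real.pi / 4 * (1 - 4 ^ j))) * F y) y := by
        apply lintegral_tsum
        intro j
        exact ((hF.const_mul _).indicator (cube_meas x _)).aemeasurable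
    _ ≤ ∑' j : ℕ, ENNReal.ofReal (chb n j * V j) := by
        apply ENNReal.tsum_le_tsum
        intro j
        rw [lintegral_indicator (cube_meas x _), lintegral_const_mul _ hF]
        calc ENNReal.ofReal ((√t)⁻¹ ^ n * Real.exp (Real.pi / 4 * (1 - 4 ^ j))) *
              ∫⁻ y in cube x (2 ^ j * √t), F y
            ≤ ENNReal.ofReal ((√t)⁻¹ ^ n * Real.exp (Real.pi / 4 * (1 - 4 ^ j))) *
              (ENNReal.ofReal (V j) * volume (cube x (2 ^ j * √t))) := mul_le_mul_right (h j) _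
          _ = ENNReal.ofReal (chb n j * V j) := by
              rw [cube_vol x (by positivity), ← ENNReal.ofReal_mul (hV j),
                ← ENNReal.ofReal_mul (by positivity)]
              congr 1
              unfold chb
              have h1 : (2 * (2 ^ j * √t)) ^ n = 2 ^ ((j + 1) * n) * √t ^ n := by
                rw [← mul_assoc, mul_pow, pow_mul, pow_succ]
                ring
              have h2 : (√t)⁻¹ ^ n * √t ^ n = 1 := by
                rw [← mul_pow, inv_mul_cancel₀ hρ.ne', one_pow]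
              rw [h1]
              linear_combination (2 ^ ((j + 1) * n) * Real.exp (Real.pi / 4 * (1 - 4 ^ j)) *
                V j) * h2

/-- super-exponential decay -/
private theorem ch_sum (n : ℕ) (M : ℝ) : Summable fun j : ℕ => chb n j * Real.exp (M * j) := by
  obtain ⟨L, hL⟩ : ∃ L : ℝ, L = n * Real.log 2 + M + Real.log 2 := ⟨_, rfl⟩
  have hlog2 : Real.exp (Real.log 2) = 2 := Real.exp_log (by norm_num)
  have hj : ∀ j : ℕ, ((j : ℝ)) ^ 2 ≤ 4 ^ j := by
    intro j
    have h1 : (j : ℝ) ≤ 2 ^ j := by exact_mod_cast (Nat.lt_two_pow_self (n := j)).le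
    have h2 : (j : ℝ) ^ 2 ≤ (2 ^ j) ^ 2 := pow_le_pow_left₀ (by positivity) h1 2
    have h4 : ((2 : ℝ) ^ j) ^ 2 = 4 ^ j := by
      rw [← pow_mul, mul_comm, pow_mul]
      norm_num
    rwa [h4] at h2
  have hgeo : Summable fun j : ℕ => (2 ^ n * Real.exp (Real.pi / 4) *
      Real.exp (L ^ 2 / Real.pi)) * (1 / 2 : ℝ) ^ j :=
    (summable_geometric_of_lt_one (by norm_num) (by norm_num)).mul_left _
  refine Summable.of_nonneg_of_le (fun j => mul_nonneg (chb_nonneg n j) (Real.exp_pos _).le) ?_ hgeo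
  intro j
  have e1 : (2 : ℝ) ^ ((j + 1) * n) = 2 ^ n * Real.exp (n * Real.log 2 * j) := by
    have h1 : (2 : ℝ) ^ (j * n) = Real.exp (n * Real.log 2 * j) := by
      have h2 : (n : ℝ) * Real.log 2 * j = ((j * n : ℕ) : ℝ) * Real.log 2 := by
        push_cast
        ring
      rw [h2, Real.exp_nat_mul, hlog2]
    rw [← h1, ← pow_add]
    congr 1
    ring
  have e2 : (1 / 2 : ℝ) ^ j = Real.exp (-(Real.log 2 * j)) := by
    have h2 : -(Real.log 2 * j) = ((j : ℕ) : ℝ) * (-Real.log 2) := by ring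
    rw [h2, Real.exp_nat_mul, Real.exp_neg, hlog2]
    norm_num
  unfold chb
  rw [e1, e2]
  have e3 : 2 ^ n * Real.exp (n * Real.log 2 * j) * Real.exp (Real.pi / 4 * (1 - 4 ^ j)) *
      Real.exp (M * j) = 2 ^ n * Real.exp (n * Real.log 2 * j + Real.pi / 4 * (1 - 4 ^ j) + M * j) := by
    rw [Real.exp_add, Real.exp_add]
    ring
  have e4 : 2 ^ n * Real.exp (Real.pi / 4) * Real.exp (L ^ 2 / Real.pi) *
      Real.exp (-(Real.log 2 * j)) =
      2 ^ n * Real.exp (Real.pi / 4 + L ^ 2 / Real.pi + -(Real.log 2 * j)) := by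
    rw [Real.exp_add, Real.exp_add]
    ring
  rw [e3, e4]
  apply mul_le_mul_of_nonneg_left _ (by positivity)
  apply Real.exp_le_exp.2
  have hpi := Real.pi_pos
  have h5 : L * j ≤ L ^ 2 / Real.pi + Real.pi / 4 * (j : ℝ) ^ 2 := by
    have h6 : 0 ≤ (L - Real.pi / 2 * j) ^ 2 / Real.pi := by positivity
    have h7 : (L - Real.pi / 2 * j) ^ 2 / Real.pi =
        L ^ 2 / Real.pi + Real.pi / 4 * (j : ℝ) ^ 2 - L * j := by
      field_simp
      ring
    linarith
  have h8 : Real.pi / 4 * (j : ℝ) ^ 2 ≤ Real.pi / 4 * 4 ^ j :=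
    mul_le_mul_of_nonneg_left (hj j) (by positivity)
  rw [hL] at h5 ⊢
  linarith

/-- the numbers of the concentric cubes -/
private theorem ch_kappa {K : ℝ} (hK : 0 ≤ K) {s : E n → ℝ} (hs : Good K s) {t : ℝ} (ht : 0 < t)
    (x : E n) {κ : ℕ → ℝ}
    (h : ∀ j, ∫⁻ y in cube x (2 ^ j * √t), ENNReal.ofReal |Real.log (s y) - κ j| ≤
      ENNReal.ofReal K * volume (cube x (2 ^ j * √t))) (j : ℕ) :
    |κ j - κ 0| ≤ K * (1 + 2 ^ n) * j := by
  have hρ : 0 < √t := Real.sqrt_pos.2 ht
  induction j with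
  | zero => simp
  | succ j ih =>
    have h1 : |κ (j + 1) - κ j| ≤ K * (1 + 2 ^ n) := by
      apply kappa_close hK hs (x := x) (y := x) (r := 2 ^ (j + 1) * √t) (r' := 2 ^ j * √t)
        (A := 2) (by positivity) _ _ (h (j + 1)) (h j)
      · rw [pow_succ]
        apply le_of_eq
        ring
      · apply cube_subset
        intro i
        rw [sub_self, abs_zero, zero_add]
        apply mul_le_mul_of_nonneg_right _ hρ.le
        exact pow_le_pow_right₀ (by norm_num) (by omega)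
    have h2 : |κ (j + 1) - κ 0| ≤ |κ (j + 1) - κ j| + |κ j - κ 0| := by
      have := abs_add_le (κ (j + 1) - κ j) (κ j - κ 0)
      rwa [sub_add_sub_cancel] at this
    push_cast
    linarith

/-- upper bound for a Gaussian average of a nonnegative bounded function -/
private theorem ch_P {t : ℝ} (ht : 0 < t) (x : E n) {F : E n → ℝ} (hF : Measurable F)
    (hF0 : ∀ y, 0 ≤ F y) {V : ℕ → ℝ} (hV : ∀ j, 0 ≤ V j)
    (h : ∀ j, ∫⁻ y in cube x (2 ^ j * √t), ENNReal.ofReal (F y) ≤
      ENNReal.ofReal (V j) * volume (cube x (2 ^ j * √t)))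
    (hsum : Summable fun j => chb n j * V j) :
    P t F x ≤ ∑' j, chb n j * V j := by
  have h1 := ch_cubes ht x hF.ennreal_ofReal hV h hsum
  have hm : AEStronglyMeasurable (fun y => g t (x - y) * F y) volume :=
    (((g_cont t).comp (continuous_const.sub continuous_id)).measurable.mul hF).aestronglyMeasurable
  unfold P
  rw [integral_eq_lintegral_of_nonneg_ae
    (Filter.Eventually.of_forall fun y => mul_nonneg (g_pos ht _).le (hF0 y)) hm]
  apply ENNReal.toReal_le_of_le_ofReal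
  · exact tsum_nonneg fun j => mul_nonneg (chb_nonneg n j) (hV j)
  · refine le_trans (le_of_eq ?_) h1
    apply lintegral_congr
    intro y
    rw [ENNReal.ofReal_mul (g_pos ht _).le]

private theorem ch_main (n : ℕ) {K : ℝ} (hK : 0 ≤ K) : ∃ C₁ C₂ : ℝ, 0 ≤ C₁ ∧ 0 ≤ C₂ ∧
    ∀ s : E n → ℝ, BMr s → ∀ m : ℝ, 0 < m → (∀ x, m ≤ s x) → Good K s →
    ∀ t : ℝ, 0 < t → ∀ x, ∃ κ : ℝ,
      (∫⁻ y in cube x (√t), ENNReal.ofReal |Real.log (s y) - κ| ≤
        ENNReal.ofReal K * volume (cube x (√t))) ∧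
      P t s x ≤ C₁ * Real.exp κ ∧ κ - C₂ ≤ P t (fun y => Real.log (s y)) x := by
  obtain ⟨D, hD⟩ : ∃ D : ℝ, D = K * (1 + 2 ^ n) := ⟨_, rfl⟩
  have hD0 : 0 ≤ D := by
    rw [hD]
    positivity
  have hs1 : Summable fun j : ℕ => chb n j * (K * Real.exp (D * j)) := by
    have := (ch_sum n D).mul_left K
    refine this.congr fun j => ?_
    ring
  have hs2 : Summable fun j : ℕ => chb n j * (K + D * j) := by
    have h1 := ((ch_sum n 0).mul_left K).add (((ch_sum n 1).mul_left D))
    refine Summable.of_nonneg_of_le (fun j => mul_nonneg (chb_nonneg n j) (by positivity)) ?_ h1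
    intro j
    have h2 : (j : ℝ) ≤ Real.exp (1 * j) := by
      have := Real.add_one_le_exp ((1 : ℝ) * j)
      linarith
    have h3 := mul_le_mul_of_nonneg_left h2 (mul_nonneg hD0 (chb_nonneg n j))
    rw [zero_mul, Real.exp_zero]
    linarith
  refine ⟨∑' j : ℕ, chb n j * (K * Real.exp (D * j)), ∑' j : ℕ, chb n j * (K + D * j),
    tsum_nonneg fun j => mul_nonneg (chb_nonneg n j) (by positivity),
    tsum_nonneg fun j => mul_nonneg (chb_nonneg n j) (by positivity), ?_⟩
  intro s hs m hm hms hg t ht x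
  have hρ : 0 < √t := Real.sqrt_pos.2 ht
  choose κ hκ1 hκ2 using fun j : ℕ => hg.osc x (2 ^ j * √t) (by positivity)
  have hκ := ch_kappa hK hg ht x hκ1
  rw [← hD] at hκ
  refine ⟨κ 0, by simpa using hκ1 0, ?_, ?_⟩
  · have h1 := ch_P ht x hg.meas (fun y => (hg.pos y).le)
      (V := fun j => Real.exp (κ 0) * (K * Real.exp (D * j))) (fun j => by positivity) (fun j => by
        refine (hκ2 j).trans ?_
        apply mul_le_mul_left
        apply ENNReal.ofReal_le_ofReal
        have h2 : Real.exp (κ j) ≤ Real.exp (κ 0) * Real.exp (D * j) := by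
          rw [← Real.exp_add]
          apply Real.exp_le_exp.2
          have := le_of_abs_le (hκ j)
          linarith
        calc K * Real.exp (κ j) ≤ K * (Real.exp (κ 0) * Real.exp (D * j)) :=
              mul_le_mul_of_nonneg_left h2 hK
          _ = _ := by ring) (by
        refine (hs1.mul_left (Real.exp (κ 0))).congr fun j => ?_
        ring)
    refine h1.trans (le_of_eq ?_)
    rw [← tsum_mul_right]
    apply tsum_congr
    intro j
    ring
  · have hlog : BMr fun y => Real.log (s y) := bmr_log hs hm hms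
    have habs : BMr fun y => |Real.log (s y) - κ 0| := by
      obtain ⟨hm1, C, hC⟩ := hlog.sub (BMr.const (κ 0))
      exact ⟨hm1.abs, C, fun y => by rw [abs_abs]; exact hC y⟩
    have h1 := ch_P ht x habs.1 (fun y => abs_nonneg _)
      (V := fun j => K + D * j) (fun j => by positivity) (fun j => by
        calc ∫⁻ y in cube x (2 ^ j * √t), ENNReal.ofReal |Real.log (s y) - κ 0|
            ≤ ∫⁻ y in cube x (2 ^ j * √t), (ENNReal.ofReal |Real.log (s y) - κ j| +
                ENNReal.ofReal (D * j)) := by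
              apply lintegral_mono
              intro y
              simp only
              rw [← ENNReal.ofReal_add (abs_nonneg _) (by positivity)]
              apply ENNReal.ofReal_le_ofReal
              have h3 := abs_add_le (Real.log (s y) - κ j) (κ j - κ 0)
              rw [sub_add_sub_cancel] at h3
              linarith [hκ j]
          _ = (∫⁻ y in cube x (2 ^ j * √t), ENNReal.ofReal |Real.log (s y) - κ j|) +
                ENNReal.ofReal (D * j) * volume (cube x (2 ^ j * √t)) := by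
              rw [lintegral_add_right _ measurable_const, setLIntegral_const]
          _ ≤ ENNReal.ofReal K * volume (cube x (2 ^ j * √t)) +
                ENNReal.ofReal (D * j) * volume (cube x (2 ^ j * √t)) :=
              add_le_add_left (hκ1 j) _
          _ = ENNReal.ofReal (K + D * j) * volume (cube x (2 ^ j * √t)) := by
              rw [ENNReal.ofReal_add hK (by positivity), add_mul]) hs2
    have h2 : P t (fun y => κ 0 - Real.log (s y)) x ≤ P t (fun y => |Real.log (s y) - κ 0|) x := by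
      apply P_mono ht ((BMr.const (κ 0)).sub hlog) habs
      intro y
      rw [abs_sub_comm]
      exact le_abs_self _
    rw [P_sub ht (BMr.const (κ 0)) hlog, P_const ht] at h2
    linarith

theorem heat_HA (n : ℕ) {K : ℝ} (hK : 0 ≤ K) : ∃ c : ℝ, 0 ≤ c ∧ ∀ s : E n → ℝ, BMr s →
    ∀ m : ℝ, 0 < m → (∀ x, m ≤ s x) → Good K s → HA c s := by
  obtain ⟨C₁, C₂, hC1, hC2, h⟩ := ch_main n hK
  refine ⟨max 0 (Real.log C₁ + C₂), le_max_left _ _, ?_⟩
  intro s hs m hm hms hg t ht x
  obtain ⟨κ, -, h1, h2⟩ := h s hs m hm hms hg t ht x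
  have h3 : 0 < P t s x := hm.trans_le (P_ge ht hs hms x)
  have h4 : 0 < C₁ := by
    by_contra hcon
    have h5 : C₁ = 0 := le_antisymm (not_lt.1 hcon) hC1
    rw [h5, zero_mul] at h1
    linarith
  have h6 : Real.log (P t s x) ≤ Real.log C₁ + κ := by
    have h7 := Real.log_le_log h3 h1
    rwa [Real.log_mul h4.ne' (Real.exp_pos _).ne', Real.log_exp] at h7
  have h8 := le_max_right 0 (Real.log C₁ + C₂)
  linarith

theorem heat_A2 (n : ℕ) {K : ℝ} (hK : 0 ≤ K) : ∃ A : ℝ, 0 ≤ A ∧ ∀ s w : E n → ℝ, BMr s → BMr w →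
    ∀ m : ℝ, 0 < m → (∀ x, m ≤ s x) → (∀ x, m ≤ w x) → Good K s → Good K w → A2 K s w →
    ∀ t : ℝ, 0 < t → ∀ x, P t s x * P t w x ≤ A := by
  obtain ⟨C₁, C₂, hC1, hC2, h⟩ := ch_main n hK
  refine ⟨C₁ ^ 2 * (Real.exp K ^ 2 * K), by positivity, ?_⟩
  intro s w hs hw m hm hms hmw hgs hgw hA t ht x
  have hρ : 0 < √t := Real.sqrt_pos.2 ht
  obtain ⟨κ, hκ, h1, -⟩ := h s hs m hm hms hgs t ht x
  obtain ⟨κ', hκ', h1', -⟩ := h w hw m hm hmw hgw t ht x
  have h2 := kappa_le hK hgs hρ hκ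
  have h2' := kappa_le hK hgw hρ hκ'
  have h3 := hA x (√t) hρ
  have hv : 0 < volume (cube x (√t)) := cube_vol_pos x hρ
  have hvt := cube_vol_ne_top x (√t)
  have h4 : ENNReal.ofReal (Real.exp κ * Real.exp κ') * volume (cube x (√t)) ^ 2 ≤
      ENNReal.ofReal (Real.exp K ^ 2 * K) * volume (cube x (√t)) ^ 2 := by
    calc ENNReal.ofReal (Real.exp κ * Real.exp κ') * volume (cube x (√t)) ^ 2
        = (ENNReal.ofReal (Real.exp κ) * volume (cube x (√t))) *
          (ENNReal.ofReal (Real.exp κ') * volume (cube x (√t))) := by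
          rw [ENNReal.ofReal_mul (Real.exp_pos _).le]
          ring
      _ ≤ (ENNReal.ofReal (Real.exp K) * ∫⁻ z in cube x (√t), ENNReal.ofReal (s z)) *
          (ENNReal.ofReal (Real.exp K) * ∫⁻ z in cube x (√t), ENNReal.ofReal (w z)) :=
          mul_le_mul' h2 h2'
      _ = ENNReal.ofReal (Real.exp K) ^ 2 * ((∫⁻ z in cube x (√t), ENNReal.ofReal (s z)) *
          ∫⁻ z in cube x (√t), ENNReal.ofReal (w z)) := by ring
      _ ≤ ENNReal.ofReal (Real.exp K) ^ 2 *
          (ENNReal.ofReal K * volume (cube x (√t)) ^ 2) := mul_le_mul_right h3 _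
      _ = _ := by
          rw [ENNReal.ofReal_mul (by positivity), ENNReal.ofReal_pow (Real.exp_pos _).le]
          ring
  have h5 : Real.exp κ * Real.exp κ' ≤ Real.exp K ^ 2 * K := by
    have h6 : ENNReal.ofReal (Real.exp κ * Real.exp κ') ≤
        ENNReal.ofReal (Real.exp K ^ 2 * K) := by
      exact (ENNReal.mul_le_mul_iff_left (pow_ne_zero 2 hv.ne') (ENNReal.pow_ne_top hvt)).1 h4
    exact (ENNReal.ofReal_le_ofReal_iff (by positivity)).1 h6
  have h7 : 0 ≤ P t w x := P_nonneg t (fun y => (hgw.pos y).le) x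
  calc P t s x * P t w x ≤ (C₁ * Real.exp κ) * (C₁ * Real.exp κ') :=
        mul_le_mul h1 h1' h7 (by positivity)
    _ = C₁ ^ 2 * (Real.exp κ * Real.exp κ') := by ring
    _ ≤ C₁ ^ 2 * (Real.exp K ^ 2 * K) := mul_le_mul_of_nonneg_left h5 (by positivity)

end Pool.Agent.helper12.AI
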