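import Pool.Agent.helper12.AI.Spec
import Pool.Agent.helper12.RT.OpsQ
import Pool.Agent.helper12.RT.SpecA

/-!
# AI: even order Riesz transforms on `A_∞` pairs (MP_34c9e6)

THEOREM.  Let `T` be an iterated Riesz transform of even positive order, or the Beurling transform.  For `A_∞` weights
`s, w` the inequality `N_T(s dx, w dx) ≤ N` is stable under biLipschitz maps.
PLAN.  (NEC) `N_T ≤ N` implies the `A_2` condition `⟨s⟩_Q ⟨w⟩_Q ≤ K` for all cubes.  (BILIP) the `A_∞` data (`Good`) and `A2` are stable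
under biLipschitz maps.  (SUF) `Good` and `A2` imply `N_T ≤ C`.
For (SUF): `⟨T u, v⟩ = c ∫_0^∞ t^(m-1) ⟨A_t u, B_t v⟩ dt` with mean zero kernels `A_t`, `B_t` (derivatives of Gaussians), so only the oscillation
`osc τ u x = ∫ g_(7τ)(x - y) |u_τ(y) - u_(8τ)(x)| dy` of the heat extension `u_τ = P_τ u` matters, and
`∑_k ∫ osc(2^k)² / s_(8·2^k) ≤ C ∫ |u|² / s`.  That is proved on one step `S → S' = P_H S`, `X → X' = P_H X`: with `γ = log S' - P_H log S ≥ 0`,
`λ = P log s`, `U = 2 S - exp (2 λ) / S`, Jensen gives `P_H U ≤ U' - (exp (2 λ') / S') γ`, and Cauchy-Schwarz `|X'|² ≤ P_H(|X|² / U) P_H U`.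
-/

set_option autoImplicit false

open MeasureTheory FourierTransform
open scoped ENNReal InnerProductSpace

namespace Pool.Agent.helper12.AI

open Pool.Agent.helper12.RT

variable {n : ℕ}

/-- the Gaussian kernel; its Fourier transform is `exp (- π t |ξ|²)` -/
noncomputable def g (t : ℝ) (z : E n) : ℝ := (√t)⁻¹ ^ n * Real.exp (-(Real.pi * ‖z‖ ^ 2 / t))

/-- the heat extension of a real function -/
noncomputable def P (t : ℝ) (f : E n → ℝ) (x : E n) : ℝ := ∫ y, g t (x - y) * f y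

/-- the heat extension of a complex function -/
noncomputable def Pc (t : ℝ) (f : E n → ℂ) (x : E n) : ℂ := ∫ y, (g t (x - y) : ℂ) * f y

/-- the oscillation of the heat extension -/
noncomputable def osc (t : ℝ) (u : E n → ℂ) (x : E n) : ℝ :=
  ∫ y, g (7 * t) (x - y) * ‖Pc t u y - Pc (8 * t) u x‖

/-- the `A_∞` condition for the heat extension -/
def HA (c : ℝ) (s : E n → ℝ) : Prop :=
  ∀ t : ℝ, 0 < t → ∀ x, Real.log (P t s x) ≤ P t (fun y => Real.log (s y)) x + c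

/-- the symbol `ξ^β / |ξ|^|β|` -/
noncomputable def mono (β : Fin n → ℕ) (ξ : E n) : ℝ := (∏ j, ξ j ^ β j) / ‖ξ‖ ^ (∑ j, β j)

/-- `A_∞` data on cubes -/
structure Good (K : ℝ) (s : E n → ℝ) : Prop where
  meas : Measurable s
  pos : ∀ x, 0 < s x
  osc : ∀ (x : E n) (r : ℝ), 0 < r → ∃ κ : ℝ,
    ∫⁻ y in cube x r, ENNReal.ofReal |Real.log (s y) - κ| ≤ ENNReal.ofReal K * volume (cube x r) ∧
    ∫⁻ y in cube x r, ENNReal.ofReal (s y) ≤ ENNReal.ofReal (K * Real.exp κ) * volume (cube x r)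

/-- the `A_2` condition on cubes -/
def A2 (K : ℝ) (s w : E n → ℝ) : Prop := ∀ (x : E n) (r : ℝ), 0 < r →
  (∫⁻ y in cube x r, ENNReal.ofReal (s y)) * (∫⁻ y in cube x r, ENNReal.ofReal (w y)) ≤
    ENNReal.ofReal K * volume (cube x r) ^ 2

/-- `∫ w |T u|² ≤ N² ∫ |u|² / s` for the Fourier multiplier `T = T m` and `u ∈ L²(dx)` -/
def NB (m : E n → ℂ) (s w : E n → ℝ) (N : ℝ) : Prop := ∀ u : H n,
  ∫⁻ x, ENNReal.ofReal (1 / s x) * ‖u x‖ₑ ^ 2 ≠ ∞ →
  ∫⁻ x, ENNReal.ofReal (w x) * ‖T m u x‖ₑ ^ 2 ≤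
    ENNReal.ofReal (N ^ 2) * ∫⁻ x, ENNReal.ofReal (1 / s x) * ‖u x‖ₑ ^ 2

/-- truncated weights -/
noncomputable def tr (M : ℝ) (s : E n → ℝ) (x : E n) : ℝ := max M⁻¹ (min (s x) M)

end Pool.Agent.helper12.AI
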