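import Pool.Agent.helper12.AI.HeatC

/-!
# AI-EnA: the oscillation in terms of the energy, one point

Notation: `S' = P H S x`, `X' = Pc H X x`, `G(y) = g H (x - y)`, `ρ(y) = S y / S'`, `γ = log S' - P H (log S) x`, `V = P H (‖X‖² / S) x - ‖X'‖² / S'`.
PROOF.  (1) `∫ G S ‖X / S - X' / S'‖² = V` (expand the square, `∫ G X = X'`, `∫ G S = S'`).
(2) `ρ - 1 - log ρ ≥ (ρ - 1)² / (2 (1 + ρ))` for `ρ > 0` (for `ρ ≤ 1` it is at least `(ρ - 1)² / 2`; for `ρ ≥ 1`, `ρ - 1 - log ρ ≥ (ρ - 1)² / (2 ρ)`), and `∫ G (ρ - 1 - log ρ) = γ`, `∫ G (1 + ρ) = 2`;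
so `(∫ G |ρ - 1|)² ≤ (∫ G 2 (ρ - 1 - log ρ)) (∫ G (1 + ρ)) = 4 γ` by Cauchy-Schwarz (`P_cs`).
(3) `‖X y - X'‖ ≤ S y ‖X y / S y - X' / S'‖ + (‖X'‖ / S') |S y - S'|`, so with Cauchy-Schwarz (`√S`, `√S ‖..‖`)
`∫ G ‖X y - X'‖ ≤ √S' √V + ‖X'‖ 2 √γ`, and `(a + b)² ≤ 2 a² + 2 b²`.
-/

set_option autoImplicit false

open MeasureTheory FourierTransform
open scoped ENNReal InnerProductSpace ComplexConjugate

namespace Pool.Agent.helper12.AI

open Pool.Agent.helper12.RT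

variable {n : ℕ}

private theorem EnA_sqrt {f : E n → ℝ} (hf : BMr f) : BMr fun x => √(f x) := by
  obtain ⟨h1, C, hC⟩ := hf
  refine ⟨h1.sqrt, √C, fun x => ?_⟩
  rw [abs_of_nonneg (Real.sqrt_nonneg _)]
  exact Real.sqrt_le_sqrt ((le_abs_self _).trans (hC x))

private theorem EnA_abs {f : E n → ℝ} (hf : BMr f) : BMr fun x => |f x| := by
  obtain ⟨h1, C, hC⟩ := hf
  refine ⟨h1.abs, C, fun x => ?_⟩
  rw [abs_abs]
  exact hC x

private theorem EnA_norm {f : E n → ℂ} (hf : BM f) : BMr fun x => ‖f x‖ := by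
  obtain ⟨h1, C, hC⟩ := hf
  refine ⟨h1.norm, C, fun x => ?_⟩
  rw [abs_of_nonneg (norm_nonneg _)]
  exact hC x

private theorem EnA_re {f : E n → ℂ} (hf : BM f) : BMr fun x => (f x).re := by
  obtain ⟨h1, C, hC⟩ := hf
  exact ⟨Complex.measurable_re.comp h1, C, fun x => (Complex.abs_re_le_norm _).trans (hC x)⟩

private theorem EnA_Pre {H : ℝ} (hH : 0 < H) {X : E n → ℂ} (hX : BM X) (c : ℂ) (x : E n) :
    P H (fun y => (c * X y).re) x = (c * Pc H X x).re := by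
  unfold P Pc
  rw [← integral_const_mul]
  have h1 : Integrable fun y => c * ((g H (x - y) : ℂ) * X y) := (Pc_integrable hH hX x).const_mul c
  have h2 := integral_re h1
  have h3 : ∀ z : ℂ, RCLike.re z = z.re := fun z => rfl
  rw [h3] at h2
  rw [← h2]
  refine integral_congr_ae (Filter.Eventually.of_forall fun y => ?_)
  show g H (x - y) * (c * X y).re = RCLike.re (c * ((g H (x - y) : ℂ) * X y))
  rw [h3, show c * ((g H (x - y) : ℂ) * X y) = (g H (x - y) : ℂ) * (c * X y) by ring,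
    Complex.re_ofReal_mul]

private theorem EnA_sq (a b : ℂ) : ‖a - b‖ ^ 2 = ‖a‖ ^ 2 - 2 * (conj b * a).re + ‖b‖ ^ 2 := by
  rw [← Complex.normSq_eq_norm_sq, ← Complex.normSq_eq_norm_sq, ← Complex.normSq_eq_norm_sq,
    Complex.normSq_sub, mul_comm a (conj b)]
  ring

theorem log_ineq {r : ℝ} (hr : 0 < r) : (r - 1) ^ 2 / (2 * (1 + r)) ≤ r - 1 - Real.log r := by
  have hq : 0 < √r := Real.sqrt_pos.2 hr
  have h1 := Real.log_le_sub_one_of_pos hq
  rw [Real.log_sqrt hr.le] at h1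
  have h2 : √r ^ 2 = r := Real.sq_sqrt hr.le
  have h3 : (r - 1) ^ 2 / (2 * (1 + r)) ≤ (√r - 1) ^ 2 := by
    rw [div_le_iff₀ (by linarith)]
    have h4 : (√r + 1) ^ 2 ≤ 2 * (1 + r) := by nlinarith [sq_nonneg (√r - 1)]
    have h5 : (r - 1) ^ 2 = (√r - 1) ^ 2 * (√r + 1) ^ 2 := by
      rw [← mul_pow]
      congr 1
      nlinarith
    rw [h5]
    exact mul_le_mul_of_nonneg_left h4 (sq_nonneg _)
  nlinarith

theorem gamma_nonneg {H : ℝ} (hH : 0 < H) {S : E n → ℝ} (hS : BMr S) {m : ℝ} (hm : 0 < m)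
    (hSm : ∀ x, m ≤ S x) (x : E n) : P H (fun y => Real.log (S y)) x ≤ Real.log (P H S x) := by
  have hl := bmr_log hS hm hSm
  have h1 := P_exp hH hl x
  have h2 : (fun y => Real.exp (Real.log (S y))) = S := by
    funext y
    exact Real.exp_log (hm.trans_le (hSm y))
  rw [h2] at h1
  have h3 : 0 < P H S x := hm.trans_le (P_ge hH hS hSm x)
  rwa [← Real.le_log_iff_exp_le h3] at h1

/-- `V` is the integral of the square of the deviation. -/
private theorem EnA_V {H : ℝ} (hH : 0 < H) {S : E n → ℝ} (hS : BMr S) {m : ℝ} (hm : 0 < m)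
    (hSm : ∀ x, m ≤ S x) {X : E n → ℂ} (hX : BM X) (x : E n) :
    P H (fun y => S y * ‖X y / (S y : ℂ) - Pc H X x / (P H S x : ℂ)‖ ^ 2) x =
      P H (fun y => ‖X y‖ ^ 2 / S y) x - ‖Pc H X x‖ ^ 2 / P H S x := by
  have hS' : 0 < P H S x := hm.trans_le (P_ge hH hS hSm x)
  set S' := P H S x with hS'd
  set X' := Pc H X x with hX'd
  set c : ℂ := X' / (S' : ℂ) with hc
  have hi : BMr fun y => (S y)⁻¹ := hS.inv hm hSm
  have hnX := EnA_norm hX
  have b1 : BMr fun y => ‖X y‖ ^ 2 / S y := by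
    have h1 := (hnX.mul hnX).mul hi
    have h2 : (fun y => ‖X y‖ ^ 2 / S y) = fun y => ‖X y‖ * ‖X y‖ * (S y)⁻¹ := by
      funext y
      ring
    rw [h2]
    exact h1
  have b2 : BMr fun y => (conj c * X y).re := EnA_re ((BM.const (conj c)).mul hX)
  have b3 : BMr fun y => (2 : ℝ) * (conj c * X y).re := (BMr.const 2).mul b2
  have b4 : BMr fun y => ‖c‖ ^ 2 * S y := (BMr.const _).mul hS
  have hfun : (fun y => S y * ‖X y / (S y : ℂ) - c‖ ^ 2) =
      fun y => (‖X y‖ ^ 2 / S y - 2 * (conj c * X y).re) + ‖c‖ ^ 2 * S y := by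
    funext y
    have hy : 0 < S y := hm.trans_le (hSm y)
    rw [EnA_sq, norm_div, Complex.norm_real, Real.norm_of_nonneg hy.le]
    have h1 : (conj c * (X y / (S y : ℂ))).re = (conj c * X y).re / S y := by
      rw [← mul_div_assoc, Complex.div_ofReal_re]
    rw [h1]
    field_simp
  rw [hfun, P_add hH (b1.sub b3) b4, P_sub hH b1 b3, P_smul, P_smul, EnA_Pre hH hX]
  have h2 : (conj c * Pc H X x).re = ‖X'‖ ^ 2 / S' := by
    rw [← hX'd, hc, map_div₀, Complex.conj_ofReal, div_mul_eq_mul_div, Complex.div_ofReal_re,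
      mul_comm (conj X') X', Complex.mul_conj, Complex.ofReal_re, Complex.normSq_eq_norm_sq]
  have h3 : ‖c‖ ^ 2 = ‖X'‖ ^ 2 / S' ^ 2 := by
    rw [hc, norm_div, Complex.norm_real, Real.norm_of_nonneg hS'.le, div_pow]
  rw [h2, h3, ← hS'd]
  field_simp
  ring

private theorem EnA_rho {H : ℝ} (hH : 0 < H) {S : E n → ℝ} (hS : BMr S) {m : ℝ} (hm : 0 < m)
    (hSm : ∀ x, m ≤ S x) (x : E n) :
    (P H (fun y => |S y / P H S x - 1|) x) ^ 2 ≤
      4 * (Real.log (P H S x) - P H (fun y => Real.log (S y)) x) := by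
  have hS' : 0 < P H S x := hm.trans_le (P_ge hH hS hSm x)
  set S' := P H S x with hS'd
  have hρ : BMr fun y => S y / S' := by
    have := hS.mul (BMr.const (n := n) S'⁻¹)
    simpa only [div_eq_mul_inv] using this
  have hρpos : ∀ y, 0 < S y / S' := fun y => div_pos (hm.trans_le (hSm y)) hS'
  have h2ρ : BMr fun y => 2 * (1 + S y / S') := (BMr.const 2).mul ((BMr.const 1).add hρ)
  have hh : BMr fun y => √(2 * (1 + S y / S')) := EnA_sqrt h2ρ
  have hh1 : ∀ y, 1 ≤ √(2 * (1 + S y / S')) := by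
    intro y
    rw [Real.one_le_sqrt]
    have := hρpos y
    linarith
  have ha : BMr fun y => |S y / S' - 1| := EnA_abs (hρ.sub (BMr.const 1))
  have hf : BMr fun y => |S y / S' - 1| * (√(2 * (1 + S y / S')))⁻¹ := ha.mul (hh.inv one_pos hh1)
  have h1 := P_cs hH hf hh x
  have e1 : (fun y => |S y / S' - 1| * (√(2 * (1 + S y / S')))⁻¹ * √(2 * (1 + S y / S'))) =
      fun y => |S y / S' - 1| := by
    funext y
    have := (zero_lt_one.trans_le (hh1 y)).ne'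
    rw [mul_assoc, inv_mul_cancel₀ this, mul_one]
  have e2 : P H (fun y => √(2 * (1 + S y / S')) ^ 2) x = 4 := by
    have e3 : (fun y => √(2 * (1 + S y / S')) ^ 2) = fun y => 2 + (2 * S'⁻¹) * S y := by
      funext y
      have := hρpos y
      rw [Real.sq_sqrt (by linarith)]
      ring
    rw [e3, P_add hH (BMr.const 2) ((BMr.const _).mul hS), P_const hH, P_smul, ← hS'd]
    field_simp
    norm_num
  have hl : BMr fun y => Real.log (S y) := bmr_log hS hm hSm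
  have e4 : P H (fun y => (|S y / S' - 1| * (√(2 * (1 + S y / S')))⁻¹) ^ 2) x ≤
      Real.log S' - P H (fun y => Real.log (S y)) x := by
    have hb : BMr fun y => (|S y / S' - 1| * (√(2 * (1 + S y / S')))⁻¹) ^ 2 := by
      have := hf.mul hf
      simpa only [pow_two] using this
    have hr : BMr fun y => (S'⁻¹ * S y + (Real.log S' - 1)) - Real.log (S y) :=
      (((BMr.const _).mul hS).add (BMr.const _)).sub hl
    have e5 := P_mono hH hb hr (fun y => ?_) x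
    · rw [P_sub hH (((BMr.const _).mul hS).add (BMr.const _)) hl,
        P_add hH ((BMr.const _).mul hS) (BMr.const _), P_smul, P_const hH, ← hS'd,
        inv_mul_cancel₀ hS'.ne'] at e5
      linarith
    · have hy := hρpos y
      have hy' : 0 < S y := hm.trans_le (hSm y)
      have e6 := log_ineq hy
      rw [Real.log_div hy'.ne' hS'.ne'] at e6
      rw [mul_pow, sq_abs, inv_pow, Real.sq_sqrt (by linarith), ← div_eq_mul_inv]
      refine e6.trans (le_of_eq ?_)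
      ring
  rw [e1, e2] at h1
  linarith

theorem enA {H : ℝ} (hH : 0 < H) {S : E n → ℝ} (hS : BMr S) {m : ℝ} (hm : 0 < m)
    (hSm : ∀ x, m ≤ S x) {X : E n → ℂ} (hX : BM X) (x : E n) :
    (∫ y, g H (x - y) * ‖X y - Pc H X x‖) ^ 2 ≤ P H S x *
      (2 * (P H (fun y => ‖X y‖ ^ 2 / S y) x - ‖Pc H X x‖ ^ 2 / P H S x) +
        8 * (‖Pc H X x‖ ^ 2 / P H S x *
          (Real.log (P H S x) - P H (fun y => Real.log (S y)) x))) := by
  have hV := EnA_V hH hS hm hSm hX x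
  have hR := EnA_rho hH hS hm hSm x
  have hS' : 0 < P H S x := hm.trans_le (P_ge hH hS hSm x)
  set S' := P H S x with hS'd
  set X' := Pc H X x with hX'd
  set γ := Real.log S' - P H (fun y => Real.log (S y)) x with hγ
  set V := P H (fun y => ‖X y‖ ^ 2 / S y) x - ‖X'‖ ^ 2 / S' with hVd
  have hρ : BMr fun y => S y / S' := by
    have := hS.mul (BMr.const (n := n) S'⁻¹)
    simpa only [div_eq_mul_inv] using this
  have hi : BMr fun y => (S y)⁻¹ := hS.inv hm hSm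
  have ha : BMr fun y => |S y / S' - 1| := EnA_abs (hρ.sub (BMr.const 1))
  have hD : BMr fun y => ‖X y / (S y : ℂ) - X' / (S' : ℂ)‖ := by
    have h1 : BM fun y => X y * (((S y)⁻¹ : ℝ) : ℂ) + (-(X' / (S' : ℂ))) :=
      (hX.mul hi.bm).add (BM.const _)
    have h2 := EnA_norm h1
    have h3 : (fun y => ‖X y / (S y : ℂ) - X' / (S' : ℂ)‖) =
        fun y => ‖X y * (((S y)⁻¹ : ℝ) : ℂ) + (-(X' / (S' : ℂ)))‖ := by
      funext y
      rw [Complex.ofReal_inv, ← div_eq_mul_inv, ← sub_eq_add_neg]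
    rw [h3]
    exact h2
  have hX1 : BMr fun y => ‖X y - X'‖ := by
    have h1 : BM fun y => X y + (-X') := hX.add (BM.const _)
    have h2 := EnA_norm h1
    simpa only [← sub_eq_add_neg] using h2
  have hSD : BMr fun y => S y * ‖X y / (S y : ℂ) - X' / (S' : ℂ)‖ := hS.mul hD
  have hXa : BMr fun y => ‖X'‖ * |S y / S' - 1| := (BMr.const _).mul ha
  have k1 : ∫ y, g H (x - y) * ‖X y - X'‖ ≤
      P H (fun y => S y * ‖X y / (S y : ℂ) - X' / (S' : ℂ)‖) x +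
        ‖X'‖ * P H (fun y => |S y / S' - 1|) x := by
    rw [← P_smul, ← P_add hH hSD hXa]
    refine P_mono hH hX1 (hSD.add hXa) (fun y => ?_) x
    have hy : 0 < S y := hm.trans_le (hSm y)
    have hyc : (S y : ℂ) ≠ 0 := by exact_mod_cast hy.ne'
    have hSc : (S' : ℂ) ≠ 0 := by exact_mod_cast hS'.ne'
    have h1 : X y - X' = (S y : ℂ) * (X y / (S y : ℂ) - X' / (S' : ℂ)) +
        X' * (((S y / S' - 1 : ℝ)) : ℂ) := by
      push_cast
      field_simp
      ring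
    calc ‖X y - X'‖ = ‖(S y : ℂ) * (X y / (S y : ℂ) - X' / (S' : ℂ)) +
        X' * (((S y / S' - 1 : ℝ)) : ℂ)‖ := by rw [← h1]
      _ ≤ ‖(S y : ℂ) * (X y / (S y : ℂ) - X' / (S' : ℂ))‖ + ‖X' * (((S y / S' - 1 : ℝ)) : ℂ)‖ :=
        norm_add_le _ _
      _ = S y * ‖X y / (S y : ℂ) - X' / (S' : ℂ)‖ + ‖X'‖ * |S y / S' - 1| := by
        rw [norm_mul, norm_mul, Complex.norm_real, Complex.norm_real, Real.norm_of_nonneg hy.le,
          Real.norm_eq_abs]
  have k2 : (P H (fun y => S y * ‖X y / (S y : ℂ) - X' / (S' : ℂ)‖) x) ^ 2 ≤ S' * V := by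
    have hq : BMr fun y => √(S y) := EnA_sqrt hS
    have h1 := P_cs hH hq (hq.mul hD) x
    have e1 : (fun y => √(S y) * (√(S y) * ‖X y / (S y : ℂ) - X' / (S' : ℂ)‖)) =
        fun y => S y * ‖X y / (S y : ℂ) - X' / (S' : ℂ)‖ := by
      funext y
      rw [← mul_assoc, Real.mul_self_sqrt (hm.trans_le (hSm y)).le]
    have e2 : (fun y => √(S y) ^ 2) = S := by
      funext y
      exact Real.sq_sqrt (hm.trans_le (hSm y)).le
    have e3 : (fun y => (√(S y) * ‖X y / (S y : ℂ) - X' / (S' : ℂ)‖) ^ 2) =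
        fun y => S y * ‖X y / (S y : ℂ) - X' / (S' : ℂ)‖ ^ 2 := by
      funext y
      rw [mul_pow, Real.sq_sqrt (hm.trans_le (hSm y)).le]
    rw [e1, e2, e3, hV] at h1
    exact h1
  have k0 : 0 ≤ ∫ y, g H (x - y) * ‖X y - X'‖ := P_nonneg H (fun y => norm_nonneg _) x
  obtain ⟨A, hA⟩ : ∃ A : ℝ, A = P H (fun y => S y * ‖X y / (S y : ℂ) - X' / (S' : ℂ)‖) x :=
    ⟨_, rfl⟩
  obtain ⟨B, hB⟩ : ∃ B : ℝ, B = P H (fun y => |S y / S' - 1|) x := ⟨_, rfl⟩
  rw [← hA] at k1 k2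
  rw [← hB] at k1 hR
  have k3 : (∫ y, g H (x - y) * ‖X y - X'‖) ^ 2 ≤ (A + ‖X'‖ * B) ^ 2 :=
    pow_le_pow_left₀ k0 k1 2
  have k4 : (A + ‖X'‖ * B) ^ 2 ≤ 2 * A ^ 2 + 2 * (‖X'‖ * B) ^ 2 := by
    nlinarith [sq_nonneg (A - ‖X'‖ * B)]
  have k5 : (‖X'‖ * B) ^ 2 ≤ ‖X'‖ ^ 2 * (4 * γ) := by
    rw [mul_pow]
    exact mul_le_mul_of_nonneg_left hR (sq_nonneg _)
  have k6 : S' * (2 * V + 8 * (‖X'‖ ^ 2 / S' * γ)) = 2 * (S' * V) + 8 * (‖X'‖ ^ 2 * γ) := by
    field_simp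
  rw [k6]
  linarith

end Pool.Agent.helper12.AI
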