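import Pool.Agent.helper12.AI.EnA

/-!
# AI-EnB: the Bellman inequality, one point

`S' = P H S x`, `X' = Pc H X x`, `λ' = P H λ x`, `γ = log S' - P H (log S) x ≥ 0`, `U = 2 S - exp (2 λ) / S`, `U' = 2 S' - exp (2 λ') / S'`.
PROOF.  (1) `λ ≤ log S` gives `exp (2 λ) / S ≤ S`, so `U ≥ S ≥ m > 0`; also `λ' ≤ P H (log S) x ≤ log S'`, so `U' ≥ S' > 0`, and `U' ≤ 2 S'`.
(2) `exp (2 λ) / S = exp (2 λ - log S)`; by `P_exp` `P H (exp (2 λ - log S)) x ≥ exp (2 λ' - P H (log S) x) = exp (2 λ' - log S' + γ) =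
(exp (2 λ') / S') exp γ ≥ (exp (2 λ') / S') (1 + γ)`.  So `P H U x ≤ U' - (exp (2 λ') / S') γ`, and `exp (2 λ') ≥ S'² exp (- 2 c)` by `hc`, so with
`κ = exp (- 2 c) / 2`: `P H U x ≤ U' - 2 κ S' γ ≤ U' (1 - κ γ)`.
(3) `‖X'‖² ≤ (P H (‖X‖) x)² ≤ P H (‖X‖² / U) x · P H U x` (`Pc_norm_le`, `P_cs` with `‖X‖ / √U` and `√U`).
(4) `P H U x > 0`, so `1 - κ γ > 0` and `‖X'‖² / U' (1 + κ γ) ≤ ‖X'‖² / (U' (1 - κ γ)) ≤ P H (‖X‖² / U) x`.
(5) `‖X'‖² / U' ≥ ‖X'‖² / (2 S')`, so `(κ / 2) γ ‖X'‖² / S' ≤ P H (‖X‖² / U) x - ‖X'‖² / U'`; `κ / 2 = exp (- 2 c) / 4`.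
-/

set_option autoImplicit false

open MeasureTheory FourierTransform
open scoped ENNReal InnerProductSpace ComplexConjugate

namespace Pool.Agent.helper12.AI

open Pool.Agent.helper12.RT

variable {n : ℕ}

private theorem EnB_sqrt {p : E n → ℝ} (hp : BMr p) : BMr fun x => √(p x) := by
  obtain ⟨h1, C, h2⟩ := hp
  refine ⟨h1.sqrt, √C, fun x => ?_⟩
  rw [abs_of_nonneg (Real.sqrt_nonneg _)]
  exact Real.sqrt_le_sqrt ((le_abs_self _).trans (h2 x))

private theorem EnB_norm {X : E n → ℂ} (hX : BM X) : BMr fun x => ‖X x‖ := by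
  obtain ⟨h1, C, h2⟩ := hX
  refine ⟨h1.norm, C, fun x => ?_⟩
  rw [abs_of_nonneg (norm_nonneg _)]
  exact h2 x

/-- the final computation with real numbers -/
private theorem EnB_real {S' T' U' W V X γ κ : ℝ} (hS' : 0 < S') (hU' : U' = 2 * S' - T')
    (hT0 : 0 ≤ T') (hTS : T' ≤ S') (hγ : 0 ≤ γ) (hκ : 0 < κ) (hTκ : 2 * κ * S' ≤ T')
    (hV : V ≤ U' - T' * γ) (hX : X ^ 2 ≤ W * V) (hW : 0 ≤ W) :
    κ / 2 * (X ^ 2 / S' * γ) ≤ W - X ^ 2 / U' := by
  have hU0 : 0 < U' := by linarith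
  have hU2 : U' ≤ 2 * S' := by linarith
  have h1 : κ * γ * U' ≤ T' * γ := by
    have h2 : κ * U' ≤ T' := by nlinarith
    calc κ * γ * U' = κ * U' * γ := by ring
      _ ≤ T' * γ := mul_le_mul_of_nonneg_right h2 hγ
  have hV' : V ≤ U' * (1 - κ * γ) := by linarith
  have hκγ : 0 ≤ κ * γ := mul_nonneg hκ.le hγ
  have hX2 : X ^ 2 ≤ W * (U' * (1 - κ * γ)) := hX.trans (mul_le_mul_of_nonneg_left hV' hW)
  have hA : X ^ 2 / U' ≤ W * (1 - κ * γ) := by
    rw [div_le_iff₀ hU0]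
    calc X ^ 2 ≤ W * (U' * (1 - κ * γ)) := hX2
      _ = W * (1 - κ * γ) * U' := by ring
  have hA0 : 0 ≤ X ^ 2 / U' := div_nonneg (sq_nonneg _) hU0.le
  have hB : κ * γ * (X ^ 2 / U') ≤ W - X ^ 2 / U' := by
    have h3 : X ^ 2 / U' * (1 + κ * γ) ≤ W * (1 - κ * γ) * (1 + κ * γ) :=
      mul_le_mul_of_nonneg_right hA (by linarith)
    have h4 : W * (1 - κ * γ) * (1 + κ * γ) ≤ W := by
      have h5 : 0 ≤ W * (κ * γ * (κ * γ)) := mul_nonneg hW (mul_nonneg hκγ hκγ)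
      nlinarith
    nlinarith
  refine le_trans ?_ hB
  have h6 : X ^ 2 / (2 * S') ≤ X ^ 2 / U' := div_le_div_of_nonneg_left (sq_nonneg _) hU0 hU2
  calc κ / 2 * (X ^ 2 / S' * γ) = κ * γ * (X ^ 2 / (2 * S')) := by
        field_simp
    _ ≤ κ * γ * (X ^ 2 / U') := mul_le_mul_of_nonneg_left h6 hκγ

theorem enB {H : ℝ} (hH : 0 < H) {S : E n → ℝ} (hS : BMr S) {m : ℝ} (hm : 0 < m)
    (hSm : ∀ x, m ≤ S x) {X : E n → ℂ} (hX : BM X) {lam : E n → ℝ} (hlam : BMr lam)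
    (h0 : ∀ y, lam y ≤ Real.log (S y)) {c : ℝ} {x : E n}
    (hc : Real.log (P H S x) ≤ P H lam x + c) :
    Real.exp (-(2 * c)) / 4 * (‖Pc H X x‖ ^ 2 / P H S x *
        (Real.log (P H S x) - P H (fun y => Real.log (S y)) x)) ≤
      P H (fun y => ‖X y‖ ^ 2 / (2 * S y - Real.exp (2 * lam y) / S y)) x -
        ‖Pc H X x‖ ^ 2 / (2 * P H S x - Real.exp (2 * P H lam x) / P H S x) := by
  have hSpos : ∀ y, 0 < S y := fun y => hm.trans_le (hSm y)
  have hlogS : BMr fun y => Real.log (S y) := bmr_log hS hm hSm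
  -- `T = exp (2 lam) / S`
  obtain ⟨T, hT⟩ : ∃ T : E n → ℝ, T = fun y => Real.exp (2 * lam y - Real.log (S y)) := ⟨_, rfl⟩
  have hTe : ∀ y, Real.exp (2 * lam y) / S y = T y := by
    intro y
    rw [hT]
    show _ = Real.exp (2 * lam y - Real.log (S y))
    rw [Real.exp_sub, Real.exp_log (hSpos y)]
  have hexpo : BMr fun y => 2 * lam y - Real.log (S y) :=
    ((BMr.const 2).mul hlam).sub hlogS
  have hTb : BMr T := by
    rw [hT]
    exact bmr_exp hexpo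
  have hTS : ∀ y, T y ≤ S y := by
    intro y
    have h1 := h0 y
    calc T y = Real.exp (2 * lam y - Real.log (S y)) := by rw [hT]
      _ ≤ Real.exp (Real.log (S y)) := Real.exp_le_exp.2 (by linarith)
      _ = S y := Real.exp_log (hSpos y)
  obtain ⟨U, hU⟩ : ∃ U : E n → ℝ, U = fun y => 2 * S y - T y := ⟨_, rfl⟩
  have hUb : BMr U := by
    rw [hU]
    exact ((BMr.const 2).mul hS).sub hTb
  have hUm : ∀ y, m ≤ U y := by
    intro y
    have h1 := hTS y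
    have h2 := hSm y
    rw [hU]
    show m ≤ 2 * S y - T y
    linarith
  have hUe : (fun y => ‖X y‖ ^ 2 / (2 * S y - Real.exp (2 * lam y) / S y)) =
      fun y => ‖X y‖ ^ 2 / U y := by
    funext y
    rw [hTe, hU]
  rw [hUe]
  -- the values at `x`
  have hS'm : m ≤ P H S x := P_ge hH hS hSm x
  have hS' : 0 < P H S x := hm.trans_le hS'm
  have hγ0 := gamma_nonneg hH hS hm hSm x
  have hlam' : P H lam x ≤ P H (fun y => Real.log (S y)) x := P_mono hH hlam hlogS h0 x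
  obtain ⟨T', hT'⟩ : ∃ T' : ℝ, T' = Real.exp (2 * P H lam x) / P H S x := ⟨_, rfl⟩
  have hT'e : T' = Real.exp (2 * P H lam x - Real.log (P H S x)) := by
    rw [hT', Real.exp_sub, Real.exp_log hS']
  have hT'S : T' ≤ P H S x := by
    calc T' = Real.exp (2 * P H lam x - Real.log (P H S x)) := hT'e
      _ ≤ Real.exp (Real.log (P H S x)) := Real.exp_le_exp.2 (by linarith)
      _ = P H S x := Real.exp_log hS'
  have hT'c : 2 * (Real.exp (-(2 * c)) / 2) * P H S x ≤ T' := by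
    calc 2 * (Real.exp (-(2 * c)) / 2) * P H S x
        = Real.exp (-(2 * c)) * Real.exp (Real.log (P H S x)) := by
          rw [Real.exp_log hS']; ring
      _ = Real.exp (-(2 * c) + Real.log (P H S x)) := (Real.exp_add _ _).symm
      _ ≤ Real.exp (2 * P H lam x - Real.log (P H S x)) := Real.exp_le_exp.2 (by linarith)
      _ = T' := hT'e.symm
  -- Jensen
  have hPT : T' + T' * (Real.log (P H S x) - P H (fun y => Real.log (S y)) x) ≤ P H T x := by
    have h1 := P_exp hH hexpo x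
    have h2 : P H (fun y => 2 * lam y - Real.log (S y)) x =
        2 * P H lam x - P H (fun y => Real.log (S y)) x := by
      rw [P_sub hH ((BMr.const 2).mul hlam) hlogS, P_smul]
    rw [h2] at h1
    have h3 : P H (fun y => Real.exp (2 * lam y - Real.log (S y))) x = P H T x := by rw [hT]
    rw [h3] at h1
    refine le_trans ?_ h1
    have h4 : 2 * P H lam x - P H (fun y => Real.log (S y)) x =
        (2 * P H lam x - Real.log (P H S x)) +
          (Real.log (P H S x) - P H (fun y => Real.log (S y)) x) := by ring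
    rw [h4, Real.exp_add, ← hT'e]
    have h5 := Real.add_one_le_exp (Real.log (P H S x) - P H (fun y => Real.log (S y)) x)
    have h6 : 0 ≤ T' := by rw [hT'e]; exact (Real.exp_pos _).le
    have h7 := mul_le_mul_of_nonneg_left h5 h6
    linarith
  have hPU : P H U x = 2 * P H S x - P H T x := by
    rw [hU, P_sub hH ((BMr.const 2).mul hS) hTb, P_smul]
  -- Cauchy-Schwarz
  have hsq : BMr fun y => √(U y) := EnB_sqrt hUb
  have hsqm : ∀ y, √m ≤ √(U y) := fun y => Real.sqrt_le_sqrt (hUm y)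
  have hsqi : BMr fun y => (√(U y))⁻¹ := hsq.inv (Real.sqrt_pos.2 hm) hsqm
  have hUpos : ∀ y, 0 < U y := fun y => hm.trans_le (hUm y)
  have hcs := P_cs hH ((EnB_norm hX).mul hsqi) hsq x
  have e1 : (fun y => ‖X y‖ * (√(U y))⁻¹ * √(U y)) = fun y => ‖X y‖ := by
    funext y
    rw [mul_assoc, inv_mul_cancel₀ (Real.sqrt_pos.2 (hUpos y)).ne', mul_one]
  have e2 : (fun y => (‖X y‖ * (√(U y))⁻¹) ^ 2) = fun y => ‖X y‖ ^ 2 / U y := by
    funext y
    rw [mul_pow, inv_pow, Real.sq_sqrt (hUpos y).le, div_eq_mul_inv]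
  have e3 : (fun y => √(U y) ^ 2) = U := by
    funext y
    exact Real.sq_sqrt (hUpos y).le
  rw [e1, e2, e3] at hcs
  have hX2 : ‖Pc H X x‖ ^ 2 ≤ P H (fun y => ‖X y‖ ^ 2 / U y) x * P H U x :=
    (pow_le_pow_left₀ (norm_nonneg _) (Pc_norm_le hH hX x) 2).trans hcs
  have hW : 0 ≤ P H (fun y => ‖X y‖ ^ 2 / U y) x :=
    P_nonneg H (fun y => div_nonneg (sq_nonneg _) (hUpos y).le) x
  have hfin := EnB_real (κ := Real.exp (-(2 * c)) / 2)
    (γ := Real.log (P H S x) - P H (fun y => Real.log (S y)) x)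
    (U' := 2 * P H S x - T') hS' rfl (by rw [hT'e]; exact (Real.exp_pos _).le) hT'S
    (sub_nonneg.2 hγ0) (by positivity) hT'c (by rw [hPU]; linarith) hX2 hW
  rw [← hT']
  calc Real.exp (-(2 * c)) / 4 * (‖Pc H X x‖ ^ 2 / P H S x *
        (Real.log (P H S x) - P H (fun y => Real.log (S y)) x))
      = Real.exp (-(2 * c)) / 2 / 2 * (‖Pc H X x‖ ^ 2 / P H S x *
        (Real.log (P H S x) - P H (fun y => Real.log (S y)) x)) := by ring
    _ ≤ _ := hfin

end Pool.Agent.helper12.AI
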