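import Pool.Agent.helper12.AI.EnB

/-!
# AI-EnC: the energy inequality for one chain of times

`S_t = P t s`, `X_t = Pc t u`, `λ_t = P t (log s)`, `U_t = 2 S_t - exp (2 λ_t) / S_t`, `κ₁ = exp (- 2 c) / 4`.
PROOF.  For `t > 0` apply `enA` and `enB` with `H = 7 t`, `S = S_t`, `X = X_t`, `lam = λ_t`; by `P_semi`, `Pc_semi` (`7 t + t = 8 t`) the primed functions
are those of time `8 t`; `λ_t ≤ log S_t` by `gamma_nonneg` (for `s`), `hc` is `hH (8 t)`.  Hence pointwise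
`osc t u x² / S_8t(x) ≤ 2 (P (7 t) (‖X_t‖² / S_t) x - ‖X_8t x‖² / S_8t x) + (8 / κ₁) (P (7 t) (‖X_t‖² / U_t) x - ‖X_8t x‖² / U_8t x)`.
All functions are bounded and integrable (`sq_integrable`, `P_int`; `S, U ≥ m`), so `∫ osc² / S_8t ≤ Ψ t - Ψ (8 t)` with
`Ψ t = 2 ∫ ‖X_t‖² / S_t + (8 / κ₁) ∫ ‖X_t‖² / U_t` (`energy_step`; `Ψ ≥ 0`).  Sum over `8^j t` (telescoping).  Finally `U_t ≥ S_t`, so
`Ψ t ≤ (2 + 8 / κ₁) ∫ ‖X_t‖² / S_t`, `8 / κ₁ = 32 exp (2 c)`, and `‖X_t‖² ≤ (P t ‖u‖)² ≤ P t (‖u‖² / s) · P t s` (`P_cs`), so `∫ ‖X_t‖² / S_t ≤ ∫ ‖u‖² / s`.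
Integrability of `osc² / S_8t`: measurable, nonnegative and bounded by the integrable right hand side.
-/

set_option autoImplicit false

open MeasureTheory FourierTransform
open scoped ENNReal InnerProductSpace ComplexConjugate

namespace Pool.Agent.helper12.AI

open Pool.Agent.helper12.RT

variable {n : ℕ}

private theorem EnC_quot {X : E n → ℂ} (hX : BM X) {V : E n → ℝ} (hV : Measurable V) {m : ℝ}
    (hm : 0 < m) (h : ∀ x, m ≤ V x) : BMr fun x => ‖X x‖ ^ 2 / V x := by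
  obtain ⟨h1, C, hC⟩ := hX
  refine ⟨(h1.norm.pow_const 2).div hV, C ^ 2 / m, fun x => ?_⟩
  have hVx : 0 < V x := lt_of_lt_of_le hm (h x)
  rw [abs_of_nonneg (div_nonneg (sq_nonneg _) hVx.le)]
  exact div_le_div₀ (sq_nonneg _) (pow_le_pow_left₀ (norm_nonneg _) (hC x) 2) hm (h x)

private theorem EnC_quot_int {X : E n → ℂ} (hX : BM X) (hi : Integrable X) {V : E n → ℝ}
    (hV : Measurable V) {m : ℝ} (hm : 0 < m) (h : ∀ x, m ≤ V x) :
    Integrable fun x => ‖X x‖ ^ 2 / V x := by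
  have hp : BMr fun x => (V x)⁻¹ := by
    refine ⟨hV.inv, m⁻¹, fun x => ?_⟩
    have hVx : 0 < V x := lt_of_lt_of_le hm (h x)
    rw [abs_of_pos (inv_pos.2 hVx)]
    exact inv_anti₀ hm (h x)
  have h1 := sq_integrable hX hi hp
  simpa only [div_eq_mul_inv] using h1

/-- the function `U_t` -/
private noncomputable def EnC_U (t : ℝ) (s : E n → ℝ) (x : E n) : ℝ :=
  2 * P t s x - Real.exp (2 * P t (fun y => Real.log (s y)) x) / P t s x

private theorem EnC_U_ge {s : E n → ℝ} (hs : BMr s) {m : ℝ} (hm : 0 < m) (hsm : ∀ x, m ≤ s x)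
    {t : ℝ} (ht : 0 < t) (x : E n) : P t s x ≤ EnC_U t s x := by
  have hS : m ≤ P t s x := P_ge ht hs hsm x
  have hS0 : 0 < P t s x := lt_of_lt_of_le hm hS
  have h1 := gamma_nonneg ht hs hm hsm x
  have h2 : Real.exp (2 * P t (fun y => Real.log (s y)) x) ≤ P t s x * P t s x := by
    calc Real.exp (2 * P t (fun y => Real.log (s y)) x) ≤
        Real.exp (Real.log (P t s x) + Real.log (P t s x)) := by
          apply Real.exp_le_exp.2
          linarith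
      _ = P t s x * P t s x := by
          rw [Real.exp_add, Real.exp_log hS0]
  have h3 : Real.exp (2 * P t (fun y => Real.log (s y)) x) / P t s x ≤ P t s x := by
    rw [div_le_iff₀ hS0]
    exact h2
  unfold EnC_U
  linarith

private theorem EnC_U_meas {s : E n → ℝ} (hs : BMr s) {m : ℝ} (hm : 0 < m) (hsm : ∀ x, m ≤ s x)
    {t : ℝ} (ht : 0 < t) : Measurable (EnC_U t s) := by
  have h1 : Measurable (P t s) := (P_bmr ht hs).1
  have h2 : Measurable (P t fun y => Real.log (s y)) := (P_bmr ht (bmr_log hs hm hsm)).1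
  unfold EnC_U
  exact (h1.const_mul 2).sub ((Real.measurable_exp.comp (h2.const_mul 2)).div h1)

/-- the two energies at time `t` -/
private theorem EnC_facts {s : E n → ℝ} (hs : BMr s) {m : ℝ} (hm : 0 < m) (hsm : ∀ x, m ≤ s x)
    {u : E n → ℂ} (hu : BM u) (hi : Integrable u) {t : ℝ} (ht : 0 < t) :
    (BMr fun x => ‖Pc t u x‖ ^ 2 / P t s x) ∧ (Integrable fun x => ‖Pc t u x‖ ^ 2 / P t s x) ∧
    (BMr fun x => ‖Pc t u x‖ ^ 2 / EnC_U t s x) ∧
    (Integrable fun x => ‖Pc t u x‖ ^ 2 / EnC_U t s x) := by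
  have hS : ∀ x, m ≤ P t s x := P_ge ht hs hsm
  have hU : ∀ x, m ≤ EnC_U t s x := fun x => (hS x).trans (EnC_U_ge hs hm hsm ht x)
  have hSm : Measurable (P t s) := (P_bmr ht hs).1
  have hUm := EnC_U_meas hs hm hsm ht
  exact ⟨EnC_quot (Pc_bm ht hu) hSm hm hS, EnC_quot_int (Pc_bm ht hu) (Pc_int ht hu hi) hSm hm hS,
    EnC_quot (Pc_bm ht hu) hUm hm hU, EnC_quot_int (Pc_bm ht hu) (Pc_int ht hu hi) hUm hm hU⟩

private theorem EnC_point {s : E n → ℝ} (hs : BMr s) {m : ℝ} (hm : 0 < m) (hsm : ∀ x, m ≤ s x)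
    {c : ℝ} (hH : HA c s) {u : E n → ℂ} (hu : BM u) {t : ℝ} (ht : 0 < t) (x : E n) :
    osc t u x ^ 2 / P (8 * t) s x ≤
      2 * (P (7 * t) (fun y => ‖Pc t u y‖ ^ 2 / P t s y) x -
        ‖Pc (8 * t) u x‖ ^ 2 / P (8 * t) s x) +
      32 * Real.exp (2 * c) * (P (7 * t) (fun y => ‖Pc t u y‖ ^ 2 / EnC_U t s y) x -
        ‖Pc (8 * t) u x‖ ^ 2 / EnC_U (8 * t) s x) := by
  have h7 : 0 < 7 * t := by linarith
  have h8 : 0 < 8 * t := by linarith
  have h78 : 7 * t + t = 8 * t := by ring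
  have hSb : BMr (P t s) := P_bmr ht hs
  have hSm : ∀ x, m ≤ P t s x := P_ge ht hs hsm
  have hXb : BM (Pc t u) := Pc_bm ht hu
  have hlb : BMr (P t fun y => Real.log (s y)) := P_bmr ht (bmr_log hs hm hsm)
  have e1 : P (7 * t) (P t s) x = P (8 * t) s x := by rw [P_semi h7 ht hs, h78]
  have e2 : Pc (7 * t) (Pc t u) x = Pc (8 * t) u x := by rw [Pc_semi h7 ht hu, h78]
  have e3 : P (7 * t) (P t fun y => Real.log (s y)) x = P (8 * t) (fun y => Real.log (s y)) x := by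
    rw [P_semi h7 ht (bmr_log hs hm hsm), h78]
  have hA := enA h7 hSb hm hSm hXb x
  have hB := enB h7 hSb hm hSm hXb hlb (fun y => gamma_nonneg ht hs hm hsm y) (c := c) (x := x)
    (by rw [e1, e3]; exact hH (8 * t) h8 x)
  rw [e1, e2] at hA hB
  rw [e3] at hB
  have hosc : (∫ y, g (7 * t) (x - y) * ‖Pc t u y - Pc (8 * t) u x‖) = osc t u x := rfl
  rw [hosc] at hA
  have hS8 : 0 < P (8 * t) s x := lt_of_lt_of_le hm (P_ge h8 hs hsm x)
  have hk : 0 < Real.exp (-(2 * c)) / 4 := by positivity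
  set Z := ‖Pc (8 * t) u x‖ ^ 2 / P (8 * t) s x *
    (Real.log (P (8 * t) s x) - P (7 * t) (fun y => Real.log (P t s y)) x) with hZ
  have hB' : 8 * Z ≤ 32 * Real.exp (2 * c) *
      (P (7 * t) (fun y => ‖Pc t u y‖ ^ 2 / EnC_U t s y) x -
        ‖Pc (8 * t) u x‖ ^ 2 / EnC_U (8 * t) s x) := by
    have h1 : Real.exp (2 * c) * Real.exp (-(2 * c)) = 1 := by
      rw [← Real.exp_add, add_neg_cancel, Real.exp_zero]
    have h2 := mul_le_mul_of_nonneg_left hB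
      (by positivity : (0 : ℝ) ≤ 32 * Real.exp (2 * c))
    have h3 : 32 * Real.exp (2 * c) * (Real.exp (-(2 * c)) / 4 * Z) = 8 * Z := by
      calc 32 * Real.exp (2 * c) * (Real.exp (-(2 * c)) / 4 * Z) =
          8 * (Real.exp (2 * c) * Real.exp (-(2 * c))) * Z := by ring
        _ = 8 * Z := by rw [h1, mul_one]
    rw [h3] at h2
    exact h2
  rw [div_le_iff₀ hS8]
  calc osc t u x ^ 2 ≤ P (8 * t) s x *
      (2 * (P (7 * t) (fun y => ‖Pc t u y‖ ^ 2 / P t s y) x -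
        ‖Pc (8 * t) u x‖ ^ 2 / P (8 * t) s x) + 8 * Z) := hA
    _ ≤ P (8 * t) s x *
      (2 * (P (7 * t) (fun y => ‖Pc t u y‖ ^ 2 / P t s y) x -
        ‖Pc (8 * t) u x‖ ^ 2 / P (8 * t) s x) + 32 * Real.exp (2 * c) *
      (P (7 * t) (fun y => ‖Pc t u y‖ ^ 2 / EnC_U t s y) x -
        ‖Pc (8 * t) u x‖ ^ 2 / EnC_U (8 * t) s x)) :=
        mul_le_mul_of_nonneg_left (by linarith) hS8.le
    _ = _ := by ring

private theorem EnC_osc_meas {u : E n → ℂ} (hu : BM u) {t : ℝ} (ht : 0 < t) :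
    Measurable (osc t u) := by
  have h1 : Measurable (Pc t u) := (Pc_bm ht hu).1
  have h2 : Measurable (Pc (8 * t) u) := (Pc_bm (by linarith) hu).1
  have hF : Measurable (Function.uncurry fun x y : E n =>
      g (7 * t) (x - y) * ‖Pc t u y - Pc (8 * t) u x‖) := by
    refine Measurable.mul ?_ ?_
    · exact (g_cont (7 * t)).measurable.comp (measurable_fst.sub measurable_snd)
    · exact ((h1.comp measurable_snd).sub (h2.comp measurable_fst)).norm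
  exact hF.stronglyMeasurable.integral_prod_right.measurable

private theorem EnC_rhs {s : E n → ℝ} (hs : BMr s) {m : ℝ} (hm : 0 < m) (hsm : ∀ x, m ≤ s x)
    (c : ℝ) {u : E n → ℂ} (hu : BM u) (hi : Integrable u) {t : ℝ} (ht : 0 < t) :
    (Integrable fun x => 2 * (P (7 * t) (fun y => ‖Pc t u y‖ ^ 2 / P t s y) x -
        ‖Pc (8 * t) u x‖ ^ 2 / P (8 * t) s x) +
      32 * Real.exp (2 * c) * (P (7 * t) (fun y => ‖Pc t u y‖ ^ 2 / EnC_U t s y) x -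
        ‖Pc (8 * t) u x‖ ^ 2 / EnC_U (8 * t) s x)) ∧
    ∫ x, (2 * (P (7 * t) (fun y => ‖Pc t u y‖ ^ 2 / P t s y) x -
        ‖Pc (8 * t) u x‖ ^ 2 / P (8 * t) s x) +
      32 * Real.exp (2 * c) * (P (7 * t) (fun y => ‖Pc t u y‖ ^ 2 / EnC_U t s y) x -
        ‖Pc (8 * t) u x‖ ^ 2 / EnC_U (8 * t) s x)) =
      2 * ((∫ x, ‖Pc t u x‖ ^ 2 / P t s x) - ∫ x, ‖Pc (8 * t) u x‖ ^ 2 / P (8 * t) s x) +
      32 * Real.exp (2 * c) * ((∫ x, ‖Pc t u x‖ ^ 2 / EnC_U t s x) -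
        ∫ x, ‖Pc (8 * t) u x‖ ^ 2 / EnC_U (8 * t) s x) := by
  have h7 : 0 < 7 * t := by linarith
  have h8 : 0 < 8 * t := by linarith
  obtain ⟨a1, a2, a3, a4⟩ := EnC_facts hs hm hsm hu hi ht
  obtain ⟨-, b2, -, b4⟩ := EnC_facts hs hm hsm hu hi h8
  obtain ⟨c1, c2⟩ := P_int h7 a1 a2
  obtain ⟨d1, d2⟩ := P_int h7 a3 a4
  have i1 := (c1.sub b2).const_mul 2
  have i2 := (d1.sub b4).const_mul (32 * Real.exp (2 * c))
  refine ⟨i1.add i2, ?_⟩
  have j1 := integral_add i1 i2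
  simp only [Pi.sub_apply] at j1
  rw [j1, integral_const_mul, integral_const_mul, integral_sub c1 b2, integral_sub d1 b4, c2, d2]

theorem osc_integrable {s : E n → ℝ} (hs : BMr s) {m : ℝ} (hm : 0 < m) (hsm : ∀ x, m ≤ s x) {c : ℝ}
    (hH : HA c s) {u : E n → ℂ} (hu : BM u) (hi : Integrable u) {t : ℝ} (ht : 0 < t) :
    Integrable fun x => osc t u x ^ 2 / P (8 * t) s x := by
  have h8 : 0 < 8 * t := by linarith
  refine (EnC_rhs hs hm hsm c hu hi ht).1.mono' ?_ (Filter.Eventually.of_forall fun x => ?_)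
  · exact (((EnC_osc_meas hu ht).pow_const 2).div (P_bmr h8 hs).1).aestronglyMeasurable
  · have hS8 : 0 < P (8 * t) s x := lt_of_lt_of_le hm (P_ge h8 hs hsm x)
    rw [Real.norm_of_nonneg (div_nonneg (sq_nonneg _) hS8.le)]
    exact EnC_point hs hm hsm hH hu ht x

private theorem EnC_step {s : E n → ℝ} (hs : BMr s) {m : ℝ} (hm : 0 < m) (hsm : ∀ x, m ≤ s x)
    {c : ℝ} (hH : HA c s) {u : E n → ℂ} (hu : BM u) (hi : Integrable u) {t : ℝ} (ht : 0 < t) :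
    ∫ x, osc t u x ^ 2 / P (8 * t) s x ≤
      (2 * (∫ x, ‖Pc t u x‖ ^ 2 / P t s x) +
        32 * Real.exp (2 * c) * ∫ x, ‖Pc t u x‖ ^ 2 / EnC_U t s x) -
      (2 * (∫ x, ‖Pc (8 * t) u x‖ ^ 2 / P (8 * t) s x) +
        32 * Real.exp (2 * c) * ∫ x, ‖Pc (8 * t) u x‖ ^ 2 / EnC_U (8 * t) s x) := by
  obtain ⟨h1, h2⟩ := EnC_rhs hs hm hsm c hu hi ht
  have h3 := integral_mono (osc_integrable hs hm hsm hH hu hi ht) h1
    (fun x => EnC_point hs hm hsm hH hu ht x)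
  rw [h2] at h3
  linarith

private theorem EnC_start {s : E n → ℝ} (hs : BMr s) {m : ℝ} (hm : 0 < m) (hsm : ∀ x, m ≤ s x)
    {u : E n → ℂ} (hu : BM u) (hi : Integrable u) {t : ℝ} (ht : 0 < t) :
    ∫ x, ‖Pc t u x‖ ^ 2 / P t s x ≤ ∫ x, ‖u x‖ ^ 2 / s x := by
  have hsm' : Measurable s := hs.1
  have hq : BMr fun x => ‖u x‖ ^ 2 / s x := EnC_quot hu hsm' hm hsm
  have hqi : Integrable fun x => ‖u x‖ ^ 2 / s x := EnC_quot_int hu hi hsm' hm hsm
  obtain ⟨h1, h2⟩ := P_int ht hq hqi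
  rw [← h2]
  refine integral_mono (EnC_facts hs hm hsm hu hi ht).2.1 h1 fun x => ?_
  have hS : 0 < P t s x := lt_of_lt_of_le hm (P_ge ht hs hsm x)
  have hs0 : ∀ y, 0 < s y := fun y => lt_of_lt_of_le hm (hsm y)
  rw [div_le_iff₀ hS]
  have hf : BMr fun y => ‖u y‖ / √(s y) := by
    obtain ⟨hum, C, hC⟩ := hu
    refine ⟨hum.norm.div (Real.continuous_sqrt.measurable.comp hsm'), C / √m, fun y => ?_⟩
    rw [abs_of_nonneg (div_nonneg (norm_nonneg _) (Real.sqrt_nonneg _))]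
    exact div_le_div₀ ((norm_nonneg _).trans (hC y)) (hC y) (Real.sqrt_pos.2 hm)
      (Real.sqrt_le_sqrt (hsm y))
  have hh : BMr fun y => √(s y) := by
    obtain ⟨-, C, hC⟩ := hs
    refine ⟨Real.continuous_sqrt.measurable.comp hsm', √C, fun y => ?_⟩
    rw [abs_of_nonneg (Real.sqrt_nonneg _)]
    exact Real.sqrt_le_sqrt ((le_abs_self _).trans (hC y))
  have h3 := P_cs ht hf hh x
  have h4 : (fun y => ‖u y‖ / √(s y) * √(s y)) = fun y => ‖u y‖ := by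
    funext y
    exact div_mul_cancel₀ _ (Real.sqrt_pos.2 (hs0 y)).ne'
  have h5 : (fun y => (‖u y‖ / √(s y)) ^ 2) = fun y => ‖u y‖ ^ 2 / s y := by
    funext y
    rw [div_pow, Real.sq_sqrt (hs0 y).le]
  have h6 : (fun y => √(s y) ^ 2) = s := by
    funext y
    exact Real.sq_sqrt (hs0 y).le
  rw [h4, h5, h6] at h3
  exact (pow_le_pow_left₀ (norm_nonneg _) (Pc_norm_le ht hu x) 2).trans h3


theorem enC {s : E n → ℝ} (hs : BMr s) {m : ℝ} (hm : 0 < m) (hsm : ∀ x, m ≤ s x) {c : ℝ}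
    (hH : HA c s) {u : E n → ℂ} (hu : BM u) (hi : Integrable u) {t : ℝ} (ht : 0 < t) (J : ℕ) :
    ∑ j ∈ Finset.range J, ∫ x, osc (8 ^ j * t) u x ^ 2 / P (8 * (8 ^ j * t)) s x ≤
      (2 + 32 * Real.exp (2 * c)) * ∫ x, ‖u x‖ ^ 2 / s x := by
  have htj : ∀ j : ℕ, 0 < 8 ^ j * t := fun j => by positivity
  have hnn : ∀ {r : ℝ}, 0 < r → 0 ≤ 2 * (∫ x, ‖Pc r u x‖ ^ 2 / P r s x) +
        32 * Real.exp (2 * c) * ∫ x, ‖Pc r u x‖ ^ 2 / EnC_U r s x := by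
    intro r hr
    have hS : ∀ x, 0 < P r s x := fun x => lt_of_lt_of_le hm (P_ge hr hs hsm x)
    have h1 : 0 ≤ ∫ x, ‖Pc r u x‖ ^ 2 / P r s x :=
      integral_nonneg fun x => div_nonneg (sq_nonneg _) (hS x).le
    have h2 : 0 ≤ ∫ x, ‖Pc r u x‖ ^ 2 / EnC_U r s x :=
      integral_nonneg fun x => div_nonneg (sq_nonneg _)
        ((hS x).le.trans (EnC_U_ge hs hm hsm hr x))
    have h3 : 0 < Real.exp (2 * c) := Real.exp_pos _
    positivity
  have hsum : ∑ j ∈ Finset.range J, ∫ x, osc (8 ^ j * t) u x ^ 2 / P (8 * (8 ^ j * t)) s x ≤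
      (2 * (∫ x, ‖Pc t u x‖ ^ 2 / P t s x) +
        32 * Real.exp (2 * c) * ∫ x, ‖Pc t u x‖ ^ 2 / EnC_U t s x) -
      (2 * (∫ x, ‖Pc (8 ^ J * t) u x‖ ^ 2 / P (8 ^ J * t) s x) +
        32 * Real.exp (2 * c) *
          ∫ x, ‖Pc (8 ^ J * t) u x‖ ^ 2 / EnC_U (8 ^ J * t) s x) := by
    induction J with
    | zero => simp
    | succ J ih =>
      rw [Finset.sum_range_succ]
      have h1 := EnC_step hs hm hsm hH hu hi (htj J)
      have h2 : 8 * (8 ^ J * t) = 8 ^ (J + 1) * t := by ring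
      rw [h2] at h1 ⊢
      linarith
  have h0 := hnn (htj J)
  have hba : ∫ x, ‖Pc t u x‖ ^ 2 / EnC_U t s x ≤ ∫ x, ‖Pc t u x‖ ^ 2 / P t s x := by
    obtain ⟨-, a2, -, a4⟩ := EnC_facts hs hm hsm hu hi ht
    refine integral_mono a4 a2 fun x => ?_
    have hS : 0 < P t s x := lt_of_lt_of_le hm (P_ge ht hs hsm x)
    exact div_le_div_of_nonneg_left (sq_nonneg _) hS (EnC_U_ge hs hm hsm ht x)
  have hst := EnC_start hs hm hsm hu hi ht
  have he : 0 < Real.exp (2 * c) := Real.exp_pos _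
  have h1 : 32 * Real.exp (2 * c) * (∫ x, ‖Pc t u x‖ ^ 2 / EnC_U t s x) ≤
      32 * Real.exp (2 * c) * ∫ x, ‖u x‖ ^ 2 / s x :=
    mul_le_mul_of_nonneg_left (hba.trans hst) (by positivity)
  linarith

end Pool.Agent.helper12.AI
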