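import Pool.Agent.helper12.AI.EnC

/-!
# AI-EnD: the energy inequality for all dyadic times

PROOF.  Split `range N` modulo 3: `i = 3 j + r`, `2^i t = 8^j (2^r t)`; three chains `enC` with starting times `t, 2 t, 4 t`.  All terms are nonnegative
(`P (8 τ) s x > 0`).
-/

set_option autoImplicit false

open MeasureTheory FourierTransform
open scoped ENNReal InnerProductSpace ComplexConjugate

namespace Pool.Agent.helper12.AI

open Pool.Agent.helper12.RT

variable {n : ℕ}

private theorem EnD_split (F : ℝ → ℝ) (t : ℝ) (J : ℕ) :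
    ∑ i ∈ Finset.range (3 * J), F (2 ^ i * t) =
      ∑ j ∈ Finset.range J, F (8 ^ j * t) + ∑ j ∈ Finset.range J, F (8 ^ j * (2 * t)) +
        ∑ j ∈ Finset.range J, F (8 ^ j * (4 * t)) := by
  induction J with
  | zero => simp
  | succ J ih =>
    have h8 : (8 : ℝ) ^ J = 2 ^ (3 * J) := by
      rw [pow_mul]
      norm_num
    have e1 : (2 : ℝ) ^ (3 * J) * t = 8 ^ J * t := by rw [h8]
    have e2 : (2 : ℝ) ^ (3 * J + 1) * t = 8 ^ J * (2 * t) := by
      rw [h8]
      ring
    have e3 : (2 : ℝ) ^ (3 * J + 1 + 1) * t = 8 ^ J * (4 * t) := by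
      rw [h8]
      ring
    have e0 : 3 * (J + 1) = 3 * J + 1 + 1 + 1 := by ring
    rw [e0, Finset.sum_range_succ, Finset.sum_range_succ, Finset.sum_range_succ, ih, e1, e2, e3,
      Finset.sum_range_succ, Finset.sum_range_succ, Finset.sum_range_succ]
    ring

theorem enD {s : E n → ℝ} (hs : BMr s) {m : ℝ} (hm : 0 < m) (hsm : ∀ x, m ≤ s x) {c : ℝ}
    (hH : HA c s) {u : E n → ℂ} (hu : BM u) (hi : Integrable u) {t : ℝ} (ht : 0 < t) (N : ℕ) :
    ∑ i ∈ Finset.range N, ∫ x, osc (2 ^ i * t) u x ^ 2 / P (8 * (2 ^ i * t)) s x ≤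
      3 * (2 + 32 * Real.exp (2 * c)) * ∫ x, ‖u x‖ ^ 2 / s x := by
  have h1 := EnD_split (fun τ => ∫ x, osc τ u x ^ 2 / P (8 * τ) s x) t N
  have h2 := enC hs hm hsm hH hu hi ht N
  have h3 := enC hs hm hsm hH hu hi (by linarith : 0 < 2 * t) N
  have h4 := enC hs hm hsm hH hu hi (by linarith : 0 < 4 * t) N
  have h5 : ∑ i ∈ Finset.range N, ∫ x, osc (2 ^ i * t) u x ^ 2 / P (8 * (2 ^ i * t)) s x ≤
      ∑ i ∈ Finset.range (3 * N), ∫ x, osc (2 ^ i * t) u x ^ 2 / P (8 * (2 ^ i * t)) s x := by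
    refine Finset.sum_le_sum_of_subset_of_nonneg ?_ ?_
    · intro i hi'
      rw [Finset.mem_range] at hi' ⊢
      omega
    · intro i _ _
      have h8 : 0 < 8 * (2 ^ i * t) := by positivity
      exact integral_nonneg fun x => div_nonneg (sq_nonneg _)
        (hm.le.trans (P_ge h8 hs hsm x))
  rw [h1] at h5
  linarith

end Pool.Agent.helper12.AI
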