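import Pool.Agent.helper12.AI.Defs

/-!
# AI-FT: the Fourier transform of integrable functions in `L²`

PROOF.  For `φ` Schwartz `∫ φ (𝓕 f) = ∫ (𝓕 φ) f` (`VectorFourier.integral_fourierIntegral_smul_eq_flip` or `Real.integral_fourier_mul_eq`-type lemma) `= ∫ φ ĝ`, where `ĝ` is the
`L²` Fourier transform (`td_fourier` in `RT/SpecA.lean`); two locally integrable functions with equal integrals against Schwartz functions are equal almost everywhere
(`ae_eq_of_integral_contDiff_smul_eq`; `HasCompactSupport.toSchwartzMap`; `𝓕 f` is continuous and bounded).  `plancherel`: `Lp.inner_fourier_eq` and `L2.inner_def`.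
-/

set_option autoImplicit false

open MeasureTheory FourierTransform
open scoped ENNReal InnerProductSpace ComplexConjugate

namespace Pool.Agent.helper12.AI

open Pool.Agent.helper12.RT

variable {n : ℕ}

theorem FT_continuous {f : E n → ℂ} (h1 : Integrable f) : Continuous (𝓕 f : E n → ℂ) :=
  VectorFourier.fourierIntegral_continuous Real.continuous_fourierChar continuous_inner h1

theorem FT_swap {f : E n → ℂ} (h1 : Integrable f) (φ : SchwartzMap (E n) ℂ) :
    ∫ x, ft φ x * f x = ∫ x, φ x * 𝓕 f x := by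
  have hφ : Integrable (φ : E n → ℂ) volume := φ.integrable
  have h := VectorFourier.integral_fourierIntegral_smul_eq_flip (L := innerₗ (E n))
    Real.continuous_fourierChar continuous_inner hφ h1
  rw [flip_innerₗ] at h
  exact h

theorem ft_ae {f : E n → ℂ} (h1 : Integrable f) (h2 : MemLp f 2 volume) :
    ((𝓕 (h2.toLp f) : H n) : E n → ℂ) =ᵐ[volume] 𝓕 f := by
  have hloc1 : LocallyIntegrable ((𝓕 (h2.toLp f) : H n) : E n → ℂ) volume :=
    (Lp.memLp (𝓕 (h2.toLp f) : H n)).locallyIntegrable (by norm_num)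
  have hloc2 : LocallyIntegrable (𝓕 f : E n → ℂ) volume :=
    (FT_continuous h1).locallyIntegrable
  refine ae_eq_of_integral_contDiff_smul_eq hloc1 hloc2 fun g hg hgc => ?_
  have hg1 : HasCompactSupport fun x => (g x : ℂ) := hgc.comp_left Complex.ofReal_zero
  have hg2 : ContDiff ℝ (⊤ : ℕ∞) fun x => (g x : ℂ) := Complex.ofRealCLM.contDiff.comp hg
  obtain ⟨φ, hφ⟩ : ∃ φ : SchwartzMap (E n) ℂ, ∀ x, φ x = (g x : ℂ) :=
    ⟨hg1.toSchwartzMap hg2, fun x => rfl⟩
  have h3 := td_fourier (h2.toLp f) φ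
  have h4 : ∫ x, ft φ x * (h2.toLp f) x = ∫ x, ft φ x * f x := by
    apply integral_congr_ae
    filter_upwards [h2.coeFn_toLp] with x hx
    rw [hx]
  rw [h4, FT_swap h1 φ] at h3
  simp only [hφ] at h3
  simp only [Complex.real_smul]
  exact h3

theorem ft_memLp {f : E n → ℂ} (h1 : Integrable f) (h2 : MemLp f 2 volume) :
    MemLp (𝓕 f) 2 (volume : Measure (E n)) := by
  exact (memLp_congr_ae (ft_ae h1 h2)).1 (Lp.memLp _)

theorem plancherel {f h : E n → ℂ} (f1 : Integrable f) (f2 : MemLp f 2 volume) (h1 : Integrable h)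
    (h2 : MemLp h 2 volume) : ∫ x, conj (f x) * h x = ∫ ξ, conj (𝓕 f ξ) * 𝓕 h ξ := by
  have hh := Lp.inner_fourier_eq (f2.toLp f) (h2.toLp h)
  rw [L2.inner_def, L2.inner_def] at hh
  have e1 : ∫ a, ⟪(f2.toLp f : E n → ℂ) a, (h2.toLp h : E n → ℂ) a⟫_ℂ =
      ∫ x, conj (f x) * h x := by
    apply integral_congr_ae
    filter_upwards [f2.coeFn_toLp, h2.coeFn_toLp] with x hx hx'
    rw [hx, hx', RCLike.inner_apply, mul_comm]
  have e2 : ∫ a, ⟪((𝓕 (f2.toLp f) : H n) : E n → ℂ) a, ((𝓕 (h2.toLp h) : H n) : E n → ℂ) a⟫_ℂ =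
      ∫ ξ, conj (𝓕 f ξ) * 𝓕 h ξ := by
    apply integral_congr_ae
    filter_upwards [ft_ae f1 f2, ft_ae h1 h2] with x hx hx'
    rw [hx, hx', RCLike.inner_apply, mul_comm]
  rw [← e1, ← e2]
  exact hh.symm

end Pool.Agent.helper12.AI
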