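import Pool.Agent.helper12.AI.Heat

/-!
# AI-HeatC: the heat semigroup on bounded integrable complex functions

PROOFS.  As in `AI-Heat` (joint measurability, Fubini, `g_semi`).  `fourier_Pc`: `Pc t u` is the convolution of `g t` and `u`,
`Real.fourier_mul_convolution_eq` (or `fourier_smul_convolution_eq`) and `fourier_g`.
-/

set_option autoImplicit false

open MeasureTheory FourierTransform
open scoped ENNReal InnerProductSpace ComplexConjugate

namespace Pool.Agent.helper12.AI

open Pool.Agent.helper12.RT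

variable {n : ℕ}

theorem Pc_integrable {t : ℝ} (ht : 0 < t) {u : E n → ℂ} (hu : BM u) (x : E n) :
    Integrable fun y => (g t (x - y) : ℂ) * u y := by
  obtain ⟨h1, C, hC⟩ := hu
  exact (g_sub_integrable ht x).ofReal.mul_bdd (c := C) h1.aestronglyMeasurable
    (Filter.Eventually.of_forall hC)

theorem HeatC_smul (t : ℝ) (u : E n → ℂ) (x : E n) : Pc t u x = ∫ y, g t (x - y) • u y := by
  unfold Pc
  congr 1

theorem Pc_norm_le {t : ℝ} (ht : 0 < t) {u : E n → ℂ} (hu : BM u) (x : E n) :
    ‖Pc t u x‖ ≤ P t (fun y => ‖u y‖) x := by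
  unfold Pc P
  refine (norm_integral_le_integral_norm _).trans (le_of_eq ?_)
  congr 1
  ext y
  rw [norm_mul, Complex.norm_real, Real.norm_of_nonneg (g_pos ht _).le]

theorem Pc_bm {t : ℝ} (ht : 0 < t) {u : E n → ℂ} (hu : BM u) : BM (Pc t u) := by
  obtain ⟨h1, C, hC⟩ := hu
  refine ⟨?_, C, fun x => ?_⟩
  · have hm : StronglyMeasurable (Function.uncurry fun x y : E n => (g t (x - y) : ℂ) * u y) := by
      apply StronglyMeasurable.mul
      · exact (Complex.continuous_ofReal.comp
          ((g_cont t).comp (continuous_fst.sub continuous_snd))).stronglyMeasurable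
      · exact (h1.comp measurable_snd).stronglyMeasurable
    exact hm.integral_prod_right.measurable
  · refine (Pc_norm_le ht ⟨h1, C, hC⟩ x).trans ?_
    apply P_le ht ⟨h1.norm, C, fun y => ?_⟩ hC
    rw [abs_norm]
    exact hC y

theorem Pc_int {t : ℝ} (ht : 0 < t) {u : E n → ℂ} (hu : BM u) (hi : Integrable u) :
    Integrable (Pc t u) := by
  have hn : BMr fun y => ‖u y‖ := by
    obtain ⟨h1, C, hC⟩ := hu
    refine ⟨h1.norm, C, fun y => ?_⟩
    rw [abs_norm]
    exact hC y
  refine (P_int ht hn hi.norm).1.mono' (Pc_bm ht hu).1.aestronglyMeasurable ?_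
  exact Filter.Eventually.of_forall fun x => Pc_norm_le ht hu x

theorem Pc_semi {a b : ℝ} (ha : 0 < a) (hb : 0 < b) {u : E n → ℂ} (hu : BM u) (x : E n) :
    Pc a (Pc b u) x = Pc (a + b) u x := by
  obtain ⟨h1, C, hC⟩ := hu
  have hint := Heat_prod_int (k := fun y => g a (x - y)) hb h1.stronglyMeasurable (M := C) hC
    (g_sub_integrable ha x)
  have e1 : Pc a (Pc b u) x = ∫ y, ∫ z, g a (x - y) • (g b (y - z) • u z) := by
    rw [HeatC_smul]
    congr 1
    ext y
    rw [HeatC_smul, integral_smul]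
  rw [e1, integral_integral_swap hint, HeatC_smul]
  congr 1
  ext z
  rw [← g_semi ha hb, ← integral_smul_const]
  congr 1
  ext y
  rw [smul_smul]

theorem fourier_Pc {t : ℝ} (ht : 0 < t) {u : E n → ℂ} (hu : BM u) (hi : Integrable u) (ξ : E n) :
    𝓕 (Pc t u) ξ = ((Real.exp (-(Real.pi * t * ‖ξ‖ ^ 2)) : ℝ) : ℂ) * 𝓕 u ξ := by
  have e : Pc t u = (MeasureTheory.convolution u (fun z : E n => (g t z : ℂ))
      (ContinuousLinearMap.mul ℂ ℂ) volume) := by
    ext x
    rw [MeasureTheory.convolution_def]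
    unfold Pc
    congr 1
    ext y
    rw [ContinuousLinearMap.mul_apply', mul_comm]
  have h1 := Real.fourier_mul_convolution_eq hi (g_integrable ht).ofReal ξ
  rw [e]
  rw [← fourier_g ht, mul_comm]
  exact h1

/-- a bounded integrable function has integrable square, also after multiplication by a bounded function -/
theorem sq_integrable {u : E n → ℂ} (hu : BM u) (hi : Integrable u) {p : E n → ℝ} (hp : BMr p) :
    Integrable fun x => ‖u x‖ ^ 2 * p x := by
  obtain ⟨h1, C, hC⟩ := hu
  obtain ⟨h2, D, hD⟩ := hp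
  have h3 : (fun x => ‖u x‖ ^ 2 * p x) = fun x => ‖u x‖ * (‖u x‖ * p x) := by
    ext x
    ring
  rw [h3]
  refine hi.norm.mul_bdd (c := C * D) (h1.norm.mul h2).aestronglyMeasurable
    (Filter.Eventually.of_forall fun x => ?_)
  rw [norm_mul, norm_norm]
  exact mul_le_mul (hC x) (hD x) (norm_nonneg _) ((norm_nonneg _).trans (hC x))

end Pool.Agent.helper12.AI
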