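import Pool.Agent.helper12.AI.KerB
import Pool.Agent.helper12.AI.HeatC

/-!
# AI-FormA: a mean zero kernel acts on the oscillation

PROOF.  `C` and `ψ` (for `h`) from `ker2 β`.  `A x = ∫ ψ (x - y) X y dy`, `X = Pc τ u`: convolution of integrable functions, so integrable with `𝓕 A = 𝓕 ψ · 𝓕 X`
(`Real.fourier_mul_convolution_eq`), `𝓕 X` from `fourier_Pc`, and the exponentials multiply (`h + τ`).  `A` is bounded (`X` is).  `∫ ψ = 𝓕 ψ 0 = 0` as `0 < ∑ β j`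
(`∏ 0^(β j) = 0`), so `A x = ∫ ψ (x - y) (X y - Pc (8 τ) u x) dy` and `‖A x‖ ≤ ∫ ‖ψ (x - y)‖ ‖X y - Pc (8 τ) u x‖ dy ≤ C (√h)⁻¹ ^ |β| ∫ g (2 h) (x - y) ‖..‖`,
`g (2 h) ≤ 7^n g (7 τ)` (`g_comp`), `(√h)⁻¹ ≤ (√τ)⁻¹`.
-/

set_option autoImplicit false

open MeasureTheory FourierTransform
open scoped ENNReal InnerProductSpace ComplexConjugate

namespace Pool.Agent.helper12.AI

open Pool.Agent.helper12.RT

variable {n : ℕ}

private theorem FormA_int {ψ : E n → ℂ} {β : Fin n → ℕ} (hβ : 0 < ∑ j, β j) {h : ℝ}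
    (hF : ∀ ξ : E n, 𝓕 ψ ξ = (∏ j, (ξ j : ℂ) ^ β j) *
      ((Real.exp (-(Real.pi * h * ‖ξ‖ ^ 2)) : ℝ) : ℂ)) : ∫ y, ψ y = 0 := by
  have h1 : 𝓕 ψ 0 = ∫ y, ψ y := by
    rw [Real.fourier_eq']
    simp
  have h2 : ∃ j, 0 < β j := by
    by_contra hcon
    push Not at hcon
    have h3 : ∑ j, β j = 0 := Finset.sum_eq_zero (fun j _ => Nat.le_zero.mp (hcon j))
    omega
  obtain ⟨j, hj⟩ := h2
  rw [← h1, hF 0]
  have h3 : ∏ j, (((0 : E n) j : ℝ) : ℂ) ^ β j = 0 := by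
    refine Finset.prod_eq_zero (Finset.mem_univ j) ?_
    simp [hj.ne']
  rw [h3, zero_mul]

private theorem FormA_bmr {X : E n → ℂ} (hX : BM X) (κ : ℂ) : BMr fun y => ‖X y - κ‖ := by
  obtain ⟨hm, M, hM⟩ := hX
  refine ⟨(hm.sub_const κ).norm, M + ‖κ‖, fun x => ?_⟩
  rw [abs_norm]
  exact (norm_sub_le _ _).trans (by have := hM x; linarith)

theorem formA (β : Fin n → ℕ) (hβ : 0 < ∑ j, β j) : ∃ C : ℝ, 0 ≤ C ∧ ∀ τ h : ℝ, 0 < τ → τ ≤ h →
    h ≤ 3 * τ → ∀ u : E n → ℂ, BM u → Integrable u → ∃ A : E n → ℂ, BM A ∧ Integrable A ∧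
      (∀ ξ, 𝓕 A ξ = (∏ j, (ξ j : ℂ) ^ β j) *
        ((Real.exp (-(Real.pi * (τ + h) * ‖ξ‖ ^ 2)) : ℝ) : ℂ) * 𝓕 u ξ) ∧
      ∀ x, ‖A x‖ ≤ C * (√τ)⁻¹ ^ (∑ j, β j) * osc τ u x := by
  obtain ⟨C, hC, hker⟩ := ker2 β
  refine ⟨C * 7 ^ n, by positivity, ?_⟩
  intro τ h hτ hτh hh3 u hu hui
  have hh : 0 < h := hτ.trans_le hτh
  obtain ⟨ψ, hψc, hψi, hψF, hψb⟩ := hker h hh
  have hXb : BM (Pc τ u) := Pc_bm hτ hu
  have hXi : Integrable (Pc τ u) := Pc_int hτ hu hui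
  have hψB : ∀ z, ‖ψ z‖ ≤ C * (√h)⁻¹ ^ (∑ j, β j) * (√(2 * h))⁻¹ ^ n := by
    intro z
    refine (hψb z).trans ?_
    exact mul_le_mul_of_nonneg_left (g_le (by positivity) z) (by positivity)
  set A : E n → ℂ := MeasureTheory.convolution (Pc τ u) ψ (ContinuousLinearMap.mul ℂ ℂ) volume
    with hA
  have hAx : ∀ x, A x = ∫ y, Pc τ u y * ψ (x - y) := fun x => rfl
  have hψx : ∀ x : E n, Integrable fun y => ψ (x - y) := fun x => hψi.comp_sub_left x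
  have hcont : Continuous A := by
    refine BddAbove.continuous_convolution_right_of_integrable _ ?_ hXi hψc
    refine ⟨C * (√h)⁻¹ ^ (∑ j, β j) * (√(2 * h))⁻¹ ^ n, ?_⟩
    rintro _ ⟨z, rfl⟩
    exact hψB z
  refine ⟨A, ⟨hcont.measurable, ?_⟩, ?_, ?_, ?_⟩
  · obtain ⟨-, M, hM⟩ := hXb
    refine ⟨M * ∫ y, ‖ψ y‖, fun x => ?_⟩
    have h1 : ∫ y, ‖ψ (x - y)‖ = ∫ y, ‖ψ y‖ :=
      integral_sub_left_eq_self (fun y => ‖ψ y‖) volume x
    rw [hAx, ← h1, ← integral_const_mul]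
    refine norm_integral_le_of_norm_le ((hψx x).norm.const_mul M)
      (Filter.Eventually.of_forall fun y => ?_)
    rw [norm_mul]
    exact mul_le_mul_of_nonneg_right (hM y) (norm_nonneg _)
  · exact hXi.integrable_convolution _ hψi
  · intro ξ
    rw [hA, Real.fourier_mul_convolution_eq hXi hψi, fourier_Pc hτ hu hui, hψF]
    have h1 : Real.exp (-(Real.pi * (τ + h) * ‖ξ‖ ^ 2)) =
        Real.exp (-(Real.pi * τ * ‖ξ‖ ^ 2)) * Real.exp (-(Real.pi * h * ‖ξ‖ ^ 2)) := by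
      rw [← Real.exp_add]
      congr 1
      ring
    rw [h1]
    push_cast
    ring
  · intro x
    set κ : ℂ := Pc (8 * τ) u x with hκ
    have h0 : ∫ y, κ * ψ (x - y) = 0 := by
      rw [integral_const_mul, integral_sub_left_eq_self ψ volume x, FormA_int hβ hψF, mul_zero]
    have hi1 : Integrable fun y => Pc τ u y * ψ (x - y) := by
      obtain ⟨hm, M, hM⟩ := hXb
      exact (hψx x).bdd_mul (c := M) hm.aestronglyMeasurable
        (Filter.Eventually.of_forall hM)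
    have h1 : A x = ∫ y, (Pc τ u y - κ) * ψ (x - y) := by
      rw [hAx, ← sub_zero (∫ y, Pc τ u y * ψ (x - y)), ← h0,
        ← integral_sub hi1 ((hψx x).const_mul κ)]
      refine integral_congr_ae (Filter.Eventually.of_forall fun y => ?_)
      simp only
      ring
    have hgi : Integrable fun y => g (7 * τ) (x - y) * ‖Pc τ u y - κ‖ :=
      P_integrable (by positivity) (FormA_bmr hXb κ) x
    have h2 : C * 7 ^ n * (√τ)⁻¹ ^ (∑ j, β j) * osc τ u x =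
        ∫ y, C * 7 ^ n * (√τ)⁻¹ ^ (∑ j, β j) * (g (7 * τ) (x - y) * ‖Pc τ u y - κ‖) := by
      rw [integral_const_mul]
      rfl
    rw [h1, h2]
    refine norm_integral_le_of_norm_le (hgi.const_mul _)
      (Filter.Eventually.of_forall fun y => ?_)
    rw [norm_mul]
    have h3 : (√h)⁻¹ ≤ (√τ)⁻¹ :=
      inv_anti₀ (Real.sqrt_pos.2 hτ) (Real.sqrt_le_sqrt hτh)
    have h4 : (√h)⁻¹ ^ (∑ j, β j) ≤ (√τ)⁻¹ ^ (∑ j, β j) :=
      pow_le_pow_left₀ (by positivity) h3 _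
    have h5 := g_comp hτ hτh hh3 (x - y)
    have h6 : 0 ≤ g (2 * h) (x - y) := (g_pos (by positivity) _).le
    have h7 : ‖ψ (x - y)‖ ≤ C * (√τ)⁻¹ ^ (∑ j, β j) * (7 ^ n * g (7 * τ) (x - y)) := by
      refine (hψb _).trans ?_
      refine mul_le_mul (mul_le_mul_of_nonneg_left h4 hC) h5 h6 (by positivity)
    calc ‖Pc τ u y - κ‖ * ‖ψ (x - y)‖
        ≤ ‖Pc τ u y - κ‖ * (C * (√τ)⁻¹ ^ (∑ j, β j) * (7 ^ n * g (7 * τ) (x - y))) :=
          mul_le_mul_of_nonneg_left h7 (norm_nonneg _)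
      _ = _ := by ring

end Pool.Agent.helper12.AI
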