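import Pool.Agent.helper12.AI.FormA
import Pool.Agent.helper12.AI.FT
import Pool.Agent.helper12.AI.EnD

/-!
# AI-FormB: the bilinear form at one time

PROOF.  `A` from `formA β₁` for `u`, `B` from `formA β₂` for `v`.  The integrand on the left is `conj (𝓕 A ξ) * 𝓕 B ξ` (the real factors multiply: `exp (- 2 π t |ξ|²)`, `ξ^β₁ ξ^β₂`), so by `plancherel`
the left side is `∫ conj A · B`, and `|∫ conj A · B| ≤ C₁ C₂ (√τ)⁻¹ ^ (|β₁| + |β₂|) ∫ osc τ u · osc τ v`.  With `S = P (8 τ) s`, `W = P (8 τ) w`, `S W ≤ A₂`: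
`osc τ u osc τ v = √(S W) (osc τ u / √S) (osc τ v / √W)`, Cauchy-Schwarz (`osc_integrable`).  `(√τ)⁻¹ ≤ 2 (√t)⁻¹`.
-/

set_option autoImplicit false

open MeasureTheory FourierTransform
open scoped ENNReal InnerProductSpace ComplexConjugate

namespace Pool.Agent.helper12.AI

open Pool.Agent.helper12.RT

variable {n : ℕ}

private theorem FormB_memLp {a : E n → ℂ} (h1 : BM a) (h2 : Integrable a) :
    MemLp a 2 (volume : Measure (E n)) := by
  rw [← memLp_norm_iff h1.1.aestronglyMeasurable,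
    memLp_two_iff_integrable_sq h1.1.norm.aestronglyMeasurable]
  have h := sq_integrable h1 h2 (BMr.const 1)
  simpa using h

private theorem FormB_osc_nonneg {τ : ℝ} (hτ : 0 < τ) (u : E n → ℂ) (x : E n) : 0 ≤ osc τ u x := by
  unfold osc
  exact integral_nonneg fun y => mul_nonneg (g_pos (by positivity) _).le (norm_nonneg _)

/-- the Cauchy-Schwarz inequality with square roots -/
private theorem FormB_cs {f k : E n → ℝ} (hf : ∀ x, 0 ≤ f x) (hk : ∀ x, 0 ≤ k x)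
    (hf2 : Integrable fun x => f x ^ 2) (hk2 : Integrable fun x => k x ^ 2) :
    Integrable (fun x => f x * k x) ∧
      ∫ x, f x * k x ≤ √(∫ x, f x ^ 2) * √(∫ x, k x ^ 2) := by
  have hfm : AEStronglyMeasurable f volume := by
    have h := Real.continuous_sqrt.comp_aestronglyMeasurable hf2.aestronglyMeasurable
    refine h.congr (Filter.Eventually.of_forall fun x => ?_)
    exact Real.sqrt_sq (hf x)
  have hkm : AEStronglyMeasurable k volume := by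
    have h := Real.continuous_sqrt.comp_aestronglyMeasurable hk2.aestronglyMeasurable
    refine h.congr (Filter.Eventually.of_forall fun x => ?_)
    exact Real.sqrt_sq (hk x)
  have hfL : MemLp f 2 volume := (memLp_two_iff_integrable_sq hfm).2 hf2
  have hkL : MemLp k 2 volume := (memLp_two_iff_integrable_sq hkm).2 hk2
  refine ⟨hfL.integrable_mul hkL, ?_⟩
  have h := integral_mul_le_Lp_mul_Lq_of_nonneg (μ := (volume : Measure (E n)))
    Real.HolderConjugate.two_two (f := f) (g := k) (Filter.Eventually.of_forall hf)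
    (Filter.Eventually.of_forall hk) (by simpa using hfL) (by simpa using hkL)
  rw [Real.sqrt_eq_rpow, Real.sqrt_eq_rpow]
  simpa using h

theorem formB (β₁ β₂ : Fin n → ℕ) (h₁ : 0 < ∑ j, β₁ j) (h₂ : 0 < ∑ j, β₂ j) :
    ∃ C : ℝ, 0 ≤ C ∧ ∀ (s w : E n → ℝ) (m c A : ℝ), BMr s → BMr w → 0 < m → (∀ x, m ≤ s x) →
      (∀ x, m ≤ w x) → HA c s → HA c w → (∀ t : ℝ, 0 < t → ∀ x, P t s x * P t w x ≤ A) →
      ∀ u v : E n → ℂ, BM u → Integrable u → BM v → Integrable v → ∀ τ t : ℝ, 0 < τ → 2 * τ ≤ t →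
      t ≤ 4 * τ →
      ‖∫ ξ, (∏ j, (ξ j : ℂ) ^ (β₁ j + β₂ j)) * ((Real.exp (-(2 * Real.pi * t * ‖ξ‖ ^ 2)) : ℝ) : ℂ) *
        (conj (𝓕 u ξ) * 𝓕 v ξ)‖ ≤ C * (√t)⁻¹ ^ (∑ j, β₁ j + ∑ j, β₂ j) * √A *
        (√(∫ x, osc τ u x ^ 2 / P (8 * τ) s x) * √(∫ x, osc τ v x ^ 2 / P (8 * τ) w x)) := by
  obtain ⟨C₁, hC₁, F₁⟩ := formA β₁ h₁
  obtain ⟨C₂, hC₂, F₂⟩ := formA β₂ h₂
  refine ⟨C₁ * C₂ * 2 ^ (∑ j, β₁ j + ∑ j, β₂ j), by positivity, ?_⟩
  intro s w m c A hs hw hm hsm hwm hHs hHw hA u v hu hui hv hvi τ t hτ h2 h4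
  have ht : 0 < t := by linarith
  obtain ⟨a, ha1, ha2, ha3, ha4⟩ := F₁ τ (t - τ) hτ (by linarith) (by linarith) u hu hui
  obtain ⟨b, hb1, hb2, hb3, hb4⟩ := F₂ τ (t - τ) hτ (by linarith) (by linarith) v hv hvi
  have e1 : ∀ ξ : E n, (∏ j, (ξ j : ℂ) ^ (β₁ j + β₂ j)) *
      ((Real.exp (-(2 * Real.pi * t * ‖ξ‖ ^ 2)) : ℝ) : ℂ) * (conj (𝓕 u ξ) * 𝓕 v ξ) =
      conj (𝓕 a ξ) * 𝓕 b ξ := by
    intro ξ
    rw [ha3, hb3]
    have hexp : Real.exp (-(2 * Real.pi * t * ‖ξ‖ ^ 2)) =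
        Real.exp (-(Real.pi * (τ + (t - τ)) * ‖ξ‖ ^ 2)) *
          Real.exp (-(Real.pi * (τ + (t - τ)) * ‖ξ‖ ^ 2)) := by
      rw [← Real.exp_add]
      congr 1
      ring
    have hprod : (∏ j, (ξ j : ℂ) ^ (β₁ j + β₂ j)) =
        (∏ j, (ξ j : ℂ) ^ β₁ j) * ∏ j, (ξ j : ℂ) ^ β₂ j := by
      rw [← Finset.prod_mul_distrib]
      exact Finset.prod_congr rfl fun j _ => pow_add _ _ _
    have hconj : conj (∏ j, (ξ j : ℂ) ^ β₁ j) = ∏ j, (ξ j : ℂ) ^ β₁ j := by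
      rw [map_prod]
      exact Finset.prod_congr rfl fun j _ => by rw [map_pow, Complex.conj_ofReal]
    rw [hexp, hprod, map_mul, map_mul, hconj, Complex.conj_ofReal, Complex.ofReal_mul]
    ring
  simp only [e1]
  rw [← plancherel ha2 (FormB_memLp ha1 ha2) hb2 (FormB_memLp hb1 hb2)]
  have h8 : (0 : ℝ) < 8 * τ := by positivity
  have hS : ∀ x, 0 < P (8 * τ) s x := fun x => hm.trans_le (P_ge h8 hs hsm x)
  have hW : ∀ x, 0 < P (8 * τ) w x := fun x => hm.trans_le (P_ge h8 hw hwm x)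
  have hsq1 : ∀ x, (osc τ u x / √(P (8 * τ) s x)) ^ 2 = osc τ u x ^ 2 / P (8 * τ) s x := by
    intro x
    rw [div_pow, Real.sq_sqrt (hS x).le]
  have hsq2 : ∀ x, (osc τ v x / √(P (8 * τ) w x)) ^ 2 = osc τ v x ^ 2 / P (8 * τ) w x := by
    intro x
    rw [div_pow, Real.sq_sqrt (hW x).le]
  have hi1 := osc_integrable hs hm hsm hHs hu hui hτ
  have hi2 := osc_integrable hw hm hwm hHw hv hvi hτ
  obtain ⟨hfk, hcs⟩ := FormB_cs (f := fun x => osc τ u x / √(P (8 * τ) s x))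
    (k := fun x => osc τ v x / √(P (8 * τ) w x))
    (fun x => div_nonneg (FormB_osc_nonneg hτ u x) (Real.sqrt_nonneg _))
    (fun x => div_nonneg (FormB_osc_nonneg hτ v x) (Real.sqrt_nonneg _))
    (by simpa only [hsq1] using hi1) (by simpa only [hsq2] using hi2)
  simp only [hsq1, hsq2] at hcs
  have hst : (√τ)⁻¹ ≤ 2 * (√t)⁻¹ := by
    have h5 : 0 < √τ := Real.sqrt_pos.2 hτ
    have h6 : 0 < √t := Real.sqrt_pos.2 ht
    have h7 : √t ≤ 2 * √τ := by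
      rw [Real.sqrt_le_left (by positivity), mul_pow, Real.sq_sqrt hτ.le]
      linarith
    rw [inv_le_iff_one_le_mul₀ h5]
    have h8 : (1 : ℝ) = (√t)⁻¹ * √t := (inv_mul_cancel₀ h6.ne').symm
    calc (1 : ℝ) = (√t)⁻¹ * √t := h8
      _ ≤ (√t)⁻¹ * (2 * √τ) := mul_le_mul_of_nonneg_left h7 (by positivity)
      _ = 2 * (√t)⁻¹ * √τ := by ring
  have hpt : ∀ x, ‖conj (a x) * b x‖ ≤
      C₁ * C₂ * (√τ)⁻¹ ^ (∑ j, β₁ j + ∑ j, β₂ j) * √A *
        (osc τ u x / √(P (8 * τ) s x) * (osc τ v x / √(P (8 * τ) w x))) := by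
    intro x
    have hSx : 0 < √(P (8 * τ) s x) := Real.sqrt_pos.2 (hS x)
    have hWx : 0 < √(P (8 * τ) w x) := Real.sqrt_pos.2 (hW x)
    have hSW : √(P (8 * τ) s x) * √(P (8 * τ) w x) ≤ √A := by
      rw [← Real.sqrt_mul (hS x).le]
      exact Real.sqrt_le_sqrt (hA _ h8 x)
    have ho1 := FormB_osc_nonneg hτ u x
    have ho2 := FormB_osc_nonneg hτ v x
    rw [norm_mul, RCLike.norm_conj]
    calc ‖a x‖ * ‖b x‖ ≤ (C₁ * (√τ)⁻¹ ^ (∑ j, β₁ j) * osc τ u x) *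
          (C₂ * (√τ)⁻¹ ^ (∑ j, β₂ j) * osc τ v x) :=
          mul_le_mul (ha4 x) (hb4 x) (norm_nonneg _) (by positivity)
      _ = C₁ * C₂ * (√τ)⁻¹ ^ (∑ j, β₁ j + ∑ j, β₂ j) *
          (√(P (8 * τ) s x) * √(P (8 * τ) w x)) *
          (osc τ u x / √(P (8 * τ) s x) * (osc τ v x / √(P (8 * τ) w x))) := by
          rw [pow_add]
          field_simp
      _ ≤ _ := by
          apply mul_le_mul_of_nonneg_right
          · exact mul_le_mul_of_nonneg_left hSW (by positivity)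
          · positivity
  calc ‖∫ x, conj (a x) * b x‖ ≤ ∫ x, C₁ * C₂ * (√τ)⁻¹ ^ (∑ j, β₁ j + ∑ j, β₂ j) * √A *
        (osc τ u x / √(P (8 * τ) s x) * (osc τ v x / √(P (8 * τ) w x))) :=
        norm_integral_le_of_norm_le (hfk.const_mul _) (Filter.Eventually.of_forall hpt)
    _ = C₁ * C₂ * (√τ)⁻¹ ^ (∑ j, β₁ j + ∑ j, β₂ j) * √A *
        ∫ x, osc τ u x / √(P (8 * τ) s x) * (osc τ v x / √(P (8 * τ) w x)) :=
        integral_const_mul _ _
    _ ≤ C₁ * C₂ * (2 * (√t)⁻¹) ^ (∑ j, β₁ j + ∑ j, β₂ j) * √A *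
        (√(∫ x, osc τ u x ^ 2 / P (8 * τ) s x) * √(∫ x, osc τ v x ^ 2 / P (8 * τ) w x)) := by
        apply mul_le_mul _ hcs _ (by positivity)
        · apply mul_le_mul_of_nonneg_right _ (Real.sqrt_nonneg _)
          apply mul_le_mul_of_nonneg_left _ (by positivity)
          exact pow_le_pow_left₀ (by positivity) hst _
        · exact integral_nonneg fun x => mul_nonneg
            (div_nonneg (FormB_osc_nonneg hτ u x) (Real.sqrt_nonneg _))
            (div_nonneg (FormB_osc_nonneg hτ v x) (Real.sqrt_nonneg _))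
    _ = C₁ * C₂ * 2 ^ (∑ j, β₁ j + ∑ j, β₂ j) * (√t)⁻¹ ^ (∑ j, β₁ j + ∑ j, β₂ j) * √A *
        (√(∫ x, osc τ u x ^ 2 / P (8 * τ) s x) * √(∫ x, osc τ v x ^ 2 / P (8 * τ) w x)) := by
        rw [mul_pow]
        ring

end Pool.Agent.helper12.AI
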