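import Pool.Agent.helper12.AI.Defs

/-!
# AI-Gauss: the Gaussian kernel

`g t z = (√t)⁻¹ ^ n exp (- π |z|² / t)`.  PROOFS.  `integral_g`: `integral_rexp_neg_mul_sq_norm` (with `b = π / t`; `finrank = n`).
`fourier_g`: `fourier_gaussian_innerProductSpace` (with `b = π / t`).  `g_semi`: complete the square,
`|x-y|²/a + |y-z|²/b = |x-z|²/(a+b) + ((a+b)/(a b)) |y - (b x + a z)/(a+b)|²`, translation and `integral_rexp_neg_mul_sq_norm` (the case `a = b = ...` by `simp`
does not work; do the general computation), and `√(a b / (a+b))^n (√a √b)⁻¹ ^ n = (√(a+b))⁻¹ ^ n`.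
`g_comp`: `2 h ≤ 6 τ ≤ 7 τ` in the exponential, `7 τ ≤ 49 (2 h)` in the power.
-/

set_option autoImplicit false

open MeasureTheory FourierTransform
open scoped ENNReal InnerProductSpace ComplexConjugate

namespace Pool.Agent.helper12.AI

open Pool.Agent.helper12.RT

variable {n : ℕ}

theorem g_pos {t : ℝ} (ht : 0 < t) (z : E n) : 0 < g t z := by
  have h1 : 0 < √t := Real.sqrt_pos.2 ht
  unfold g
  positivity

theorem g_cont (t : ℝ) : Continuous (g t : E n → ℝ) := by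
  unfold g
  fun_prop

theorem g_le {t : ℝ} (ht : 0 < t) (z : E n) : g t z ≤ (√t)⁻¹ ^ n := by
  unfold g
  have h1 : Real.exp (-(Real.pi * ‖z‖ ^ 2 / t)) ≤ 1 := by
    apply Real.exp_le_one_iff.2
    have : 0 ≤ Real.pi * ‖z‖ ^ 2 / t := by positivity
    linarith
  have h2 : 0 ≤ (√t)⁻¹ ^ n := by positivity
  calc (√t)⁻¹ ^ n * Real.exp (-(Real.pi * ‖z‖ ^ 2 / t)) ≤ (√t)⁻¹ ^ n * 1 :=
        mul_le_mul_of_nonneg_left h1 h2
    _ = (√t)⁻¹ ^ n := mul_one _

theorem g_neg (t : ℝ) (z : E n) : g t (-z) = g t z := by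
  unfold g
  rw [norm_neg]

theorem Gauss_exp_integral {t : ℝ} (ht : 0 < t) :
    ∫ z : E n, Real.exp (-(Real.pi * ‖z‖ ^ 2 / t)) = √t ^ n := by
  have hb : 0 < Real.pi / t := by positivity
  have h1 := GaussianFourier.integral_rexp_neg_mul_sq_norm (V := E n) hb
  have h2 : ∀ z : E n, Real.exp (-(Real.pi / t) * ‖z‖ ^ 2) =
      Real.exp (-(Real.pi * ‖z‖ ^ 2 / t)) := by
    intro z
    congr 1
    ring
  simp only [h2] at h1
  rw [h1, finrank_euclideanSpace_fin]
  have h3 : Real.pi / (Real.pi / t) = t := by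
    field_simp
  rw [h3, Real.sqrt_eq_rpow, ← Real.rpow_natCast, ← Real.rpow_mul ht.le]
  congr 1
  ring

theorem Gauss_integral {t : ℝ} (ht : 0 < t) : ∫ z : E n, g t z = 1 := by
  unfold g
  rw [integral_const_mul, Gauss_exp_integral ht, ← mul_pow,
    inv_mul_cancel₀ (Real.sqrt_pos.2 ht).ne', one_pow]

theorem g_integrable {t : ℝ} (ht : 0 < t) : Integrable (g t : E n → ℝ) := by
  by_contra hcon
  have h1 := integral_undef hcon
  rw [Gauss_integral ht] at h1
  exact one_ne_zero h1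

theorem integral_g {t : ℝ} (ht : 0 < t) : ∫ z : E n, g t z = 1 := by
  exact Gauss_integral ht

theorem g_sub_integrable {t : ℝ} (ht : 0 < t) (x : E n) : Integrable fun y => g t (x - y) := by
  exact (g_integrable ht).comp_sub_left x

theorem integral_g_sub {t : ℝ} (ht : 0 < t) (x : E n) : ∫ y, g t (x - y) = 1 := by
  rw [integral_sub_left_eq_self (g t) volume x, integral_g ht]

theorem Gauss_square {a b : ℝ} (ha : 0 < a) (hb : 0 < b) (x y z : E n) :
    ‖x - y‖ ^ 2 / a + ‖y - z‖ ^ 2 / b = ‖x - z‖ ^ 2 / (a + b) +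
      ‖y - (a + b)⁻¹ • (b • x + a • z)‖ ^ 2 / (a * b / (a + b)) := by
  have hab : 0 < a + b := by positivity
  have h1 : x - z = (x - y) + (y - z) := by abel
  have h2 : y - (a + b)⁻¹ • (b • x + a • z) = -((a + b)⁻¹ • (b • (x - y) - a • (y - z))) := by
    have h3 : y = (a + b)⁻¹ • ((a + b) • y) := by
      rw [smul_smul, inv_mul_cancel₀ hab.ne', one_smul]
    conv_lhs => rw [h3]
    rw [← smul_sub, ← smul_neg]
    congr 1
    rw [add_smul, smul_sub, smul_sub]
    abel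
  rw [h2, norm_neg, norm_smul, h1]
  generalize x - y = u
  generalize y - z = v
  rw [mul_pow, norm_add_sq_real, norm_sub_sq_real, norm_smul, norm_smul, inner_smul_left,
    inner_smul_right, Real.norm_of_nonneg ha.le, Real.norm_of_nonneg hb.le,
    Real.norm_of_nonneg (inv_pos.2 hab).le]
  simp only [conj_trivial]
  field_simp
  ring

theorem Gauss_prod {a b : ℝ} (ha : 0 < a) (hb : 0 < b) (x y z : E n) :
    g a (x - y) * g b (y - z) =
      g (a + b) (x - z) * g (a * b / (a + b)) (y - (a + b)⁻¹ • (b • x + a • z)) := by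
  have hab : 0 < a + b := by positivity
  have hsq : √a * √b = √(a + b) * √(a * b / (a + b)) := by
    rw [← Real.sqrt_mul ha.le, ← Real.sqrt_mul hab.le]
    congr 1
    field_simp
  have hpow : (√a)⁻¹ ^ n * (√b)⁻¹ ^ n = (√(a + b))⁻¹ ^ n * (√(a * b / (a + b)))⁻¹ ^ n := by
    rw [← mul_pow, ← mul_pow, ← mul_inv, ← mul_inv, hsq]
  have hexp : Real.exp (-(Real.pi * ‖x - y‖ ^ 2 / a)) * Real.exp (-(Real.pi * ‖y - z‖ ^ 2 / b)) =
      Real.exp (-(Real.pi * ‖x - z‖ ^ 2 / (a + b))) *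
        Real.exp (-(Real.pi * ‖y - (a + b)⁻¹ • (b • x + a • z)‖ ^ 2 / (a * b / (a + b)))) := by
    rw [← Real.exp_add, ← Real.exp_add]
    congr 1
    have h := Gauss_square ha hb x y z
    linear_combination (-Real.pi) * h
  unfold g
  rw [mul_mul_mul_comm, hpow, hexp, mul_mul_mul_comm]

theorem g_semi {a b : ℝ} (ha : 0 < a) (hb : 0 < b) (x z : E n) :
    ∫ y, g a (x - y) * g b (y - z) = g (a + b) (x - z) := by
  have hc : 0 < a * b / (a + b) := by positivity
  simp only [Gauss_prod ha hb]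
  rw [integral_const_mul,
    integral_sub_right_eq_self (g (a * b / (a + b))) ((a + b)⁻¹ • (b • x + a • z)),
    integral_g hc, mul_one]

theorem fourier_g {t : ℝ} (ht : 0 < t) (ξ : E n) :
    𝓕 (fun z : E n => (g t z : ℂ)) ξ = ((Real.exp (-(Real.pi * t * ‖ξ‖ ^ 2)) : ℝ) : ℂ) := by
  have hb : 0 < ((Real.pi / t : ℝ) : ℂ).re := by
    rw [Complex.ofReal_re]
    positivity
  have h1 := fourier_gaussian_innerProductSpace (V := E n) hb ξ
  have h2 : (fun z : E n => (g t z : ℂ)) = fun z : E n =>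
      (((√t)⁻¹ ^ n : ℝ) : ℂ) * Complex.exp (-((Real.pi / t : ℝ) : ℂ) * (‖z‖ : ℂ) ^ 2) := by
    funext z
    unfold g
    rw [Complex.ofReal_mul, Complex.ofReal_exp]
    congr 2
    push_cast
    ring
  have h3 : 𝓕 (fun z : E n => (g t z : ℂ)) ξ =
      (((√t)⁻¹ ^ n : ℝ) : ℂ) *
        𝓕 (fun z : E n => Complex.exp (-((Real.pi / t : ℝ) : ℂ) * (‖z‖ : ℂ) ^ 2)) ξ := by
    rw [h2, Real.fourier_eq', Real.fourier_eq', ← integral_const_mul]
    refine integral_congr_ae (Filter.Eventually.of_forall fun z => ?_)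
    simp only [smul_eq_mul]
    ring
  rw [h3, h1, finrank_euclideanSpace_fin]
  have h4 : (Real.pi : ℂ) / ((Real.pi / t : ℝ) : ℂ) = (t : ℂ) := by
    push_cast
    have : (Real.pi : ℂ) ≠ 0 := Complex.ofReal_ne_zero.2 Real.pi_ne_zero
    have : (t : ℂ) ≠ 0 := Complex.ofReal_ne_zero.2 ht.ne'
    field_simp
  have h5 : (t : ℂ) ^ ((n : ℂ) / 2) = ((√t ^ n : ℝ) : ℂ) := by
    rw [Real.sqrt_eq_rpow, ← Real.rpow_natCast, ← Real.rpow_mul ht.le,
      Complex.ofReal_cpow ht.le]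
    congr 1
    push_cast
    ring
  have h6 : Complex.exp (-(Real.pi : ℂ) ^ 2 * (‖ξ‖ : ℂ) ^ 2 / ((Real.pi / t : ℝ) : ℂ)) =
      ((Real.exp (-(Real.pi * t * ‖ξ‖ ^ 2)) : ℝ) : ℂ) := by
    rw [Complex.ofReal_exp]
    congr 1
    push_cast
    have : (Real.pi : ℂ) ≠ 0 := Complex.ofReal_ne_zero.2 Real.pi_ne_zero
    have : (t : ℂ) ≠ 0 := Complex.ofReal_ne_zero.2 ht.ne'
    field_simp
  rw [h4, h5, h6, ← mul_assoc, ← Complex.ofReal_mul, ← mul_pow,
    inv_mul_cancel₀ (Real.sqrt_pos.2 ht).ne', one_pow, Complex.ofReal_one, one_mul]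

theorem g_comp {τ h : ℝ} (hτ : 0 < τ) (h1 : τ ≤ h) (h2 : h ≤ 3 * τ) (z : E n) :
    g (2 * h) z ≤ 7 ^ n * g (7 * τ) z := by
  have hh : 0 < h := hτ.trans_le h1
  have hs1 : 0 < √(2 * h) := Real.sqrt_pos.2 (by positivity)
  have hs2 : 0 < √(7 * τ) := Real.sqrt_pos.2 (by positivity)
  have hpow : (√(2 * h))⁻¹ ^ n ≤ 7 ^ n * (√(7 * τ))⁻¹ ^ n := by
    rw [← mul_pow]
    apply pow_le_pow_left₀ (by positivity)
    rw [inv_le_iff_one_le_mul₀ hs1, mul_assoc, inv_mul_eq_div, ← mul_div_assoc, le_div_iff₀ hs2,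
      one_mul]
    apply Real.sqrt_le_iff.2
    constructor
    · positivity
    · rw [mul_pow, Real.sq_sqrt (by positivity)]
      linarith
  have hexp : Real.exp (-(Real.pi * ‖z‖ ^ 2 / (2 * h))) ≤
      Real.exp (-(Real.pi * ‖z‖ ^ 2 / (7 * τ))) := by
    apply Real.exp_le_exp.2
    apply neg_le_neg
    apply div_le_div_of_nonneg_left (by positivity) (by positivity)
    linarith
  unfold g
  rw [← mul_assoc]
  exact mul_le_mul hpow hexp (Real.exp_pos _).le (by positivity)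

end Pool.Agent.helper12.AI
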