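import Pool.Agent.helper12.AI.Cube

/-!
# AI-GoodA: consequences of `Good`

PROOFS.  Let `κ, κ'` be numbers for `cube y r'` and `cube x r`.  `kappa_close`: for `cube y r' ⊆ cube x r` with `r ≤ A r'`: on `cube y r'` `|κ - κ'| ≤ |log s - κ| + |log s - κ'|`; integrate over `cube y r'`:
`|κ - κ'| |Q'| ≤ K |Q'| + K |Q| ≤ K (1 + A^n) |Q'|`.  `kappa_le`: `κ ≤ log s + |log s - κ|` on `Q`, and `log s ≤ log a + s / a - 1` with `a = ⟨s⟩_Q` (finite and positive): integrate, so
`κ ≤ log ⟨s⟩_Q + K`.  `small_set`: Chebyshev (`meas_ge_le_lintegral_div` or `mul_meas_ge_le_lintegral`).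
-/

set_option autoImplicit false

open MeasureTheory FourierTransform
open scoped ENNReal InnerProductSpace ComplexConjugate

namespace Pool.Agent.helper12.AI

open Pool.Agent.helper12.RT

variable {n : ℕ}

private theorem GoodA_meas {K : ℝ} {s : E n → ℝ} (hs : Good K s) (κ : ℝ) :
    Measurable fun z => ENNReal.ofReal |Real.log (s z) - κ| :=
  ENNReal.measurable_ofReal.comp
    (((Real.measurable_log.comp hs.meas).sub_const κ).norm)

theorem kappa_close {K : ℝ} (hK : 0 ≤ K) {s : E n → ℝ} (hs : Good K s) {x y : E n} {r r' A : ℝ}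
    (hr' : 0 < r') (hA : r ≤ A * r') (hsub : cube y r' ⊆ cube x r) {κ κ' : ℝ}
    (h : ∫⁻ z in cube x r, ENNReal.ofReal |Real.log (s z) - κ| ≤
      ENNReal.ofReal K * volume (cube x r))
    (h' : ∫⁻ z in cube y r', ENNReal.ofReal |Real.log (s z) - κ'| ≤
      ENNReal.ofReal K * volume (cube y r')) : |κ - κ'| ≤ K * (1 + A ^ n) := by
  have hV' : volume (cube y r') = ENNReal.ofReal ((2 * r') ^ n) := cube_vol y hr'.le
  have hV : volume (cube x r) ≤ ENNReal.ofReal (A ^ n) * volume (cube y r') := by
    rcases Nat.eq_zero_or_pos n with hn | hn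
    · subst hn
      have e : cube x r ⊆ cube y r' := fun z _ i => i.elim0
      rw [pow_zero, ENNReal.ofReal_one, one_mul]
      exact measure_mono e
    · have hy : y ∈ cube x r := hsub (fun i => by rw [sub_self, abs_zero]; exact hr'.le)
      have hr : 0 ≤ r := (abs_nonneg _).trans (hy ⟨0, hn⟩)
      have hA0 : 0 ≤ A := by
        by_contra hcon
        rw [not_le] at hcon
        have := mul_neg_of_neg_of_pos hcon hr'
        linarith
      rw [cube_vol x hr, hV', ← ENNReal.ofReal_mul (by positivity), ← mul_pow]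
      apply ENNReal.ofReal_le_ofReal
      apply pow_le_pow_left₀ (by positivity)
      linarith
  have hA1 : 0 ≤ A ^ n := by
    by_contra hcon
    rw [not_le] at hcon
    have h0 : ENNReal.ofReal (A ^ n) = 0 := ENNReal.ofReal_of_nonpos hcon.le
    rw [h0, zero_mul] at hV
    have h1 : volume (cube y r') ≤ 0 := (measure_mono hsub).trans hV
    exact absurd h1 (not_le.2 (cube_vol_pos y hr'))
  have h1 : ∫⁻ _ in cube y r', ENNReal.ofReal |κ - κ'| ≤
      (∫⁻ z in cube x r, ENNReal.ofReal |Real.log (s z) - κ|) +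
        ∫⁻ z in cube y r', ENNReal.ofReal |Real.log (s z) - κ'| := by
    calc ∫⁻ _ in cube y r', ENNReal.ofReal |κ - κ'|
        ≤ ∫⁻ z in cube y r', (ENNReal.ofReal |Real.log (s z) - κ| +
          ENNReal.ofReal |Real.log (s z) - κ'|) := by
          apply lintegral_mono
          intro z
          change ENNReal.ofReal |κ - κ'| ≤
            ENNReal.ofReal |Real.log (s z) - κ| + ENNReal.ofReal |Real.log (s z) - κ'|
          rw [← ENNReal.ofReal_add (abs_nonneg _) (abs_nonneg _)]
          apply ENNReal.ofReal_le_ofReal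
          have e : κ - κ' = -(Real.log (s z) - κ) + (Real.log (s z) - κ') := by ring
          rw [e]
          refine (abs_add_le _ _).trans ?_
          rw [abs_neg]
      _ = (∫⁻ z in cube y r', ENNReal.ofReal |Real.log (s z) - κ|) +
          ∫⁻ z in cube y r', ENNReal.ofReal |Real.log (s z) - κ'| :=
          lintegral_add_left (GoodA_meas hs κ) _
      _ ≤ _ := by
          gcongr
  rw [setLIntegral_const] at h1
  have h2 : ENNReal.ofReal |κ - κ'| * volume (cube y r') ≤
      ENNReal.ofReal (K * (1 + A ^ n)) * volume (cube y r') := by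
    calc ENNReal.ofReal |κ - κ'| * volume (cube y r') ≤ _ := h1
      _ ≤ ENNReal.ofReal K * (ENNReal.ofReal (A ^ n) * volume (cube y r')) +
          ENNReal.ofReal K * volume (cube y r') :=
          add_le_add (h.trans (mul_le_mul_right hV _)) h'
      _ = ENNReal.ofReal (K * (1 + A ^ n)) * volume (cube y r') := by
          rw [ENNReal.ofReal_mul hK, ENNReal.ofReal_add zero_le_one hA1, ENNReal.ofReal_one]
          ring
  rw [ENNReal.mul_le_mul_iff_left (cube_vol_pos y hr').ne' (cube_vol_ne_top y r')] at h2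
  exact (ENNReal.ofReal_le_ofReal_iff (by positivity)).1 h2

theorem good_fin {K : ℝ} {s : E n → ℝ} (hs : Good K s) (x : E n) (r : ℝ) :
    ∫⁻ y in cube x r, ENNReal.ofReal (s y) ≠ ∞ := by
  obtain ⟨κ, _, h2⟩ := hs.osc x (max r 1) (lt_of_lt_of_le one_pos (le_max_right _ _))
  have hsub : cube x r ⊆ cube x (max r 1) := fun z hz i => (hz i).trans (le_max_left _ _)
  have h3 : ∫⁻ y in cube x r, ENNReal.ofReal (s y) ≤
      ∫⁻ y in cube x (max r 1), ENNReal.ofReal (s y) := lintegral_mono_set hsub
  exact ((h3.trans h2).trans_lt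
    (ENNReal.mul_lt_top ENNReal.ofReal_lt_top (cube_vol_ne_top x _).lt_top)).ne

theorem kappa_le {K : ℝ} (hK : 0 ≤ K) {s : E n → ℝ} (hs : Good K s) {x : E n} {r : ℝ} (hr : 0 < r)
    {κ : ℝ} (h : ∫⁻ z in cube x r, ENNReal.ofReal |Real.log (s z) - κ| ≤
      ENNReal.ofReal K * volume (cube x r)) :
    ENNReal.ofReal (Real.exp κ) * volume (cube x r) ≤
      ENNReal.ofReal (Real.exp K) * ∫⁻ z in cube x r, ENNReal.ofReal (s z) := by
  obtain ⟨V, hV⟩ : ∃ V, V = volume (cube x r) := ⟨_, rfl⟩
  obtain ⟨I, hI⟩ : ∃ I, I = ∫⁻ z in cube x r, ENNReal.ofReal (s z) := ⟨_, rfl⟩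
  have hV0 : V ≠ 0 := hV ▸ (cube_vol_pos x hr).ne'
  have hVt : V ≠ ∞ := hV ▸ cube_vol_ne_top x r
  have hIt : I ≠ ∞ := hI ▸ good_fin hs x r
  have hsm : Measurable fun z => ENNReal.ofReal (s z) := ENNReal.measurable_ofReal.comp hs.meas
  have hI0 : I ≠ 0 := by
    intro h0
    rw [hI, lintegral_eq_zero_iff hsm] at h0
    have h1 : (volume.restrict (cube x r)) Set.univ = 0 := by
      rw [← Set.ofPred_true (α := E n)]
      refine measure_mono_null (t := {z | ¬ ENNReal.ofReal (s z) = (0 : E n → ℝ≥0∞) z}) ?_ h0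
      intro z _
      change ¬ ENNReal.ofReal (s z) = 0
      rw [ENNReal.ofReal_eq_zero, not_le]
      exact hs.pos z
    rw [Measure.restrict_apply_univ] at h1
    exact hV0 (hV.trans h1)
  have hVp : 0 < V.toReal := ENNReal.toReal_pos hV0 hVt
  have hIp : 0 < I.toReal := ENNReal.toReal_pos hI0 hIt
  have ha : 0 < I.toReal / V.toReal := div_pos hIp hVp
  obtain ⟨a, ha1⟩ : ∃ a, a = I.toReal / V.toReal := ⟨_, rfl⟩
  rw [← ha1] at ha
  have hmain : κ ≤ Real.log a + K := by
    rcases le_or_gt κ (Real.log a) with h1 | h1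
    · linarith
    · have h2 : ENNReal.ofReal (κ - Real.log a + 1) * V ≤ V + ENNReal.ofReal K * V := by
        calc ENNReal.ofReal (κ - Real.log a + 1) * V
            = ∫⁻ _ in cube x r, ENNReal.ofReal (κ - Real.log a + 1) := by
              rw [setLIntegral_const, hV]
          _ ≤ ∫⁻ z in cube x r, (ENNReal.ofReal a⁻¹ * ENNReal.ofReal (s z) +
              ENNReal.ofReal |Real.log (s z) - κ|) := by
              apply lintegral_mono
              intro z
              have hsz := hs.pos z
              change ENNReal.ofReal (κ - Real.log a + 1) ≤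
                ENNReal.ofReal a⁻¹ * ENNReal.ofReal (s z) + ENNReal.ofReal |Real.log (s z) - κ|
              rw [← ENNReal.ofReal_mul (inv_nonneg.2 ha.le),
                ← ENNReal.ofReal_add (mul_nonneg (inv_nonneg.2 ha.le) hsz.le) (abs_nonneg _)]
              apply ENNReal.ofReal_le_ofReal
              have h3 := Real.add_one_le_exp (Real.log (s z) - Real.log a)
              rw [Real.exp_sub, Real.exp_log hsz, Real.exp_log ha] at h3
              have h4 := neg_abs_le (Real.log (s z) - κ)
              have h5 : a⁻¹ * s z = s z / a := by ring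
              rw [h5]
              linarith
          _ = ENNReal.ofReal a⁻¹ * I +
              ∫⁻ z in cube x r, ENNReal.ofReal |Real.log (s z) - κ| := by
              rw [lintegral_add_left (hsm.const_mul _), lintegral_const_mul _ hsm, hI]
          _ ≤ V + ENNReal.ofReal K * V := by
              apply add_le_add
              · rw [← ENNReal.ofReal_toReal hIt, ← ENNReal.ofReal_mul (inv_nonneg.2 ha.le)]
                have e : a⁻¹ * I.toReal = V.toReal := by
                  rw [ha1]
                  field_simp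
                rw [e, ENNReal.ofReal_toReal hVt]
              · rw [hV]
                exact h
      have h3 : V + ENNReal.ofReal K * V = ENNReal.ofReal (1 + K) * V := by
        rw [ENNReal.ofReal_add zero_le_one hK, ENNReal.ofReal_one]
        ring
      rw [h3, ENNReal.mul_le_mul_iff_left hV0 hVt,
        ENNReal.ofReal_le_ofReal_iff (by positivity)] at h2
      linarith
  have h6 : Real.exp κ ≤ a * Real.exp K := by
    calc Real.exp κ ≤ Real.exp (Real.log a + K) := Real.exp_le_exp.2 hmain
      _ = a * Real.exp K := by rw [Real.exp_add, Real.exp_log ha]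
  rw [← hV, ← hI]
  calc ENNReal.ofReal (Real.exp κ) * V ≤ ENNReal.ofReal (a * Real.exp K) * V :=
        mul_le_mul_left (ENNReal.ofReal_le_ofReal h6) _
    _ = ENNReal.ofReal (Real.exp K) * I := by
        rw [← ENNReal.ofReal_toReal hVt, ← ENNReal.ofReal_mul (by positivity),
          ← ENNReal.ofReal_toReal hIt, ← ENNReal.ofReal_mul (by positivity)]
        congr 1
        rw [ha1]
        field_simp

theorem small_set {K : ℝ} (hK : 0 ≤ K) {s : E n → ℝ} (hs : Good K s) {x : E n} {r : ℝ} (hr : 0 < r)
    {κ ε : ℝ} (hε : 0 < ε) (h : ∫⁻ z in cube x r, ENNReal.ofReal |Real.log (s z) - κ| ≤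
      ENNReal.ofReal K * volume (cube x r)) :
    volume {z ∈ cube x r | K / ε < |Real.log (s z) - κ|} ≤ ENNReal.ofReal ε * volume (cube x r) := by
  have hm := GoodA_meas hs κ
  have hmS : MeasurableSet {z : E n | K / ε < |Real.log (s z) - κ|} :=
    measurableSet_lt measurable_const ((Real.measurable_log.comp hs.meas).sub_const κ).norm
  have e0 : {z ∈ cube x r | K / ε < |Real.log (s z) - κ|} =
      {z : E n | K / ε < |Real.log (s z) - κ|} ∩ cube x r := by
    ext z
    exact and_comm
  rw [e0, ← Measure.restrict_apply hmS]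
  rcases hK.eq_or_lt with hK0 | hK0
  · rw [← hK0] at h ⊢
    rw [ENNReal.ofReal_zero, zero_mul, nonpos_iff_eq_zero, lintegral_eq_zero_iff hm] at h
    have h2 : (volume.restrict (cube x r)) {z : E n | 0 / ε < |Real.log (s z) - κ|} = 0 := by
      refine measure_mono_null
        (t := {z | ¬ ENNReal.ofReal |Real.log (s z) - κ| = (0 : E n → ℝ≥0∞) z}) ?_ h
      intro z hz
      have hz' : 0 / ε < |Real.log (s z) - κ| := hz
      rw [zero_div] at hz'
      change ¬ ENNReal.ofReal |Real.log (s z) - κ| = 0
      rw [ENNReal.ofReal_eq_zero, not_le]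
      exact hz'
    rw [h2]
    exact zero_le
  · have hKe : 0 < K / ε := div_pos hK0 hε
    have h2 : ENNReal.ofReal (K / ε) *
        (volume.restrict (cube x r)) {z : E n | K / ε < |Real.log (s z) - κ|} ≤
        ENNReal.ofReal K * volume (cube x r) := by
      refine le_trans ?_ ((mul_meas_ge_le_lintegral hm (ENNReal.ofReal (K / ε))).trans h)
      apply mul_le_mul_right
      apply measure_mono
      intro z hz
      have hz' : K / ε < |Real.log (s z) - κ| := hz
      exact ENNReal.ofReal_le_ofReal hz'.le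
    have e : ENNReal.ofReal K = ENNReal.ofReal (K / ε) * ENNReal.ofReal ε := by
      rw [← ENNReal.ofReal_mul hKe.le, div_mul_cancel₀ _ hε.ne']
    rw [e, mul_assoc, ENNReal.mul_le_mul_iff_right (ENNReal.ofReal_pos.2 hKe).ne'
      ENNReal.ofReal_ne_top] at h2
    exact h2

end Pool.Agent.helper12.AI
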