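import Pool.Agent.helper12.AI.Defs

/-!
# AI-KerA: one-dimensional kernels

PROOF.  `h = 1`: let `f x = exp (- π x²)` (complex valued), `𝓕 f = f` (`fourier_gaussian_pi`).  `𝓕 (iteratedDeriv k f) ξ = (2 π i ξ)^k f ξ`
(`Real.fourier_iteratedDeriv`), so `ψ = (2 π i)^(-k) iteratedDeriv k f` has the transform `ξ^k exp (- π ξ²)`.  By induction `iteratedDeriv k f = p_k f` with a polynomial
`p_k`, and `|p_k x| exp (- π x²) ≤ C exp (- π x² / 2)` (a polynomial times a Gaussian is bounded).  (One can also use `Polynomial.deriv_gaussian_eq_hermite_mul_gaussian`.)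
General `h`: `ψ_h x = (√h)⁻¹ ^ (k + 1) ψ (x / √h)`; scaling of the Fourier transform (`Real.fourier_comp_smul`-type lemma or `integral_comp_div`).
-/

set_option autoImplicit false

open MeasureTheory FourierTransform
open scoped ENNReal InnerProductSpace ComplexConjugate

namespace Pool.Agent.helper12.AI

open Pool.Agent.helper12.RT

variable {n : ℕ}

open Polynomial in
private theorem kerA_poly_bound (P : ℂ[X]) : ∃ C : ℝ, 0 ≤ C ∧ ∀ x : ℝ,
    ‖P.eval (x : ℂ)‖ * Real.exp (-(Real.pi * x ^ 2 / 2)) ≤ C := by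
  induction P using Polynomial.induction_on' with
  | add p q hp hq =>
    obtain ⟨C, hC0, hC⟩ := hp
    obtain ⟨D, hD0, hD⟩ := hq
    refine ⟨C + D, add_nonneg hC0 hD0, fun x => ?_⟩
    rw [Polynomial.eval_add]
    have h1 := norm_add_le (p.eval (x : ℂ)) (q.eval (x : ℂ))
    have h2 := Real.exp_pos (-(Real.pi * x ^ 2 / 2))
    nlinarith [hC x, hD x]
  | monomial k a =>
    refine ⟨‖a‖ * (k.factorial * Real.exp 1), by positivity, fun x => ?_⟩
    rw [Polynomial.eval_monomial, norm_mul, norm_pow, Complex.norm_real, Real.norm_eq_abs, mul_assoc]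
    apply mul_le_mul_of_nonneg_left _ (norm_nonneg a)
    have h1 := Real.pow_div_factorial_le_exp |x| (abs_nonneg x) k
    have h0 : (0 : ℝ) < k.factorial := by exact_mod_cast k.factorial_pos
    rw [div_le_iff₀ h0] at h1
    have h2 := Real.exp_pos (-(Real.pi * x ^ 2 / 2))
    have h3 : Real.exp |x| * Real.exp (-(Real.pi * x ^ 2 / 2)) ≤ Real.exp 1 := by
      rw [← Real.exp_add]
      apply Real.exp_le_exp.2
      have h4 := Real.pi_gt_three
      nlinarith [sq_nonneg (|x| - 1), sq_abs x, sq_nonneg x]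
    calc |x| ^ k * Real.exp (-(Real.pi * x ^ 2 / 2))
        ≤ (Real.exp |x| * k.factorial) * Real.exp (-(Real.pi * x ^ 2 / 2)) :=
          mul_le_mul_of_nonneg_right h1 h2.le
      _ = k.factorial * (Real.exp |x| * Real.exp (-(Real.pi * x ^ 2 / 2))) := by ring
      _ ≤ k.factorial * Real.exp 1 := mul_le_mul_of_nonneg_left h3 h0.le

/-- a polynomial times the Gaussian -/
private noncomputable def kerAf (P : Polynomial ℂ) (x : ℝ) : ℂ :=
  P.eval (x : ℂ) * Complex.exp (-Real.pi * (x : ℂ) ^ 2)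

private theorem kerAf_cont (P : Polynomial ℂ) : Continuous (kerAf P) := by
  unfold kerAf
  have h1 : Continuous fun x : ℝ => P.eval (x : ℂ) := P.continuous.comp Complex.continuous_ofReal
  have h2 : Continuous fun x : ℝ => Complex.exp (-Real.pi * (x : ℂ) ^ 2) := by fun_prop
  exact h1.mul h2

private theorem kerA_norm_exp (x : ℝ) :
    ‖Complex.exp (-Real.pi * (x : ℂ) ^ 2)‖ = Real.exp (-(Real.pi * x ^ 2)) := by
  rw [Complex.norm_exp]
  congr 1
  have h : (-Real.pi * (x : ℂ) ^ 2 : ℂ) = ((-(Real.pi * x ^ 2) : ℝ) : ℂ) := by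
    push_cast
    ring
  rw [h, Complex.ofReal_re]

private theorem kerAf_bound (P : Polynomial ℂ) : ∃ C : ℝ, 0 ≤ C ∧ ∀ x : ℝ,
    ‖kerAf P x‖ ≤ C * Real.exp (-(Real.pi * x ^ 2 / 2)) := by
  obtain ⟨C, hC0, hC⟩ := kerA_poly_bound P
  refine ⟨C, hC0, fun x => ?_⟩
  unfold kerAf
  rw [norm_mul, kerA_norm_exp]
  have h1 : Real.exp (-(Real.pi * x ^ 2)) =
      Real.exp (-(Real.pi * x ^ 2 / 2)) * Real.exp (-(Real.pi * x ^ 2 / 2)) := by
    rw [← Real.exp_add]
    congr 1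
    ring
  rw [h1, ← mul_assoc]
  exact mul_le_mul_of_nonneg_right (hC x) (Real.exp_pos _).le

private theorem kerAf_int (P : Polynomial ℂ) : Integrable (kerAf P) := by
  obtain ⟨C, _, hC⟩ := kerAf_bound P
  have h1 : Integrable fun x : ℝ => C * Real.exp (-(Real.pi / 2) * x ^ 2) :=
    (integrable_exp_neg_mul_sq (by positivity)).const_mul C
  refine h1.mono' (kerAf_cont P).aestronglyMeasurable (Filter.Eventually.of_forall fun x => ?_)
  have h2 := hC x
  have h3 : -(Real.pi / 2) * x ^ 2 = -(Real.pi * x ^ 2 / 2) := by ring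
  rw [h3]
  exact h2

private theorem kerAf_deriv (P : Polynomial ℂ) (x : ℝ) :
    HasDerivAt (kerAf P)
      (kerAf (Polynomial.derivative P - Polynomial.C (2 * (Real.pi : ℂ)) * Polynomial.X * P) x)
      x := by
  have h1 : HasDerivAt (fun z : ℂ => P.eval z) ((Polynomial.derivative P).eval (x : ℂ)) (x : ℂ) :=
    P.hasDerivAt (x : ℂ)
  have h2 : HasDerivAt (fun z : ℂ => Complex.exp (-Real.pi * z ^ 2))
      (Complex.exp (-Real.pi * (x : ℂ) ^ 2) * (-Real.pi * (2 * (x : ℂ)))) (x : ℂ) := by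
    have h3 : HasDerivAt (fun z : ℂ => -Real.pi * z ^ 2) (-Real.pi * (2 * (x : ℂ))) (x : ℂ) := by
      have h4 := (hasDerivAt_pow 2 (x : ℂ)).const_mul (-Real.pi : ℂ)
      simpa using h4
    exact h3.cexp
  have h5 := (h1.mul h2).comp_ofReal
  unfold kerAf
  refine h5.congr_deriv ?_
  simp only [Polynomial.eval_sub, Polynomial.eval_mul, Polynomial.eval_C, Polynomial.eval_X]
  ring

private theorem kerAf_fourier (k : ℕ) : ∃ P : Polynomial ℂ, ∀ ξ : ℝ,
    𝓕 (kerAf P) ξ = (ξ : ℂ) ^ k * Complex.exp (-Real.pi * (ξ : ℂ) ^ 2) := by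
  induction k with
  | zero =>
    refine ⟨1, fun ξ => ?_⟩
    have h1 := congrFun (fourier_gaussian_pi (b := 1) (by simp)) ξ
    have h2 : kerAf 1 = fun x : ℝ => Complex.exp (-Real.pi * 1 * (x : ℂ) ^ 2) := by
      funext x
      simp [kerAf]
    rw [h2, h1]
    simp
  | succ k ih =>
    obtain ⟨P, hP⟩ := ih
    set Q := Polynomial.derivative P - Polynomial.C (2 * (Real.pi : ℂ)) * Polynomial.X * P with hQ
    have hd : deriv (kerAf P) = kerAf Q := by
      funext x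
      exact (kerAf_deriv P x).deriv
    have h1 := Real.fourier_deriv (kerAf_int P) (fun x => (kerAf_deriv P x).differentiableAt)
      (by rw [hd]; exact kerAf_int Q)
    rw [hd] at h1
    have hc : (2 * Real.pi * Complex.I : ℂ) ≠ 0 := by
      simp [Real.pi_ne_zero]
    refine ⟨Polynomial.C (2 * Real.pi * Complex.I)⁻¹ * Q, fun ξ => ?_⟩
    have h2 : kerAf (Polynomial.C (2 * Real.pi * Complex.I)⁻¹ * Q) =
        (2 * Real.pi * Complex.I : ℂ)⁻¹ • kerAf Q := by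
      funext x
      simp only [kerAf, Pi.smul_apply, smul_eq_mul, Polynomial.eval_mul, Polynomial.eval_C]
      ring
    rw [h2, Real.fourier_real_eq]
    have h3 : ∫ v : ℝ, Real.fourierChar (-(v * ξ)) • ((2 * Real.pi * Complex.I : ℂ)⁻¹ • kerAf Q) v =
        (2 * Real.pi * Complex.I : ℂ)⁻¹ * ∫ v : ℝ, Real.fourierChar (-(v * ξ)) • kerAf Q v := by
      rw [← integral_const_mul]
      congr 1
      funext v
      rw [Pi.smul_apply, smul_comm, smul_eq_mul]
    rw [h3, ← Real.fourier_real_eq, h1]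
    simp only [smul_eq_mul]
    rw [hP ξ]
    field_simp
    ring

theorem ker1 (k : ℕ) : ∃ C : ℝ, 0 ≤ C ∧ ∀ h : ℝ, 0 < h → ∃ ψ : ℝ → ℂ, Continuous ψ ∧ Integrable ψ ∧
    (∀ ξ : ℝ, 𝓕 ψ ξ = (ξ : ℂ) ^ k * ((Real.exp (-(Real.pi * h * ξ ^ 2)) : ℝ) : ℂ)) ∧
    ∀ x : ℝ, ‖ψ x‖ ≤ C * (√h)⁻¹ ^ (k + 1) * Real.exp (-(Real.pi * x ^ 2 / (2 * h))) := by
  obtain ⟨P, hP⟩ := kerAf_fourier k
  obtain ⟨C, hC0, hC⟩ := kerAf_bound P
  refine ⟨C, hC0, fun h hh => ?_⟩
  have hs : 0 < √h := Real.sqrt_pos.2 hh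
  have hs2 : √h ^ 2 = h := Real.sq_sqrt hh.le
  set s := √h with hsdef
  have hsc : (s : ℂ) ≠ 0 := by exact_mod_cast hs.ne'
  refine ⟨fun x => ((s⁻¹ ^ (k + 1) : ℝ) : ℂ) * kerAf P (x / s), ?_, ?_, ?_, ?_⟩
  · exact continuous_const.mul ((kerAf_cont P).comp (continuous_id.div_const s))
  · exact ((kerAf_int P).comp_div hs.ne').const_mul _
  · intro ξ
    rw [Real.fourier_real_eq]
    have h1 : ∀ v : ℝ, Real.fourierChar (-(v * ξ)) • (((s⁻¹ ^ (k + 1) : ℝ) : ℂ) * kerAf P (v / s)) =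
        ((s⁻¹ ^ (k + 1) : ℝ) : ℂ) *
          (fun u : ℝ => Real.fourierChar (-(u * (s * ξ))) • kerAf P u) (v / s) := by
      intro v
      have h2 : v / s * (s * ξ) = v * ξ := by
        field_simp
      simp only [h2]
      rw [Circle.smul_def, Circle.smul_def, smul_eq_mul, smul_eq_mul]
      ring
    have h4 : ∫ v : ℝ, Real.fourierChar (-(v * ξ)) •
        (((s⁻¹ ^ (k + 1) : ℝ) : ℂ) * kerAf P (v / s)) =
        ((s⁻¹ ^ (k + 1) : ℝ) : ℂ) * (|s| • 𝓕 (kerAf P) (s * ξ)) := by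
      rw [Real.fourier_real_eq, ← Measure.integral_comp_div
        (fun u : ℝ => Real.fourierChar (-(u * (s * ξ))) • kerAf P u) s, ← integral_const_mul]
      congr 1
      funext v
      exact h1 v
    rw [h4, hP (s * ξ), abs_of_pos hs, Complex.real_smul]
    have h3 : (-Real.pi * ((s * ξ : ℝ) : ℂ) ^ 2 : ℂ) = ((-(Real.pi * h * ξ ^ 2) : ℝ) : ℂ) := by
      rw [← hs2]
      push_cast
      ring
    rw [h3, ← Complex.ofReal_exp]
    have h5 : (s : ℂ)⁻¹ ^ k * (s : ℂ) ^ k = 1 := by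
      rw [← mul_pow, inv_mul_cancel₀ hsc, one_pow]
    have h6 : (s : ℂ)⁻¹ * (s : ℂ) = 1 := inv_mul_cancel₀ hsc
    have h7 : ((s⁻¹ ^ (k + 1) : ℝ) : ℂ) = (s : ℂ)⁻¹ ^ k * (s : ℂ)⁻¹ := by
      push_cast
      rw [pow_succ]
    have h8 : ((s * ξ : ℝ) : ℂ) ^ k = (s : ℂ) ^ k * (ξ : ℂ) ^ k := by
      push_cast
      rw [mul_pow]
    rw [h7, h8]
    generalize ((Real.exp (-(Real.pi * h * ξ ^ 2)) : ℝ) : ℂ) = e
    calc (s : ℂ)⁻¹ ^ k * (s : ℂ)⁻¹ * ((s : ℂ) * ((s : ℂ) ^ k * (ξ : ℂ) ^ k * e))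
        = ((s : ℂ)⁻¹ ^ k * (s : ℂ) ^ k) * ((s : ℂ)⁻¹ * (s : ℂ)) * ((ξ : ℂ) ^ k * e) := by ring
      _ = (ξ : ℂ) ^ k * e := by rw [h5, h6, one_mul, one_mul]
  · intro x
    rw [norm_mul, Complex.norm_real, Real.norm_of_nonneg (by positivity)]
    have h1 := hC (x / s)
    have h2 : Real.pi * (x / s) ^ 2 / 2 = Real.pi * x ^ 2 / (2 * h) := by
      rw [div_pow, hs2]
      field_simp
    rw [h2] at h1
    calc s⁻¹ ^ (k + 1) * ‖kerAf P (x / s)‖
        ≤ s⁻¹ ^ (k + 1) * (C * Real.exp (-(Real.pi * x ^ 2 / (2 * h)))) :=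
          mul_le_mul_of_nonneg_left h1 (by positivity)
      _ = C * s⁻¹ ^ (k + 1) * Real.exp (-(Real.pi * x ^ 2 / (2 * h))) := by ring

end Pool.Agent.helper12.AI
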