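import Pool.Agent.helper12.AI.KerA
import Pool.Agent.helper12.AI.Gauss

/-!
# AI-KerB: the kernels in dimension `n`

PROOF.  `ψ z = ∏ j, ψ_j (z j)` with `ψ_j` of `ker1 (β j)`.  Fourier transform: `PiLp.volume_preserving_toLp` (or `ofLp`) and `integral_fintype_prod_eq_prod`,
`⟪z, ξ⟫ = ∑ z j ξ j`; `‖z‖² = ∑ z j²` (`EuclideanSpace.norm_sq_eq`).  Bound: `∏ (√h)⁻¹ ^ (β j + 1) = (√h)⁻¹ ^ (∑ β j) (√h)⁻¹ ^ n` and
`(√h)⁻¹ ≤ 2 (√(2 h))⁻¹`.
-/

set_option autoImplicit false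

open MeasureTheory FourierTransform
open scoped ENNReal InnerProductSpace ComplexConjugate

namespace Pool.Agent.helper12.AI

open Pool.Agent.helper12.RT

variable {n : ℕ}

theorem ker2 (β : Fin n → ℕ) : ∃ C : ℝ, 0 ≤ C ∧ ∀ h : ℝ, 0 < h → ∃ ψ : E n → ℂ,
    Continuous ψ ∧ Integrable ψ ∧
    (∀ ξ : E n, 𝓕 ψ ξ = (∏ j, (ξ j : ℂ) ^ β j) * ((Real.exp (-(Real.pi * h * ‖ξ‖ ^ 2)) : ℝ) : ℂ)) ∧
    ∀ z : E n, ‖ψ z‖ ≤ C * (√h)⁻¹ ^ (∑ j, β j) * g (2 * h) z := by
  choose C hC0 hC using fun j => ker1 (β j)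
  refine ⟨(∏ j, C j) * 2 ^ n, by
    have := Finset.prod_nonneg fun j (_ : j ∈ Finset.univ) => hC0 j
    positivity, ?_⟩
  intro h hh
  choose ψ hc hi hf hb using fun j => hC j h hh
  have hpr := PiLp.volume_preserving_ofLp (Fin n)
  have hemb : MeasurableEmbedding (WithLp.ofLp : E n → (Fin n → ℝ)) :=
    (MeasurableEquiv.toLp 2 (Fin n → ℝ)).symm.measurableEmbedding
  refine ⟨fun z => ∏ j, ψ j (z j), ?_, ?_, ?_, ?_⟩
  · refine continuous_finsetProd _ fun j _ => (hc j).comp ?_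
    fun_prop
  · have h1 : Integrable (fun x : Fin n → ℝ => ∏ j, ψ j (x j)) :=
      Integrable.fintype_prod fun j => hi j
    exact (hpr.integrable_comp_emb hemb).2 h1
  · intro ξ
    have h1 : 𝓕 (fun z : E n => ∏ j, ψ j (z j)) ξ =
        ∫ z : E n, (fun x : Fin n → ℝ =>
          ∏ j, (Complex.exp (((-2 * Real.pi * (x j * ξ j) : ℝ) : ℂ) * Complex.I) • ψ j (x j)))
            (WithLp.ofLp z) := by
      rw [Real.fourier_eq']
      refine integral_congr_ae (Filter.Eventually.of_forall fun z => ?_)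
      simp only [smul_eq_mul, Finset.prod_mul_distrib]
      congr 1
      rw [← Complex.exp_sum, ← Finset.sum_mul]
      congr 2
      rw [PiLp.inner_apply, Finset.mul_sum]
      push_cast
      refine Finset.sum_congr rfl fun j _ => ?_
      simp
      ring
    rw [h1, hpr.integral_comp hemb (fun x : Fin n → ℝ =>
      ∏ j, (Complex.exp (((-2 * Real.pi * (x j * ξ j) : ℝ) : ℂ) * Complex.I) • ψ j (x j)))]
    rw [volume_pi, integral_fintype_prod_eq_prod (𝕜 := ℂ) (f := fun j (t : ℝ) =>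
      Complex.exp (((-2 * Real.pi * (t * ξ j) : ℝ) : ℂ) * Complex.I) • ψ j t)]
    have h2 : ∀ j, ∫ t : ℝ, Complex.exp (((-2 * Real.pi * (t * ξ j) : ℝ) : ℂ) * Complex.I) • ψ j t =
        (ξ j : ℂ) ^ β j * ((Real.exp (-(Real.pi * h * (ξ j) ^ 2)) : ℝ) : ℂ) := by
      intro j
      rw [← hf j (ξ j), Real.fourier_eq']
      refine integral_congr_ae (Filter.Eventually.of_forall fun t => ?_)
      simp [mul_comm]
    rw [Finset.prod_congr rfl fun j _ => h2 j, Finset.prod_mul_distrib]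
    congr 1
    rw [← Complex.ofReal_prod, ← Real.exp_sum, EuclideanSpace.norm_sq_eq]
    congr 2
    rw [Finset.mul_sum, ← Finset.sum_neg_distrib]
    refine Finset.sum_congr rfl fun j _ => ?_
    simp
  · intro z
    have hs : 0 < √h := Real.sqrt_pos.2 hh
    have hs2 : 0 < √(2 * h) := Real.sqrt_pos.2 (by positivity)
    have h1 : (√h)⁻¹ ≤ 2 * (√(2 * h))⁻¹ := by
      rw [inv_le_iff_one_le_mul₀ hs, mul_assoc, inv_mul_eq_div, ← mul_div_assoc, le_div_iff₀ hs2,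
        one_mul]
      apply Real.sqrt_le_iff.2
      constructor
      · positivity
      · rw [mul_pow, Real.sq_sqrt hh.le]
        linarith
    have hP : 0 ≤ ∏ j, C j := Finset.prod_nonneg fun j _ => hC0 j
    rw [norm_prod]
    calc ∏ j, ‖ψ j (z j)‖ ≤
        ∏ j, (C j * (√h)⁻¹ ^ (β j + 1) * Real.exp (-(Real.pi * (z j) ^ 2 / (2 * h)))) :=
          Finset.prod_le_prod (fun j _ => norm_nonneg _) fun j _ => hb j (z j)
      _ = (∏ j, C j) * ((√h)⁻¹ ^ (∑ j, β j) * (√h)⁻¹ ^ n) *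
          Real.exp (-(Real.pi * ‖z‖ ^ 2 / (2 * h))) := by
        rw [Finset.prod_mul_distrib, Finset.prod_mul_distrib, Finset.prod_pow_eq_pow_sum,
          Finset.sum_add_distrib, pow_add, ← Real.exp_sum, EuclideanSpace.norm_sq_eq]
        congr 2
        · simp
        · rw [Finset.mul_sum, Finset.sum_div, ← Finset.sum_neg_distrib]
          refine Finset.sum_congr rfl fun j _ => ?_
          simp
      _ ≤ (∏ j, C j) * ((√h)⁻¹ ^ (∑ j, β j) * (2 * (√(2 * h))⁻¹) ^ n) *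
          Real.exp (-(Real.pi * ‖z‖ ^ 2 / (2 * h))) := by
        gcongr
      _ = (∏ j, C j) * 2 ^ n * (√h)⁻¹ ^ (∑ j, β j) * g (2 * h) z := by
        unfold g
        rw [mul_pow]
        ring

end Pool.Agent.helper12.AI
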