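import Pool.Agent.helper12.AI.Cube
import Mathlib.Geometry.Euclidean.Volume.Measure

/-!
# AI-Lip: biLipschitz maps and Lebesgue measure

author of the proofs: helper59

PROOF.  `Φ` is injective (if `L ≥ 0`; `L > 0` unless the space is a point) and continuous, its inverse is `L`-Lipschitz.  A Lipschitz map multiplies the `n`-dimensional Hausdorff measure of a set by at most `L^n`
(`LipschitzWith.hausdorffMeasure_image_le`), and volume on `E n` is a constant multiple of the Hausdorff measure (`isAddHaarMeasure` of both: `MeasureTheory.Measure.isAddHaarMeasure_hausdorff..`, or `MeasureTheory.hausdorffMeasure_pi_real`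
after `ofLp`, which is biLipschitz with constant depending on `n`).  So `volume (Φ '' A) ≤ C volume A` and `volume (Φ ⁻¹' A) ≤ C volume A` (`Φ ⁻¹' A` is the image under the inverse), and applying the first to `Φ ⁻¹' A`:
`volume A ≤ C volume (Φ ⁻¹' A)`.  `lip_density`: `ν = volume.map Φ` satisfies `ν ≤ C volume` and `volume ≤ C ν`, so `ν = J dx` (Radon-Nikodym; `Measure.withDensity_rnDeriv_eq`), `C⁻¹ ≤ J ≤ C` a.e., and `J` can be changed on a null set.
-/

set_option autoImplicit false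

open MeasureTheory FourierTransform
open scoped ENNReal InnerProductSpace ComplexConjugate

namespace Pool.Agent.helper12.AI

open Pool.Agent.helper12.RT

variable {n : ℕ}

private theorem lip_inj {Φ : E n → E n} {L : ℝ} (h : BiLip Φ L) : Function.Injective Φ := by
  intro x y hxy
  have h1 := (h.2 x y).2
  rw [hxy, dist_self, mul_zero] at h1
  exact dist_le_zero.1 h1

private theorem lip_inverse' {Φ : E n → E n} {L : ℝ} (h : BiLip Φ L) :
    ∃ Ψ : E n → E n, BiLip Ψ L ∧ (∀ x, Ψ (Φ x) = x) ∧ ∀ y, Φ (Ψ y) = y := by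
  obtain ⟨Ψ, hΨ⟩ : ∃ Ψ : E n → E n, ∀ y, Φ (Ψ y) = y :=
    ⟨fun y => (h.1 y).choose, fun y => (h.1 y).choose_spec⟩
  have hΨ' : ∀ x, Ψ (Φ x) = x := fun x => lip_inj h (hΨ (Φ x))
  refine ⟨Ψ, ⟨fun x => ⟨Φ x, hΨ' x⟩, fun x y => ?_⟩, hΨ', hΨ⟩
  have h1 := h.2 (Ψ x) (Ψ y)
  rw [hΨ, hΨ] at h1
  exact ⟨h1.2, h1.1⟩

private theorem lip_lipschitz {Φ : E n → E n} {L : ℝ} (h : BiLip Φ L) :
    LipschitzWith (max L 1).toNNReal Φ := by
  refine LipschitzWith.of_dist_le_mul fun x y => ?_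
  rw [Real.coe_toNNReal _ (le_trans zero_le_one (le_max_right L 1))]
  exact ((h.2 x y).1).trans (mul_le_mul_of_nonneg_right (le_max_left L 1) dist_nonneg)

private theorem lip_image {Φ : E n → E n} {L : ℝ} (h : BiLip Φ L) (A : Set (E n)) :
    volume (Φ '' A) ≤ ENNReal.ofReal ((max L 1) ^ n) * volume A := by
  have hv := Measure.isAddLeftInvariant_eq_smul (volume : Measure (E n)) (Measure.hausdorffMeasure (n : ℝ))
  obtain ⟨c, hc⟩ : ∃ c : NNReal, ∀ B : Set (E n),
      volume B = (c : ℝ≥0∞) * Measure.hausdorffMeasure (n : ℝ) B :=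
    ⟨_, fun B => by
      conv_lhs => rw [hv]
      rfl⟩
  have h1 := (lip_lipschitz h).hausdorffMeasure_image_le (d := (n : ℝ)) (Nat.cast_nonneg n) A
  have h2 : ENNReal.ofReal ((max L 1) ^ n) = (((max L 1).toNNReal : NNReal) : ℝ≥0∞) ^ (n : ℝ) := by
    rw [ENNReal.rpow_natCast, ENNReal.ofReal_pow (le_trans zero_le_one (le_max_right L 1))]
    rfl
  rw [hc, hc, h2]
  calc (c : ℝ≥0∞) * Measure.hausdorffMeasure (n : ℝ) (Φ '' A)
      ≤ c * ((((max L 1).toNNReal : NNReal) : ℝ≥0∞) ^ (n : ℝ) *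
          Measure.hausdorffMeasure (n : ℝ) A) := by gcongr
    _ = _ := by ring

private theorem lip_meas' {Φ : E n → E n} {L : ℝ} (h : BiLip Φ L) :
    Measurable Φ ∧ ∀ A : Set (E n),
      volume (Φ ⁻¹' A) ≤ ENNReal.ofReal ((max L 1) ^ n) * volume A ∧
      volume A ≤ ENNReal.ofReal ((max L 1) ^ n) * volume (Φ ⁻¹' A) := by
  refine ⟨(lip_lipschitz h).continuous.measurable, fun A => ?_⟩
  obtain ⟨Ψ, hΨ, h1, h2⟩ := lip_inverse' h
  constructor
  · have e : Φ ⁻¹' A = Ψ '' A := by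
      ext x
      constructor
      · intro hx
        exact ⟨Φ x, hx, h1 x⟩
      · rintro ⟨y, hy, rfl⟩
        rw [Set.mem_preimage, h2]
        exact hy
    rw [e]
    exact lip_image hΨ A
  · have e := lip_image h (Φ ⁻¹' A)
    rwa [Set.image_preimage_eq A h.1] at e

theorem lip_meas (n : ℕ) (L : ℝ) : ∃ C : ℝ, 0 < C ∧ ∀ Φ : E n → E n, BiLip Φ L →
    Measurable Φ ∧ ∀ A : Set (E n), MeasurableSet A →
      volume (Φ ⁻¹' A) ≤ ENNReal.ofReal C * volume A ∧ volume A ≤ ENNReal.ofReal C * volume (Φ ⁻¹' A) := by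
  refine ⟨(max L 1) ^ n, pow_pos (lt_of_lt_of_le one_pos (le_max_right L 1)) n, fun Φ h => ?_⟩
  exact ⟨(lip_meas' h).1, fun A _ => (lip_meas' h).2 A⟩

theorem lip_density (n : ℕ) (L : ℝ) : ∃ C : ℝ, 1 ≤ C ∧ ∀ Φ : E n → E n, BiLip Φ L →
    ∃ J : E n → ℝ, Measurable J ∧ (∀ x, C⁻¹ ≤ J x ∧ J x ≤ C) ∧
      (volume : Measure (E n)).map Φ = dens J := by
  have hC1 : 1 ≤ (max L 1) ^ n := one_le_pow₀ (le_max_right L 1)
  refine ⟨(max L 1) ^ n, hC1, fun Φ h => ?_⟩
  obtain ⟨C, hC⟩ : ∃ C, C = (max L 1) ^ n := ⟨_, rfl⟩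
  obtain ⟨hm, hA⟩ := lip_meas' h
  rw [← hC] at hA hC1 ⊢
  have hC0 : 0 < C := lt_of_lt_of_le one_pos hC1
  have hCinv : C⁻¹ ≤ C := (inv_le_one_of_one_le₀ hC1).trans hC1
  have hν : ∀ A : Set (E n), MeasurableSet A →
      (volume : Measure (E n)).map Φ A = volume (Φ ⁻¹' A) := fun A hA' =>
    Measure.map_apply hm hA'
  have hac : (volume : Measure (E n)).map Φ ≪ (volume : Measure (E n)) := by
    refine Measure.AbsolutelyContinuous.mk fun A hA' h0 => ?_
    rw [hν A hA']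
    have h1 := (hA A).1
    rw [h0, mul_zero] at h1
    exact nonpos_iff_eq_zero.1 h1
  have hrn := Measure.withDensity_rnDeriv_eq ((volume : Measure (E n)).map Φ) volume hac
  obtain ⟨f, hf⟩ : ∃ f : E n → ℝ≥0∞,
      f = ((volume : Measure (E n)).map Φ).rnDeriv volume := ⟨_, rfl⟩
  have hfm : Measurable f := by
    rw [hf]
    exact Measure.measurable_rnDeriv _ _
  rw [← hf] at hrn
  have hfA : ∀ A : Set (E n), MeasurableSet A → ∫⁻ x in A, f x = volume (Φ ⁻¹' A) := by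
    intro A hA'
    rw [← hν A hA', ← withDensity_apply f hA', hrn]
  have hub : f ≤ᵐ[volume] fun _ => ENNReal.ofReal C := by
    refine ae_le_of_forall_setLIntegral_le_of_sigmaFinite hfm fun A hA' _ => ?_
    rw [hfA A hA', setLIntegral_const]
    exact (hA A).1
  have hlb : (fun _ => ENNReal.ofReal C⁻¹) ≤ᵐ[volume] f := by
    refine ae_le_of_forall_setLIntegral_le_of_sigmaFinite measurable_const fun A hA' _ => ?_
    rw [hfA A hA', setLIntegral_const, ENNReal.ofReal_inv_of_pos hC0]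
    calc (ENNReal.ofReal C)⁻¹ * volume A
        ≤ (ENNReal.ofReal C)⁻¹ * (ENNReal.ofReal C * volume (Φ ⁻¹' A)) := by
          gcongr
          exact (hA A).2
      _ = volume (Φ ⁻¹' A) := by
          rw [← mul_assoc, ENNReal.inv_mul_cancel (ENNReal.ofReal_pos.2 hC0).ne'
            ENNReal.ofReal_ne_top, one_mul]
  refine ⟨fun x => max C⁻¹ (min (f x).toReal C), ?_, fun x => ⟨le_max_left _ _, ?_⟩, ?_⟩
  · exact measurable_const.max (hfm.ennreal_toReal.min measurable_const)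
  · exact max_le hCinv (min_le_right _ _)
  · rw [← hrn, dens]
    refine withDensity_congr_ae ?_
    filter_upwards [hub, hlb] with x hx1 hx2
    have hfin : f x ≠ ∞ := ne_top_of_le_ne_top ENNReal.ofReal_ne_top hx1
    have h1 : (f x).toReal ≤ C := ENNReal.toReal_le_of_le_ofReal hC0.le hx1
    have h2 : C⁻¹ ≤ (f x).toReal := (ENNReal.ofReal_le_iff_le_toReal hfin).1 hx2
    rw [min_eq_left h1, max_eq_right h2, ENNReal.ofReal_toReal hfin]

/-- the inverse map -/
theorem lip_inverse {Φ : E n → E n} {L : ℝ} (h : BiLip Φ L) :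
    ∃ Ψ : E n → E n, BiLip Ψ L ∧ (∀ x, Ψ (Φ x) = x) ∧ ∀ y, Φ (Ψ y) = y := by
  exact lip_inverse' h

end Pool.Agent.helper12.AI
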