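import Pool.Agent.helper12.AI.Cube

/-!
# AI-Trunc: truncation of the weights

`tr M s = max M⁻¹ (min s M)`, `M ≥ 1`; `log (tr M s) = clamp (log s)` to `[- log M, log M]`.
PROOFS.  `tr_good`: if `κ` is the number of `Q` for `s`, take `κ' = max (- log M) (min κ (log M))`; clamping is a contraction, so the first inequality holds with the same `K`.  Second: if `κ > log M`:
`tr M s ≤ M = exp κ'`.  If `- log M ≤ κ ≤ log M`: `tr M s ≤ s + M⁻¹ ≤ s + exp κ'`, average `≤ (K + 1) exp κ'`.  If `κ < - log M`: `tr M s ≤ s + M⁻¹`, average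
`≤ K exp κ + M⁻¹ ≤ (K + 1) exp κ'`.
`tr_A2`: with `a = ⟨s⟩_Q`, `b = ⟨w⟩_Q` (finite by `Good`) the averages of `tr M s`, `tr M w` are at most `min (a + M⁻¹) M`, `min (b + M⁻¹) M`, whose product is at most `a b + 3` (if `a ≤ M`, `b ≤ M`: `a b + (a + b) / M + M⁻²`; if `a > M`: `M (b + M⁻¹) ≤ a b + 1`).
-/

set_option autoImplicit false

open MeasureTheory FourierTransform
open scoped ENNReal InnerProductSpace ComplexConjugate

namespace Pool.Agent.helper12.AI

open Pool.Agent.helper12.RT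

variable {n : ℕ}

private theorem Trunc_le {M : ℝ} (hM : 1 ≤ M) {s : E n → ℝ} (hs : ∀ x, 0 < s x) (x : E n) :
    tr M s x ≤ s x + M⁻¹ := by
  unfold tr
  have h1 : 0 < M⁻¹ := inv_pos.2 (by linarith)
  have h2 := hs x
  apply max_le
  · linarith
  · exact (min_le_left _ _).trans (by linarith)

private theorem Trunc_le_M {M : ℝ} (hM : 1 ≤ M) (s : E n → ℝ) (x : E n) : tr M s x ≤ M := by
  unfold tr
  refine max_le ?_ (min_le_right _ _)
  exact (inv_le_one_of_one_le₀ hM).trans hM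

private theorem Trunc_int1 {M : ℝ} (hM : 1 ≤ M) {s : E n → ℝ} (hs : ∀ x, 0 < s x) (x : E n)
    (r : ℝ) : ∫⁻ y in cube x r, ENNReal.ofReal (tr M s y) ≤
      (∫⁻ y in cube x r, ENNReal.ofReal (s y)) + ENNReal.ofReal M⁻¹ * volume (cube x r) := by
  calc ∫⁻ y in cube x r, ENNReal.ofReal (tr M s y)
      ≤ ∫⁻ y in cube x r, (ENNReal.ofReal (s y) + ENNReal.ofReal M⁻¹) :=
        lintegral_mono fun y =>
          (ENNReal.ofReal_le_ofReal (Trunc_le hM hs y)).trans ENNReal.ofReal_add_le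
    _ = _ := by rw [lintegral_add_right _ measurable_const, setLIntegral_const]

private theorem Trunc_int2 {M : ℝ} (hM : 1 ≤ M) (s : E n → ℝ) (x : E n)
    (r : ℝ) : ∫⁻ y in cube x r, ENNReal.ofReal (tr M s y) ≤
      ENNReal.ofReal M * volume (cube x r) := by
  calc ∫⁻ y in cube x r, ENNReal.ofReal (tr M s y)
      ≤ ∫⁻ _ in cube x r, ENNReal.ofReal M :=
        lintegral_mono fun y => ENNReal.ofReal_le_ofReal (Trunc_le_M hM s y)
    _ = _ := by rw [setLIntegral_const]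

private theorem Trunc_clamp (c t t' : ℝ) :
    |max (-c) (min t c) - max (-c) (min t' c)| ≤ |t - t'| := by
  refine (abs_max_sub_max_le_max _ _ _ _).trans ?_
  rw [sub_self, abs_zero]
  refine max_le (abs_nonneg _) ?_
  refine (abs_min_sub_min_le_max _ _ _ _).trans ?_
  rw [sub_self, abs_zero]
  exact max_le le_rfl (abs_nonneg _)

private theorem Trunc_log {M : ℝ} (hM : 1 ≤ M) {s : E n → ℝ} (hs : ∀ x, 0 < s x) (x : E n) :
    Real.log (tr M s x) = max (-Real.log M) (min (Real.log (s x)) (Real.log M)) := by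
  have hM0 : 0 < M := by linarith
  unfold tr
  rw [(Real.strictMonoOn_log.monotoneOn).map_max (Set.mem_Ioi.2 (inv_pos.2 hM0))
    (Set.mem_Ioi.2 (lt_min (hs x) hM0)),
    (Real.strictMonoOn_log.monotoneOn).map_min (Set.mem_Ioi.2 (hs x)) (Set.mem_Ioi.2 hM0),
    Real.log_inv]

private theorem Trunc_real {K M a b v a' b' : ℝ} (hK : 0 ≤ K) (hM : 1 ≤ M) (ha : 0 ≤ a)
    (hb : 0 ≤ b) (hv : 0 ≤ v) (ha' : 0 ≤ a') (hb' : 0 ≤ b') (h : a * b ≤ K * v ^ 2)
    (h1 : a' ≤ a + M⁻¹ * v) (h2 : a' ≤ M * v) (h3 : b' ≤ b + M⁻¹ * v) (h4 : b' ≤ M * v) :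
    a' * b' ≤ (K + 3) * v ^ 2 := by
  have hM0 : 0 < M := by linarith
  have hi : 0 < M⁻¹ := inv_pos.2 hM0
  have hi1 : M⁻¹ ≤ 1 := inv_le_one_of_one_le₀ hM
  have hMi : M * M⁻¹ = 1 := mul_inv_cancel₀ hM0.ne'
  have hv2 : 0 ≤ v ^ 2 := sq_nonneg v
  have hiv : 0 ≤ M⁻¹ * v := mul_nonneg hi.le hv
  have hMv : 0 ≤ M * v := mul_nonneg hM0.le hv
  by_cases hA : a ≤ M * v
  · by_cases hB : b ≤ M * v
    · have e1 : a' * b' ≤ (a + M⁻¹ * v) * (b + M⁻¹ * v) :=
        mul_le_mul h1 h3 hb' (by linarith)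
      have e2 : a * (M⁻¹ * v) ≤ M * v * (M⁻¹ * v) := mul_le_mul_of_nonneg_right hA hiv
      have e3 : M⁻¹ * v * b ≤ M⁻¹ * v * (M * v) := mul_le_mul_of_nonneg_left hB hiv
      have e4 : M * v * (M⁻¹ * v) = v ^ 2 := by
        calc M * v * (M⁻¹ * v) = (M * M⁻¹) * v ^ 2 := by ring
          _ = v ^ 2 := by rw [hMi, one_mul]
      have e5 : M⁻¹ * v * (M * v) = v ^ 2 := by rw [mul_comm, e4]
      have e6 : M⁻¹ * v * (M⁻¹ * v) ≤ 1 * v * (1 * v) := by
        have : M⁻¹ * v ≤ 1 * v := mul_le_mul_of_nonneg_right hi1 hv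
        exact mul_le_mul this this hiv (by linarith)
      have e7 : (1 : ℝ) * v * (1 * v) = v ^ 2 := by ring
      have e8 : (a + M⁻¹ * v) * (b + M⁻¹ * v) =
        a * b + a * (M⁻¹ * v) + M⁻¹ * v * b + M⁻¹ * v * (M⁻¹ * v) := by ring
      have e9 : (K + 3) * v ^ 2 = K * v ^ 2 + 3 * v ^ 2 := by ring
      linarith
    · push Not at hB
      have e1 : a' * b' ≤ (a + M⁻¹ * v) * (M * v) := mul_le_mul h1 h4 hb' (by linarith)
      have e2 : a * (M * v) ≤ a * b := mul_le_mul_of_nonneg_left hB.le ha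
      have e5 : M⁻¹ * v * (M * v) = v ^ 2 := by
        calc M⁻¹ * v * (M * v) = (M * M⁻¹) * v ^ 2 := by ring
          _ = v ^ 2 := by rw [hMi, one_mul]
      have e8 : (a + M⁻¹ * v) * (M * v) = a * (M * v) + M⁻¹ * v * (M * v) := by ring
      have e9 : (K + 3) * v ^ 2 = K * v ^ 2 + 3 * v ^ 2 := by ring
      linarith
  · push Not at hA
    have e1 : a' * b' ≤ (M * v) * (b + M⁻¹ * v) := mul_le_mul h2 h3 hb' hMv
    have e2 : (M * v) * b ≤ a * b := mul_le_mul_of_nonneg_right hA.le hb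
    have e5 : M * v * (M⁻¹ * v) = v ^ 2 := by
      calc M * v * (M⁻¹ * v) = (M * M⁻¹) * v ^ 2 := by ring
        _ = v ^ 2 := by rw [hMi, one_mul]
    have e8 : (M * v) * (b + M⁻¹ * v) = (M * v) * b + M * v * (M⁻¹ * v) := by ring
    have e9 : (K + 3) * v ^ 2 = K * v ^ 2 + 3 * v ^ 2 := by ring
    linarith

theorem tr_bounds {M : ℝ} (hM : 1 ≤ M) (s : E n → ℝ) (x : E n) : M⁻¹ ≤ tr M s x ∧ tr M s x ≤ M := by
  exact ⟨le_max_left _ _, Trunc_le_M hM s x⟩

theorem tr_bmr {M : ℝ} (hM : 1 ≤ M) {s : E n → ℝ} (hs : Measurable s) : BMr (tr M s) := by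
  refine ⟨measurable_const.max (hs.min measurable_const), M, fun x => ?_⟩
  obtain ⟨h1, h2⟩ := tr_bounds hM s x
  have h3 : 0 < M⁻¹ := inv_pos.2 (by linarith)
  rw [abs_of_nonneg (h3.le.trans h1)]
  exact h2

theorem tr_good {K : ℝ} (hK : 0 ≤ K) {s : E n → ℝ} (hs : Good K s) {M : ℝ} (hM : 1 ≤ M) :
    Good (K + 1) (tr M s) := by
  have hM0 : 0 < M := by linarith
  have hi : 0 < M⁻¹ := inv_pos.2 hM0
  refine ⟨(tr_bmr hM hs.meas).1, fun x => hi.trans_le (tr_bounds hM s x).1, ?_⟩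
  intro x r hr
  obtain ⟨κ, h1, h2⟩ := hs.osc x r hr
  have hlog : 0 ≤ Real.log M := Real.log_nonneg hM
  refine ⟨max (-Real.log M) (min κ (Real.log M)), ?_, ?_⟩
  · calc ∫⁻ y in cube x r, ENNReal.ofReal
          |Real.log (tr M s y) - max (-Real.log M) (min κ (Real.log M))|
        ≤ ∫⁻ y in cube x r, ENNReal.ofReal |Real.log (s y) - κ| := by
          refine lintegral_mono fun y => ENNReal.ofReal_le_ofReal ?_
          rw [Trunc_log hM hs.pos]
          exact Trunc_clamp _ _ _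
      _ ≤ ENNReal.ofReal K * volume (cube x r) := h1
      _ ≤ ENNReal.ofReal (K + 1) * volume (cube x r) := by
          gcongr
          linarith
  · by_cases hκ : κ ≤ Real.log M
    · have e1 : κ ≤ max (-Real.log M) (min κ (Real.log M)) := by
        rw [min_eq_left hκ]
        exact le_max_right _ _
      have e2 : M⁻¹ ≤ Real.exp (max (-Real.log M) (min κ (Real.log M))) := by
        have : M⁻¹ = Real.exp (-Real.log M) := by rw [Real.exp_neg, Real.exp_log hM0]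
        rw [this]
        exact Real.exp_le_exp.2 (le_max_left _ _)
      set κ' := max (-Real.log M) (min κ (Real.log M)) with hκ'
      calc ∫⁻ y in cube x r, ENNReal.ofReal (tr M s y)
          ≤ (∫⁻ y in cube x r, ENNReal.ofReal (s y)) +
              ENNReal.ofReal M⁻¹ * volume (cube x r) := Trunc_int1 hM hs.pos x r
        _ ≤ ENNReal.ofReal (K * Real.exp κ) * volume (cube x r) +
              ENNReal.ofReal M⁻¹ * volume (cube x r) := by gcongr
        _ ≤ ENNReal.ofReal (K * Real.exp κ') * volume (cube x r) +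
              ENNReal.ofReal (Real.exp κ') * volume (cube x r) := by gcongr
        _ = ENNReal.ofReal ((K + 1) * Real.exp κ') * volume (cube x r) := by
            rw [← add_mul, ← ENNReal.ofReal_add (by positivity) (by positivity)]
            congr 2
            ring
    · push Not at hκ
      have e1 : max (-Real.log M) (min κ (Real.log M)) = Real.log M := by
        rw [min_eq_right hκ.le]
        exact max_eq_right (by linarith)
      rw [e1, Real.exp_log hM0]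
      refine (Trunc_int2 hM s x r).trans ?_
      gcongr
      nlinarith

theorem tr_A2 {K : ℝ} (hK : 0 ≤ K) {s w : E n → ℝ} (hs : Good K s) (hw : Good K w) (h : A2 K s w)
    {M : ℝ} (hM : 1 ≤ M) : A2 (K + 3) (tr M s) (tr M w) := by
  have hM0 : 0 < M := by linarith
  have hi : 0 < M⁻¹ := inv_pos.2 hM0
  intro x r hr
  have hV := cube_vol_ne_top x r
  have hAt : ∫⁻ y in cube x r, ENNReal.ofReal (s y) ≠ ∞ := by
    obtain ⟨κ, -, h2⟩ := hs.osc x r hr
    exact ne_top_of_le_ne_top (ENNReal.mul_ne_top ENNReal.ofReal_ne_top hV) h2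
  have hBt : ∫⁻ y in cube x r, ENNReal.ofReal (w y) ≠ ∞ := by
    obtain ⟨κ, -, h2⟩ := hw.osc x r hr
    exact ne_top_of_le_ne_top (ENNReal.mul_ne_top ENNReal.ofReal_ne_top hV) h2
  have h0 := h x r hr
  have h1 := Trunc_int1 hM hs.pos x r
  have h2 := Trunc_int2 hM s x r
  have h3 := Trunc_int1 hM hw.pos x r
  have h4 := Trunc_int2 hM w x r
  have hA't : ∫⁻ y in cube x r, ENNReal.ofReal (tr M s y) ≠ ∞ :=
    ne_top_of_le_ne_top (ENNReal.mul_ne_top ENNReal.ofReal_ne_top hV) h2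
  have hB't : ∫⁻ y in cube x r, ENNReal.ofReal (tr M w y) ≠ ∞ :=
    ne_top_of_le_ne_top (ENNReal.mul_ne_top ENNReal.ofReal_ne_top hV) h4
  obtain ⟨a, ha0, ha⟩ : ∃ a : ℝ, 0 ≤ a ∧ ∫⁻ y in cube x r, ENNReal.ofReal (s y) =
      ENNReal.ofReal a := ⟨_, ENNReal.toReal_nonneg, (ENNReal.ofReal_toReal hAt).symm⟩
  obtain ⟨b, hb0, hb⟩ : ∃ b : ℝ, 0 ≤ b ∧ ∫⁻ y in cube x r, ENNReal.ofReal (w y) =
      ENNReal.ofReal b := ⟨_, ENNReal.toReal_nonneg, (ENNReal.ofReal_toReal hBt).symm⟩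
  obtain ⟨a', ha'0, ha'⟩ : ∃ a : ℝ, 0 ≤ a ∧ ∫⁻ y in cube x r, ENNReal.ofReal (tr M s y) =
      ENNReal.ofReal a := ⟨_, ENNReal.toReal_nonneg, (ENNReal.ofReal_toReal hA't).symm⟩
  obtain ⟨b', hb'0, hb'⟩ : ∃ b : ℝ, 0 ≤ b ∧ ∫⁻ y in cube x r, ENNReal.ofReal (tr M w y) =
      ENNReal.ofReal b := ⟨_, ENNReal.toReal_nonneg, (ENNReal.ofReal_toReal hB't).symm⟩
  obtain ⟨v, hv0, hv⟩ : ∃ v : ℝ, 0 ≤ v ∧ volume (cube x r) =
      ENNReal.ofReal v := ⟨_, ENNReal.toReal_nonneg, (ENNReal.ofReal_toReal hV).symm⟩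
  rw [ha, hb, hv, ← ENNReal.ofReal_mul ha0, ← ENNReal.ofReal_pow hv0, ← ENNReal.ofReal_mul hK,
    ENNReal.ofReal_le_ofReal_iff (by positivity)] at h0
  rw [ha, ha', hv, ← ENNReal.ofReal_mul hi.le, ← ENNReal.ofReal_add ha0 (by positivity),
    ENNReal.ofReal_le_ofReal_iff (by positivity)] at h1
  rw [ha', hv, ← ENNReal.ofReal_mul hM0.le, ENNReal.ofReal_le_ofReal_iff (by positivity)] at h2
  rw [hb, hb', hv, ← ENNReal.ofReal_mul hi.le, ← ENNReal.ofReal_add hb0 (by positivity),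
    ENNReal.ofReal_le_ofReal_iff (by positivity)] at h3
  rw [hb', hv, ← ENNReal.ofReal_mul hM0.le, ENNReal.ofReal_le_ofReal_iff (by positivity)] at h4
  rw [ha', hb', hv, ← ENNReal.ofReal_mul ha'0, ← ENNReal.ofReal_pow hv0,
    ← ENNReal.ofReal_mul (by linarith)]
  exact ENNReal.ofReal_le_ofReal (Trunc_real hK hM ha0 hb0 hv0 ha'0 hb'0 h0 h1 h2 h3 h4)

end Pool.Agent.helper12.AI
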