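import Pool.Agent.helper12.AI.Lip
import Pool.Agent.helper12.AI.GoodA
import Pool.Agent.helper12.AI.Trunc

/-!
# AI-LipB: push-forward of weights

PROOF.  `Ψ` the inverse of `Φ`, `J` from `lip_density`.  `s̃ y = s (Ψ y) J y`: measurable, positive, and `(dens s).map Φ = dens s̃`: for measurable `A`, `dens s (Φ ⁻¹' A) = ∫_(Φ ⁻¹' A) s = ∫_(Φ ⁻¹' A) s (Ψ (Φ x)) dx =
∫_A s (Ψ y) d(volume.map Φ)(y) = ∫_A s (Ψ y) J y dy` (`lintegral_map`, `setLIntegral_map`, `lintegral_withDensity_eq_lintegral_mul`).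
For a cube `Q = cube y r`: `Φ ⁻¹' Q = Ψ '' Q ⊆ Q* = cube (Ψ y) (A r)` with `A = (L √n + 1)` (or any such constant; `cube_subset_ball`, `mem_cube_of_norm`), `|Q*| = A^n |Q|`.  For measurable `f ≥ 0`: `∫_Q f (Ψ y) dy ≤ C ∫_Q f (Ψ y) J y dy = C ∫_(Φ ⁻¹' Q) f ≤ C ∫_(Q*) f`.
`Good`: `κ` of `Q*` for `s` serves for `Q` and `s̃`: `|log s̃ - κ| ≤ |log (s ∘ Ψ) - κ| + log C`, so `∫_Q |log s̃ - κ| ≤ C ∫_(Q*) |log s - κ| + log C |Q| ≤ (C K A^n + log C) |Q|`; `∫_Q s̃ ≤ ∫_(Q*) s ≤ K exp κ A^n |Q|`.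
`A2`: `∫_Q s̃ ∫_Q w̃ ≤ ∫_(Q*) s ∫_(Q*) w ≤ K |Q*|² = K A^(2n) |Q|²`.
-/

set_option autoImplicit false

open MeasureTheory FourierTransform
open scoped ENNReal InnerProductSpace ComplexConjugate

namespace Pool.Agent.helper12.AI

open Pool.Agent.helper12.RT

variable {n : ℕ}

private theorem LipB_change {Φ Ψ : E n → E n} {J : E n → ℝ} (hΦm : Measurable Φ)
    (hΨm : Measurable Ψ) (hΨΦ : ∀ x, Ψ (Φ x) = x) (hJm : Measurable J)
    (hmap : (volume : Measure (E n)).map Φ = dens J) {f : E n → ℝ≥0∞} (hf : Measurable f)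
    {B : Set (E n)} (hB : MeasurableSet B) :
    ∫⁻ y in B, f (Ψ y) * ENNReal.ofReal (J y) = ∫⁻ x in Φ ⁻¹' B, f x := by
  calc ∫⁻ y in B, f (Ψ y) * ENNReal.ofReal (J y)
      = ∫⁻ y in B, ((fun y => ENNReal.ofReal (J y)) * fun y => f (Ψ y)) y := by
        refine lintegral_congr fun y => ?_
        rw [Pi.mul_apply, mul_comm]
    _ = ∫⁻ y in B, f (Ψ y) ∂(volume.withDensity fun y => ENNReal.ofReal (J y)) :=
        (setLIntegral_withDensity_eq_setLIntegral_mul _ hJm.ennreal_ofReal (hf.comp hΨm) hB).symm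
    _ = ∫⁻ y in B, f (Ψ y) ∂((volume : Measure (E n)).map Φ) := by
        rw [hmap]
        rfl
    _ = ∫⁻ x in Φ ⁻¹' B, f (Ψ (Φ x)) := setLIntegral_map hB (hf.comp hΨm) hΦm
    _ = ∫⁻ x in Φ ⁻¹' B, f x := by
        refine lintegral_congr fun x => ?_
        rw [hΨΦ]

/-- the preimage of a cube is contained in a cube -/
private theorem LipB_cube {Φ Ψ : E n → E n} {L : ℝ} (h : BiLip Φ L) (hΦΨ : ∀ y, Φ (Ψ y) = y)
    (y : E n) {r : ℝ} (hr : 0 < r) : Φ ⁻¹' cube y r ⊆ cube (Ψ y) ((|L| * √n + 1) * r) := by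
  intro x hx
  apply mem_cube_of_norm
  have h1 : ‖Φ x - y‖ ≤ √n * r := cube_subset_ball y hr.le hx
  have h2 := (h.2 x (Ψ y)).2
  rw [hΦΨ, dist_eq_norm, dist_eq_norm] at h2
  calc ‖x - Ψ y‖ ≤ L * ‖Φ x - y‖ := h2
    _ ≤ |L| * ‖Φ x - y‖ := mul_le_mul_of_nonneg_right (le_abs_self L) (norm_nonneg _)
    _ ≤ |L| * (√n * r) := mul_le_mul_of_nonneg_left h1 (abs_nonneg L)
    _ ≤ (|L| * √n + 1) * r := by nlinarith

private theorem LipB_vol (x y : E n) {A r : ℝ} (hA : 0 < A) (hr : 0 < r) :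
    volume (cube x (A * r)) = ENNReal.ofReal (A ^ n) * volume (cube y r) := by
  rw [cube_vol x (mul_pos hA hr).le, cube_vol y hr.le, ← ENNReal.ofReal_mul (by positivity)]
  congr 1
  rw [← mul_pow]
  congr 1
  ring

/-- one weight -/
private theorem LipB_one {Φ Ψ : E n → E n} {J : E n → ℝ} {L C K : ℝ} (hK : 0 ≤ K) (hC : 1 ≤ C)
    (hΦ : BiLip Φ L) (hΦm : Measurable Φ)
    (hΨm : Measurable Ψ) (hΨΦ : ∀ x, Ψ (Φ x) = x) (hΦΨ : ∀ y, Φ (Ψ y) = y) (hJm : Measurable J)
    (hJ : ∀ x, C⁻¹ ≤ J x ∧ J x ≤ C)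
    (hmap : (volume : Measure (E n)).map Φ = dens J) {s : E n → ℝ} (hs : Good K s) :
    Good (C * K * (|L| * √n + 1) ^ n + Real.log C + K * (|L| * √n + 1) ^ n)
      (fun y => s (Ψ y) * J y) ∧ (dens s).map Φ = dens (fun y => s (Ψ y) * J y) ∧
    ∀ (y : E n) (r : ℝ), 0 < r → ∫⁻ z in cube y r, ENNReal.ofReal (s (Ψ z) * J z) ≤
      ∫⁻ z in cube (Ψ y) ((|L| * √n + 1) * r), ENNReal.ofReal (s z) := by
  have hC0 : 0 < C := by linarith
  have hJpos : ∀ x, 0 < J x := fun x => (inv_pos.2 hC0).trans_le (hJ x).1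
  obtain ⟨A, hA⟩ : ∃ A : ℝ, A = |L| * √n + 1 := ⟨_, rfl⟩
  have hA0 : 0 < A := by
    rw [hA]
    positivity
  rw [← hA]
  have hint : ∀ B : Set (E n), MeasurableSet B →
      ∫⁻ z in B, ENNReal.ofReal (s (Ψ z) * J z) = ∫⁻ x in Φ ⁻¹' B, ENNReal.ofReal (s x) := by
    intro B hB
    rw [← LipB_change hΦm hΨm hΨΦ hJm hmap hs.meas.ennreal_ofReal hB]
    refine lintegral_congr fun z => ?_
    rw [ENNReal.ofReal_mul (hs.pos _).le]
  have hthird : ∀ (y : E n) (r : ℝ), 0 < r → ∫⁻ z in cube y r, ENNReal.ofReal (s (Ψ z) * J z) ≤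
      ∫⁻ z in cube (Ψ y) (A * r), ENNReal.ofReal (s z) := by
    intro y r hr
    rw [hint _ (cube_meas y r)]
    apply lintegral_mono_set
    rw [hA]
    exact LipB_cube hΦ hΦΨ y hr
  refine ⟨⟨(hs.meas.comp hΨm).mul hJm, fun x => mul_pos (hs.pos _) (hJpos _), ?_⟩, ?_, hthird⟩
  · intro y r hr
    obtain ⟨κ, hκ1, hκ2⟩ := hs.osc (Ψ y) (A * r) (mul_pos hA0 hr)
    have hlogC : 0 ≤ Real.log C := Real.log_nonneg hC
    refine ⟨κ, ?_, ?_⟩
    · have hmeas : Measurable fun z => ENNReal.ofReal |Real.log (s z) - κ| :=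
        ((Real.measurable_log.comp hs.meas).sub_const κ).abs.ennreal_ofReal
      have hpt : ∀ z, ENNReal.ofReal |Real.log (s (Ψ z) * J z) - κ| ≤
          ENNReal.ofReal C * (ENNReal.ofReal |Real.log (s (Ψ z)) - κ| * ENNReal.ofReal (J z)) +
            ENNReal.ofReal (Real.log C) := by
        intro z
        have h1 : |Real.log (s (Ψ z) * J z) - κ| ≤ C * (|Real.log (s (Ψ z)) - κ| * J z) +
            Real.log C := by
          rw [Real.log_mul (hs.pos _).ne' (hJpos z).ne']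
          have h2 : |Real.log (J z)| ≤ Real.log C := by
            rw [abs_le]
            constructor
            · rw [← Real.log_inv]
              exact Real.log_le_log (inv_pos.2 hC0) (hJ z).1
            · exact Real.log_le_log (hJpos z) (hJ z).2
          have h3 : |Real.log (s (Ψ z)) + Real.log (J z) - κ| ≤
              |Real.log (s (Ψ z)) - κ| + |Real.log (J z)| := by
            have e : Real.log (s (Ψ z)) + Real.log (J z) - κ =
                (Real.log (s (Ψ z)) - κ) + Real.log (J z) := by ring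
            rw [e]
            exact abs_add_le _ _
          have h4 : 1 ≤ C * J z := by
            have h5 := mul_le_mul_of_nonneg_left (hJ z).1 hC0.le
            rwa [mul_inv_cancel₀ hC0.ne'] at h5
          have h6 : |Real.log (s (Ψ z)) - κ| ≤ C * (|Real.log (s (Ψ z)) - κ| * J z) := by
            calc |Real.log (s (Ψ z)) - κ| = |Real.log (s (Ψ z)) - κ| * 1 := (mul_one _).symm
              _ ≤ |Real.log (s (Ψ z)) - κ| * (C * J z) :=
                mul_le_mul_of_nonneg_left h4 (abs_nonneg _)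
              _ = C * (|Real.log (s (Ψ z)) - κ| * J z) := by ring
          linarith
        refine (ENNReal.ofReal_le_ofReal h1).trans (le_of_eq ?_)
        rw [ENNReal.ofReal_add (mul_nonneg hC0.le (mul_nonneg (abs_nonneg _) (hJpos z).le)) hlogC,
          ENNReal.ofReal_mul hC0.le, ENNReal.ofReal_mul (abs_nonneg _)]
      calc ∫⁻ z in cube y r, ENNReal.ofReal |Real.log (s (Ψ z) * J z) - κ|
          ≤ ∫⁻ z in cube y r, (ENNReal.ofReal C * (ENNReal.ofReal |Real.log (s (Ψ z)) - κ| *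
              ENNReal.ofReal (J z)) + ENNReal.ofReal (Real.log C)) := lintegral_mono fun z => hpt z
        _ = ENNReal.ofReal C * (∫⁻ z in cube y r, ENNReal.ofReal |Real.log (s (Ψ z)) - κ| *
              ENNReal.ofReal (J z)) + ENNReal.ofReal (Real.log C) * volume (cube y r) := by
            rw [lintegral_add_right _ measurable_const, lintegral_const, Measure.restrict_apply
              MeasurableSet.univ, Set.univ_inter, lintegral_const_mul]
            exact (hmeas.comp hΨm).mul hJm.ennreal_ofReal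
        _ = ENNReal.ofReal C * (∫⁻ x in Φ ⁻¹' cube y r, ENNReal.ofReal |Real.log (s x) - κ|) +
              ENNReal.ofReal (Real.log C) * volume (cube y r) := by
            rw [← LipB_change hΦm hΨm hΨΦ hJm hmap hmeas (cube_meas y r)]
        _ ≤ ENNReal.ofReal C * (ENNReal.ofReal K * (ENNReal.ofReal (A ^ n) * volume (cube y r))) +
              ENNReal.ofReal (Real.log C) * volume (cube y r) := by
            gcongr
            rw [← LipB_vol (Ψ y) y hA0 hr]
            refine le_trans (lintegral_mono_set ?_) hκ1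
            rw [hA]
            exact LipB_cube hΦ hΦΨ y hr
        _ = ENNReal.ofReal (C * K * A ^ n + Real.log C) * volume (cube y r) := by
            rw [ENNReal.ofReal_add (by positivity) hlogC, ENNReal.ofReal_mul (by positivity),
              ENNReal.ofReal_mul hC0.le]
            ring
        _ ≤ ENNReal.ofReal (C * K * A ^ n + Real.log C + K * A ^ n) * volume (cube y r) := by
            have : 0 ≤ K * A ^ n := by positivity
            exact mul_le_mul' (ENNReal.ofReal_le_ofReal (by linarith)) le_rfl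
    · calc ∫⁻ z in cube y r, ENNReal.ofReal (s (Ψ z) * J z)
          ≤ ∫⁻ z in cube (Ψ y) (A * r), ENNReal.ofReal (s z) := hthird y r hr
        _ ≤ ENNReal.ofReal (K * Real.exp κ) * volume (cube (Ψ y) (A * r)) := hκ2
        _ = ENNReal.ofReal (K * A ^ n * Real.exp κ) * volume (cube y r) := by
            rw [LipB_vol (Ψ y) y hA0 hr, ← mul_assoc, ← ENNReal.ofReal_mul
              (mul_nonneg hK (Real.exp_pos _).le)]
            congr 2
            ring
        _ ≤ ENNReal.ofReal ((C * K * A ^ n + Real.log C + K * A ^ n) * Real.exp κ) *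
              volume (cube y r) := by
            gcongr
            have : 0 ≤ C * K * A ^ n := by positivity
            linarith
  · ext B hB
    rw [Measure.map_apply hΦm hB]
    unfold dens
    rw [withDensity_apply _ (hΦm hB), withDensity_apply _ hB]
    exact (hint B hB).symm

theorem lipB (n : ℕ) (L : ℝ) {K : ℝ} (hK : 0 ≤ K) : ∃ K' : ℝ, 0 ≤ K' ∧ ∀ (s w : E n → ℝ) (Φ : E n → E n),
    Good K s → Good K w → A2 K s w → BiLip Φ L → ∃ s' w' : E n → ℝ, Good K' s' ∧ Good K' w' ∧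
      A2 K' s' w' ∧ (dens s).map Φ = dens s' ∧ (dens w).map Φ = dens w' := by
  obtain ⟨C, hC, hden⟩ := lip_density n L
  obtain ⟨C', hC', hmeas⟩ := lip_meas n L
  obtain ⟨A, hA⟩ : ∃ A : ℝ, A = |L| * √n + 1 := ⟨_, rfl⟩
  have hA0 : 0 < A := by
    rw [hA]
    positivity
  have hC0 : 0 < C := by linarith
  have hlogC : 0 ≤ Real.log C := Real.log_nonneg hC
  have hK1 : 0 ≤ C * K * A ^ n + Real.log C + K * A ^ n := by positivity
  have hK2 : 0 ≤ K * (A ^ n * A ^ n) := by positivity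
  have hmono : ∀ s' : E n → ℝ, Good (C * K * A ^ n + Real.log C + K * A ^ n) s' →
      Good (C * K * A ^ n + Real.log C + K * A ^ n + K * (A ^ n * A ^ n)) s' := by
    intro s' h
    refine ⟨h.meas, h.pos, ?_⟩
    intro x r hr
    obtain ⟨κ, h1, h2⟩ := h.osc x r hr
    refine ⟨κ, h1.trans ?_, h2.trans ?_⟩
    · exact mul_le_mul' (ENNReal.ofReal_le_ofReal (by linarith)) le_rfl
    · exact mul_le_mul' (ENNReal.ofReal_le_ofReal
        (mul_le_mul_of_nonneg_right (by linarith) (Real.exp_pos κ).le)) le_rfl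
  refine ⟨C * K * A ^ n + Real.log C + K * A ^ n + K * (A ^ n * A ^ n), by linarith, ?_⟩
  intro s w Φ hs hw hA2 hΦ
  obtain ⟨Ψ, hΨ, hΨΦ, hΦΨ⟩ := lip_inverse hΦ
  obtain ⟨J, hJm, hJ, hmap⟩ := hden Φ hΦ
  have hΦm := (hmeas Φ hΦ).1
  have hΨm := (hmeas Ψ hΨ).1
  obtain ⟨hs1, hs2, hs3⟩ := LipB_one hK hC hΦ hΦm hΨm hΨΦ hΦΨ hJm hJ hmap hs
  obtain ⟨hw1, hw2, hw3⟩ := LipB_one hK hC hΦ hΦm hΨm hΨΦ hΦΨ hJm hJ hmap hw
  rw [← hA] at hs1 hs3 hw1 hw3
  refine ⟨_, _, hmono _ hs1, hmono _ hw1, ?_, hs2, hw2⟩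
  intro y r hr
  have h1 := hA2 (Ψ y) (A * r) (mul_pos hA0 hr)
  calc (∫⁻ z in cube y r, ENNReal.ofReal (s (Ψ z) * J z)) *
        (∫⁻ z in cube y r, ENNReal.ofReal (w (Ψ z) * J z))
      ≤ (∫⁻ z in cube (Ψ y) (A * r), ENNReal.ofReal (s z)) *
        (∫⁻ z in cube (Ψ y) (A * r), ENNReal.ofReal (w z)) := mul_le_mul' (hs3 y r hr) (hw3 y r hr)
    _ ≤ ENNReal.ofReal K * volume (cube (Ψ y) (A * r)) ^ 2 := h1
    _ = ENNReal.ofReal (K * (A ^ n * A ^ n)) * volume (cube y r) ^ 2 := by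
        rw [LipB_vol (Ψ y) y hA0 hr, ENNReal.ofReal_mul hK, ENNReal.ofReal_mul (by positivity)]
        ring
    _ ≤ ENNReal.ofReal (C * K * A ^ n + Real.log C + K * A ^ n + K * (A ^ n * A ^ n)) *
        volume (cube y r) ^ 2 := by
        gcongr
        linarith

end Pool.Agent.helper12.AI
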