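import Pool.Agent.helper12.AI.NecA
import Pool.Agent.helper12.AI.GoodA

/-!
# AI-NecB: the norm inequality implies the `A_2` condition for `A_∞` weights

PROOF.  `z₀, ρ₀, c₀` from `necA` for the symbol `m` (or its conjugate; see below), `|m| ≤ M₀`.  Let `y`, `δ` be given, `Q = cube y δ`, `B = cube (y + δ z₀) (δ ρ₀)`, `κ` the number of `Q` for `w`, `κ'` that of `B` for `s`.  For `ε > 0` put
`F = {z ∈ Q | |log w - κ| ≤ K / ε}`, `G = {z ∈ B | |log s - κ'| ≤ K / ε}`: `|Q \ F| ≤ ε |Q|`, `|B \ G| ≤ ε |B|` (`small_set`).  Apply necA to `conj m` so that `c₀ δ^n ≤ |⟪1_B, T (conj m) 1_Q⟫| = |⟪T m 1_B, 1_Q⟫|` (`T_inner`).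
`|⟪T m 1_B, 1_Q⟫ - ⟪T m 1_G, 1_F⟫| ≤ M₀ (‖1_(B \ G)‖ ‖1_Q‖ + ‖1_G‖ ‖1_(Q \ F)‖) ≤ 2 M₀ √ε √(|B| |Q|) = 2 M₀ √ε (2 δ)^n ρ₀^(n/2)`, at most `c₀ δ^n / 2` for a suitable `ε` depending on `M₀, c₀, ρ₀, n`.  So
`(c₀ / 2) δ^n ≤ |⟪T m 1_G, 1_F⟫| ≤ (∫ w |T m 1_G|²)^(1/2) (∫_F 1 / w)^(1/2) ≤ N (∫_G 1 / s)^(1/2) (∫_F 1 / w)^(1/2) ≤ N exp (K / ε) (|B| |Q|)^(1/2) exp (- (κ + κ') / 2)`.  Hence `exp (κ + κ') ≤ C N²` with `C = C(K, n, m)`.
Let `κ''` be the number of `Q` for `s`: `B` and `Q` are contained in a common cube `cube y (A δ)`, so `|κ'' - κ'| ≤ C` (`kappa_close` twice).  So `exp (κ + κ'') ≤ C' N²`, and by `Good` `⟨s⟩_Q ⟨w⟩_Q ≤ K² exp (κ + κ'')`.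
-/

set_option autoImplicit false

open MeasureTheory FourierTransform
open scoped ENNReal InnerProductSpace ComplexConjugate

namespace Pool.Agent.helper12.AI

open Pool.Agent.helper12.RT

variable {n : ℕ}

private theorem NecB_norm {A : Set (E n)} (hA : MeasurableSet A) (hf : volume A ≠ ∞) :
    ‖(indicatorConstLp 2 hA hf (1 : ℂ) : H n)‖ = √(volume.real A) := by
  rw [norm_indicatorConstLp (by norm_num) (by norm_num), norm_one, one_mul, Real.sqrt_eq_rpow]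
  norm_num

private theorem NecB_add {A B : Set (E n)} (hA : MeasurableSet A) (hB : MeasurableSet B)
    (hBf : volume B ≠ ∞) (hAf : volume A ≠ ∞) (hDf : volume (B \ A) ≠ ∞) (hAB : A ⊆ B) :
    (indicatorConstLp 2 hB hBf (1 : ℂ) : H n) =
      indicatorConstLp 2 hA hAf (1 : ℂ) + indicatorConstLp 2 (hB.diff hA) hDf (1 : ℂ) := by
  apply Lp.ext
  filter_upwards [Lp.coeFn_add (indicatorConstLp 2 hA hAf (1 : ℂ) : H n)
      (indicatorConstLp 2 (hB.diff hA) hDf (1 : ℂ)),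
    indicatorConstLp_coeFn (p := 2) (hs := hB) (hμs := hBf) (c := (1 : ℂ)),
    indicatorConstLp_coeFn (p := 2) (hs := hA) (hμs := hAf) (c := (1 : ℂ)),
    indicatorConstLp_coeFn (p := 2) (hs := hB.diff hA) (hμs := hDf) (c := (1 : ℂ))]
    with x h1 h2 h3 h4
  rw [h1, Pi.add_apply, h2, h3, h4]
  by_cases ha : x ∈ A
  · rw [Set.indicator_of_mem ha, Set.indicator_of_mem (hAB ha),
      Set.indicator_of_notMem (fun h => h.2 ha), add_zero]
  · rw [Set.indicator_of_notMem ha, zero_add]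
    by_cases hb : x ∈ B
    · rw [Set.indicator_of_mem hb, Set.indicator_of_mem (show x ∈ B \ A from ⟨hb, ha⟩)]
    · rw [Set.indicator_of_notMem hb, Set.indicator_of_notMem (fun h => hb h.1)]

private theorem NecB_split {m : E n → ℂ} (hm : BM m) {M₀ : ℝ} (hM : ∀ ξ, ‖m ξ‖ ≤ M₀)
    (hM0 : 0 ≤ M₀) {B Q G F : Set (E n)} (hB : MeasurableSet B) (hQ : MeasurableSet Q)
    (hG : MeasurableSet G) (hF : MeasurableSet F) (hBf : volume B ≠ ∞) (hQf : volume Q ≠ ∞)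
    (hGf : volume G ≠ ∞) (hFf : volume F ≠ ∞) (hGB : G ⊆ B) (hFQ : F ⊆ Q) {ε : ℝ} (hε : 0 ≤ ε)
    (h1 : volume (B \ G) ≤ ENNReal.ofReal ε * volume B)
    (h2 : volume (Q \ F) ≤ ENNReal.ofReal ε * volume Q) :
    ‖⟪T m (indicatorConstLp 2 hB hBf (1 : ℂ)), (indicatorConstLp 2 hQ hQf (1 : ℂ) : H n)⟫_ℂ‖ ≤
      ‖⟪T m (indicatorConstLp 2 hG hGf (1 : ℂ)), (indicatorConstLp 2 hF hFf (1 : ℂ) : H n)⟫_ℂ‖ +
        2 * M₀ * √ε * √(volume.real B) * √(volume.real Q) := by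
  have hD1 : volume (B \ G) ≠ ∞ := ((measure_mono Set.diff_subset).trans_lt hBf.lt_top).ne
  have hD2 : volume (Q \ F) ≠ ∞ := ((measure_mono Set.diff_subset).trans_lt hQf.lt_top).ne
  have hr1 : √(volume.real (B \ G)) ≤ √ε * √(volume.real B) := by
    rw [← Real.sqrt_mul hε]
    apply Real.sqrt_le_sqrt
    have := ENNReal.toReal_mono (ENNReal.mul_ne_top ENNReal.ofReal_ne_top hBf) h1
    rwa [ENNReal.toReal_mul, ENNReal.toReal_ofReal hε] at this
  have hr2 : √(volume.real (Q \ F)) ≤ √ε * √(volume.real Q) := by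
    rw [← Real.sqrt_mul hε]
    apply Real.sqrt_le_sqrt
    have := ENNReal.toReal_mono (ENNReal.mul_ne_top ENNReal.ofReal_ne_top hQf) h2
    rwa [ENNReal.toReal_mul, ENNReal.toReal_ofReal hε] at this
  have hr3 : √(volume.real G) ≤ √(volume.real B) :=
    Real.sqrt_le_sqrt (ENNReal.toReal_mono hBf (measure_mono hGB))
  rw [NecB_add hG hB hBf hGf hD1 hGB, map_add, inner_add_left]
  have h3 : ‖⟪T m (indicatorConstLp 2 (hB.diff hG) hD1 (1 : ℂ)),
      (indicatorConstLp 2 hQ hQf (1 : ℂ) : H n)⟫_ℂ‖ ≤ M₀ * (√ε * √(volume.real B)) *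
        √(volume.real Q) := by
    refine (norm_inner_le_norm _ _).trans ?_
    rw [NecB_norm]
    refine mul_le_mul_of_nonneg_right ((T_norm_le hm hM _).trans ?_) (Real.sqrt_nonneg _)
    rw [NecB_norm]
    exact mul_le_mul_of_nonneg_left hr1 hM0
  have h4 : ‖⟪T m (indicatorConstLp 2 hG hGf (1 : ℂ)),
      (indicatorConstLp 2 hQ hQf (1 : ℂ) : H n)⟫_ℂ‖ ≤
      ‖⟪T m (indicatorConstLp 2 hG hGf (1 : ℂ)), (indicatorConstLp 2 hF hFf (1 : ℂ) : H n)⟫_ℂ‖ +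
        M₀ * √(volume.real B) * (√ε * √(volume.real Q)) := by
    rw [NecB_add hF hQ hQf hFf hD2 hFQ, inner_add_right]
    refine (norm_add_le _ _).trans (add_le_add le_rfl ?_)
    refine (norm_inner_le_norm _ _).trans ?_
    rw [NecB_norm]
    refine mul_le_mul ((T_norm_le hm hM _).trans ?_) hr2 (Real.sqrt_nonneg _)
      (mul_nonneg hM0 (Real.sqrt_nonneg _))
    rw [NecB_norm]
    exact mul_le_mul_of_nonneg_left hr3 hM0
  refine (norm_add_le _ _).trans ?_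
  calc _ ≤ (‖⟪T m (indicatorConstLp 2 hG hGf (1 : ℂ)),
          (indicatorConstLp 2 hF hFf (1 : ℂ) : H n)⟫_ℂ‖ +
        M₀ * √(volume.real B) * (√ε * √(volume.real Q))) +
        M₀ * (√ε * √(volume.real B)) * √(volume.real Q) := add_le_add h4 h3
    _ = _ := by ring

private theorem NecB_cs (v : H n) {F : Set (E n)} (hF : MeasurableSet F) (hFf : volume F ≠ ∞) :
    ‖⟪v, (indicatorConstLp 2 hF hFf (1 : ℂ) : H n)⟫_ℂ‖ₑ ^ 2 ≤
      (∫⁻ x in F, ‖v x‖ₑ ^ 2) * volume F := by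
  have h1 : ‖⟪v, (indicatorConstLp 2 hF hFf (1 : ℂ) : H n)⟫_ℂ‖ₑ ≤ ∫⁻ x in F, ‖v x‖ₑ := by
    rw [← inner_conj_symm, L2.inner_indicatorConstLp_one]
    have h2 : ‖conj (∫ x in F, v x)‖ₑ = ‖∫ x in F, v x‖ₑ := by
      rw [← ofReal_norm, ← ofReal_norm, RCLike.norm_conj]
    rw [h2]
    exact enorm_integral_le_lintegral_enorm _
  have hmeas : AEMeasurable (fun x => ‖v x‖ₑ) (volume.restrict F) :=
    ((Lp.stronglyMeasurable v).measurable.enorm).aemeasurable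
  have h3 := ENNReal.lintegral_mul_le_Lp_mul_Lq (volume.restrict F)
    Real.HolderConjugate.two_two hmeas (aemeasurable_const (b := (1 : ℝ≥0∞)))
  simp only [Pi.mul_apply, mul_one, ENNReal.one_rpow, lintegral_const, Measure.restrict_apply_univ,
    one_mul] at h3
  have h4 : (∫⁻ x in F, ‖v x‖ₑ) ^ 2 ≤ (∫⁻ x in F, ‖v x‖ₑ ^ 2) * volume F := by
    calc (∫⁻ x in F, ‖v x‖ₑ) ^ 2 ≤
        ((∫⁻ x in F, ‖v x‖ₑ ^ (2 : ℝ)) ^ (1 / (2 : ℝ)) * volume F ^ (1 / (2 : ℝ))) ^ 2 := by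
          gcongr
      _ = _ := by
        rw [← ENNReal.mul_rpow_of_nonneg _ _ (by norm_num), ← ENNReal.rpow_natCast,
          ← ENNReal.rpow_mul]
        norm_num
  exact (pow_le_pow_left' h1 2).trans h4

theorem necB {m : E n → ℂ} (hm : BM m) (hm0 : ∀ᵐ ξ ∂(volume : Measure (E n)), m ξ ≠ 0)
    (hh : ∀ (t : ℝ) (ξ : E n), 0 < t → m (t • ξ) = m ξ) {K N : ℝ} (hK : 0 ≤ K) (hN : 0 ≤ N) :
    ∃ K' : ℝ, 0 ≤ K' ∧ ∀ s w : E n → ℝ, Good K s → Good K w → NB m s w N → A2 K' s w := by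
  obtain ⟨M₀, hM⟩ := hm.2
  have hM0 : 0 ≤ M₀ := (norm_nonneg _).trans (hM 0)
  obtain ⟨z₀, ρ₀, c₀, hρ₀, hc₀, hnec⟩ := necA hm.conj
    (by filter_upwards [hm0] with ξ hξ
        exact (map_ne_zero (starRingEnd ℂ)).2 hξ)
    (fun t ξ ht => by rw [hh t ξ ht])
  -- the constants
  obtain ⟨ε, hε, hε2⟩ : ∃ ε : ℝ, 0 < ε ∧ 2 * M₀ * √ε * 2 ^ n * √(ρ₀ ^ n) ≤ c₀ / 2 := by
    have hD : 0 < 4 * (M₀ + 1) * 2 ^ n * √(ρ₀ ^ n) := by positivity
    refine ⟨(c₀ / (4 * (M₀ + 1) * 2 ^ n * √(ρ₀ ^ n))) ^ 2, by positivity, ?_⟩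
    rw [Real.sqrt_sq (by positivity)]
    have h1 : 2 * M₀ * (c₀ / (4 * (M₀ + 1) * 2 ^ n * √(ρ₀ ^ n))) * 2 ^ n * √(ρ₀ ^ n) =
        c₀ / 2 * (M₀ / (M₀ + 1)) := by
      have : √(ρ₀ ^ n) ≠ 0 := by positivity
      have : M₀ + 1 ≠ 0 := by positivity
      field_simp
      ring
    rw [h1]
    have h2 : M₀ / (M₀ + 1) ≤ 1 := by
      rw [div_le_one (by positivity)]
      linarith
    calc c₀ / 2 * (M₀ / (M₀ + 1)) ≤ c₀ / 2 * 1 := by gcongr
      _ = c₀ / 2 := mul_one _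
  obtain ⟨A, hA⟩ : ∃ A : ℝ, A = 1 + ‖z₀‖ + ρ₀ := ⟨_, rfl⟩
  have hA1 : 0 ≤ ‖z₀‖ := norm_nonneg _
  have hA0 : 0 < A := by rw [hA]; positivity
  obtain ⟨C₁, hC₁⟩ : ∃ C₁ : ℝ, C₁ = Real.exp (2 * (K / ε)) * N ^ 2 * (4 * ρ₀) ^ n / (c₀ / 2) ^ 2 :=
    ⟨_, rfl⟩
  have hC₁0 : 0 ≤ C₁ := by rw [hC₁]; positivity
  obtain ⟨D, hD⟩ : ∃ D : ℝ, D = K * (1 + A ^ n) + K * (1 + (A / ρ₀) ^ n) := ⟨_, rfl⟩
  refine ⟨K ^ 2 * (C₁ * Real.exp D), by positivity, fun s w hs hw hNB y δ hδ => ?_⟩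
  -- the numbers of the cubes
  obtain ⟨κ, hκ1, hκ2⟩ := hw.osc y δ hδ
  obtain ⟨κ', hκ'1, -⟩ := hs.osc (y + δ • z₀) (δ * ρ₀) (by positivity)
  obtain ⟨κ'', hκ''1, hκ''2⟩ := hs.osc y δ hδ
  obtain ⟨κ₀, hκ₀1, -⟩ := hs.osc y (A * δ) (by positivity)
  have hclose1 : |κ₀ - κ''| ≤ K * (1 + A ^ n) := by
    refine kappa_close hK hs hδ le_rfl (cube_subset fun i => ?_) hκ₀1 hκ''1
    rw [sub_self, abs_zero, zero_add]
    nlinarith
  have hclose2 : |κ₀ - κ'| ≤ K * (1 + (A / ρ₀) ^ n) := by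
    refine kappa_close hK hs (by positivity) (le_of_eq ?_) (cube_subset fun i => ?_) hκ₀1 hκ'1
    · field_simp
    · rw [PiLp.add_apply, PiLp.smul_apply, smul_eq_mul, add_sub_cancel_left, abs_mul,
        abs_of_pos hδ]
      have h1 : |z₀ i| ≤ ‖z₀‖ := by
        have := PiLp.norm_apply_le z₀ i
        rwa [Real.norm_eq_abs] at this
      rw [hA]
      nlinarith
  have hκκ : κ'' ≤ κ' + D := by
    have h1 := abs_le.1 hclose1
    have h2 := abs_le.1 hclose2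
    rw [hD]
    linarith [h1.1, h1.2, h2.1, h2.2]
  -- the sets
  obtain ⟨F, hFdef⟩ : ∃ F : Set (E n), F = {z ∈ cube y δ | |Real.log (w z) - κ| ≤ K / ε} :=
    ⟨_, rfl⟩
  obtain ⟨G, hGdef⟩ : ∃ G : Set (E n),
      G = {z ∈ cube (y + δ • z₀) (δ * ρ₀) | |Real.log (s z) - κ'| ≤ K / ε} := ⟨_, rfl⟩
  have hFm : MeasurableSet F := by
    rw [hFdef]
    exact (cube_meas y δ).inter (measurableSet_le
      ((hw.meas.log.sub_const κ).abs) measurable_const)
  have hGm : MeasurableSet G := by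
    rw [hGdef]
    exact (cube_meas _ _).inter (measurableSet_le
      ((hs.meas.log.sub_const κ').abs) measurable_const)
  have hFQ : F ⊆ cube y δ := by rw [hFdef]; exact fun z hz => hz.1
  have hGB : G ⊆ cube (y + δ • z₀) (δ * ρ₀) := by rw [hGdef]; exact fun z hz => hz.1
  have hFf : volume F ≠ ∞ := ((measure_mono hFQ).trans_lt (cube_vol_ne_top _ _).lt_top).ne
  have hGf : volume G ≠ ∞ := ((measure_mono hGB).trans_lt (cube_vol_ne_top _ _).lt_top).ne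
  have hF1 : volume (cube y δ \ F) ≤ ENNReal.ofReal ε * volume (cube y δ) := by
    refine (measure_mono fun z hz => ?_).trans (small_set hK hw hδ hε hκ1)
    refine ⟨hz.1, ?_⟩
    by_contra hcon
    apply hz.2
    rw [hFdef]
    exact ⟨hz.1, not_lt.1 hcon⟩
  have hG1 : volume (cube (y + δ • z₀) (δ * ρ₀) \ G) ≤
      ENNReal.ofReal ε * volume (cube (y + δ • z₀) (δ * ρ₀)) := by
    refine (measure_mono fun z hz => ?_).trans
      (small_set hK hs (by positivity) hε hκ'1)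
    refine ⟨hz.1, ?_⟩
    by_contra hcon
    apply hz.2
    rw [hGdef]
    exact ⟨hz.1, not_lt.1 hcon⟩
  -- volumes
  have hvQ : volume (cube y δ) = ENNReal.ofReal ((2 * δ) ^ n) := cube_vol y hδ.le
  have hvB : volume (cube (y + δ • z₀) (δ * ρ₀)) = ENNReal.ofReal ((2 * (δ * ρ₀)) ^ n) :=
    cube_vol _ (by positivity)
  have hrQ : volume.real (cube y δ) = (2 * δ) ^ n := by
    rw [measureReal_def, hvQ, ENNReal.toReal_ofReal (by positivity)]
  have hrB : volume.real (cube (y + δ • z₀) (δ * ρ₀)) = (2 * δ) ^ n * ρ₀ ^ n := by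
    rw [measureReal_def, hvB, ENNReal.toReal_ofReal (by positivity), ← mul_pow, mul_assoc]
  -- lower bound
  have hlow : c₀ / 2 * δ ^ n ≤ ‖⟪T m (indicatorConstLp 2 hGm hGf (1 : ℂ)),
      (indicatorConstLp 2 hFm hFf (1 : ℂ) : H n)⟫_ℂ‖ := by
    have h1 := hnec y δ hδ
    rw [← T_inner hm] at h1
    have h2 := NecB_split hm hM hM0 (cube_meas (y + δ • z₀) (δ * ρ₀)) (cube_meas y δ) hGm hFm
      (cube_vol_ne_top _ _) (cube_vol_ne_top _ _) hGf hFf hGB hFQ hε.le hG1 hF1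
    have h3 : 2 * M₀ * √ε * √(volume.real (cube (y + δ • z₀) (δ * ρ₀))) *
        √(volume.real (cube y δ)) ≤ c₀ / 2 * δ ^ n := by
      rw [hrQ, hrB, Real.sqrt_mul (by positivity)]
      have h4 : √((2 * δ) ^ n) * √((2 * δ) ^ n) = (2 * δ) ^ n :=
        Real.mul_self_sqrt (by positivity)
      calc 2 * M₀ * √ε * (√((2 * δ) ^ n) * √(ρ₀ ^ n)) * √((2 * δ) ^ n) =
          2 * M₀ * √ε * √(ρ₀ ^ n) * (√((2 * δ) ^ n) * √((2 * δ) ^ n)) := by ring
        _ = (2 * M₀ * √ε * 2 ^ n * √(ρ₀ ^ n)) * δ ^ n := by rw [h4, mul_pow]; ring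
        _ ≤ c₀ / 2 * δ ^ n := by gcongr
    linarith
  -- upper bound
  have hup1 : ∫⁻ x, ENNReal.ofReal (1 / s x) *
      ‖(indicatorConstLp 2 hGm hGf (1 : ℂ) : H n) x‖ₑ ^ 2 ≤
      ENNReal.ofReal (Real.exp (K / ε - κ')) * volume (cube (y + δ • z₀) (δ * ρ₀)) := by
    have h1 : ∫⁻ x, ENNReal.ofReal (1 / s x) *
        ‖(indicatorConstLp 2 hGm hGf (1 : ℂ) : H n) x‖ₑ ^ 2 =
        ∫⁻ x in G, ENNReal.ofReal (1 / s x) := by
      rw [← lintegral_indicator hGm]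
      apply lintegral_congr_ae
      filter_upwards [indicatorConstLp_coeFn (p := 2) (hs := hGm) (hμs := hGf) (c := (1 : ℂ))]
        with x hx
      rw [hx]
      by_cases hxG : x ∈ G
      · rw [Set.indicator_of_mem hxG, Set.indicator_of_mem hxG, enorm_one, one_pow, mul_one]
      · rw [Set.indicator_of_notMem hxG, Set.indicator_of_notMem hxG, enorm_zero]
        simp
    rw [h1]
    calc ∫⁻ x in G, ENNReal.ofReal (1 / s x) ≤
        ∫⁻ x in G, ENNReal.ofReal (Real.exp (K / ε - κ')) := by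
          refine setLIntegral_mono measurable_const fun x hx => ?_
          apply ENNReal.ofReal_le_ofReal
          rw [hGdef] at hx
          have h2 := (abs_le.1 hx.2).1
          have h3 : 1 / s x = Real.exp (-Real.log (s x)) := by
            rw [Real.exp_neg, Real.exp_log (hs.pos x), one_div]
          rw [h3]
          apply Real.exp_le_exp.2
          linarith
      _ = ENNReal.ofReal (Real.exp (K / ε - κ')) * volume G := by
          rw [setLIntegral_const]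
      _ ≤ _ := by gcongr
  have hup2 : ∫⁻ x in F, ‖T m (indicatorConstLp 2 hGm hGf (1 : ℂ)) x‖ₑ ^ 2 ≤
      ENNReal.ofReal (Real.exp (K / ε - κ)) *
        ∫⁻ x, ENNReal.ofReal (w x) * ‖T m (indicatorConstLp 2 hGm hGf (1 : ℂ)) x‖ₑ ^ 2 := by
    rw [← lintegral_const_mul' _ _ ENNReal.ofReal_ne_top]
    refine le_trans ?_ (setLIntegral_le_lintegral F _)
    refine setLIntegral_mono' hFm fun x hx => ?_
    rw [← mul_assoc, ← ENNReal.ofReal_mul (Real.exp_nonneg _)]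
    have h1 : 1 ≤ Real.exp (K / ε - κ) * w x := by
      rw [hFdef] at hx
      have h2 := (abs_le.1 hx.2).1
      have h3 : w x = Real.exp (Real.log (w x)) := (Real.exp_log (hw.pos x)).symm
      rw [h3, ← Real.exp_add]
      rw [show (1 : ℝ) = Real.exp 0 from Real.exp_zero.symm]
      apply Real.exp_le_exp.2
      linarith
    calc ‖T m (indicatorConstLp 2 hGm hGf (1 : ℂ)) x‖ₑ ^ 2 =
        1 * ‖T m (indicatorConstLp 2 hGm hGf (1 : ℂ)) x‖ₑ ^ 2 := (one_mul _).symm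
      _ ≤ _ := by
          gcongr
          rw [← ENNReal.ofReal_one]
          exact ENNReal.ofReal_le_ofReal h1
  have hup3 := hNB (indicatorConstLp 2 hGm hGf (1 : ℂ))
    (hup1.trans_lt (ENNReal.mul_lt_top ENNReal.ofReal_lt_top (cube_vol_ne_top _ _).lt_top)).ne
  have hup4 := NecB_cs (T m (indicatorConstLp 2 hGm hGf (1 : ℂ))) hFm hFf
  have hfin : ENNReal.ofReal ((c₀ / 2 * δ ^ n) ^ 2) ≤
      ENNReal.ofReal (Real.exp (K / ε - κ) * (N ^ 2 * (Real.exp (K / ε - κ') *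
        (2 * (δ * ρ₀)) ^ n)) * (2 * δ) ^ n) := by
    calc ENNReal.ofReal ((c₀ / 2 * δ ^ n) ^ 2) ≤ ‖⟪T m (indicatorConstLp 2 hGm hGf (1 : ℂ)),
        (indicatorConstLp 2 hFm hFf (1 : ℂ) : H n)⟫_ℂ‖ₑ ^ 2 := by
          rw [ENNReal.ofReal_pow (by positivity), ← ofReal_norm]
          gcongr
      _ ≤ (∫⁻ x in F, ‖T m (indicatorConstLp 2 hGm hGf (1 : ℂ)) x‖ₑ ^ 2) * volume F := hup4
      _ ≤ (ENNReal.ofReal (Real.exp (K / ε - κ)) * (ENNReal.ofReal (N ^ 2) *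
          (ENNReal.ofReal (Real.exp (K / ε - κ')) *
            volume (cube (y + δ • z₀) (δ * ρ₀))))) * volume (cube y δ) := by
          gcongr
          refine hup2.trans ?_
          gcongr
          refine hup3.trans ?_
          gcongr
      _ = _ := by
          rw [hvQ, hvB, ← ENNReal.ofReal_mul (by positivity), ← ENNReal.ofReal_mul (by positivity),
            ← ENNReal.ofReal_mul (by positivity), ← ENNReal.ofReal_mul (by positivity)]
  have hreal := (ENNReal.ofReal_le_ofReal_iff (by positivity)).1 hfin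
  have hexp : Real.exp (κ + κ') ≤ C₁ := by
    rw [hC₁, le_div_iff₀ (by positivity)]
    have h1 : 0 < δ ^ n * δ ^ n := by positivity
    rw [← mul_le_mul_iff_left₀ h1]
    have h2 : Real.exp (K / ε - κ) = Real.exp (K / ε) * (Real.exp κ)⁻¹ := by
      rw [sub_eq_add_neg, Real.exp_add, Real.exp_neg]
    have h3 : Real.exp (K / ε - κ') = Real.exp (K / ε) * (Real.exp κ')⁻¹ := by
      rw [sub_eq_add_neg, Real.exp_add, Real.exp_neg]
    have h4 : Real.exp (2 * (K / ε)) = Real.exp (K / ε) * Real.exp (K / ε) := by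
      rw [← Real.exp_add]
      ring_nf
    rw [h2, h3] at hreal
    rw [h4, Real.exp_add]
    have h5 : 0 < Real.exp κ * Real.exp κ' := by positivity
    calc Real.exp κ * Real.exp κ' * (c₀ / 2) ^ 2 * (δ ^ n * δ ^ n) =
        Real.exp κ * Real.exp κ' * (c₀ / 2 * δ ^ n) ^ 2 := by ring
      _ ≤ Real.exp κ * Real.exp κ' * (Real.exp (K / ε) * (Real.exp κ)⁻¹ *
          (N ^ 2 * (Real.exp (K / ε) * (Real.exp κ')⁻¹ * (2 * (δ * ρ₀)) ^ n)) * (2 * δ) ^ n) := by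
          gcongr
      _ = (Real.exp κ * (Real.exp κ)⁻¹) * (Real.exp κ' * (Real.exp κ')⁻¹) *
          (Real.exp (K / ε) * Real.exp (K / ε)) * N ^ 2 * ((2 * (δ * ρ₀)) ^ n * (2 * δ) ^ n) := by
          ring
      _ = Real.exp (K / ε) * Real.exp (K / ε) * N ^ 2 * (4 * ρ₀) ^ n * (δ ^ n * δ ^ n) := by
          rw [mul_inv_cancel₀ (Real.exp_pos κ).ne', mul_inv_cancel₀ (Real.exp_pos κ').ne',
            one_mul, one_mul, ← mul_pow, ← mul_pow, mul_assoc _ ((4 * ρ₀) ^ n), ← mul_pow]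
          congr 2
          ring
  -- conclusion
  calc (∫⁻ y in cube y δ, ENNReal.ofReal (s y)) * (∫⁻ y in cube y δ, ENNReal.ofReal (w y)) ≤
      (ENNReal.ofReal (K * Real.exp κ'') * volume (cube y δ)) *
        (ENNReal.ofReal (K * Real.exp κ) * volume (cube y δ)) := by
        gcongr
    _ = ENNReal.ofReal (K * Real.exp κ'' * (K * Real.exp κ)) * volume (cube y δ) ^ 2 := by
        rw [ENNReal.ofReal_mul (p := K * Real.exp κ'') (by positivity)]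
        ring
    _ ≤ ENNReal.ofReal (K ^ 2 * (C₁ * Real.exp D)) * volume (cube y δ) ^ 2 := by
        refine mul_le_mul' (ENNReal.ofReal_le_ofReal ?_) le_rfl
        have h1 : Real.exp κ'' ≤ Real.exp κ' * Real.exp D := by
          rw [← Real.exp_add]
          exact Real.exp_le_exp.2 hκκ
        calc K * Real.exp κ'' * (K * Real.exp κ) = K ^ 2 * (Real.exp κ * Real.exp κ'') := by ring
          _ ≤ K ^ 2 * (Real.exp κ * (Real.exp κ' * Real.exp D)) := by gcongr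
          _ = K ^ 2 * (Real.exp (κ + κ') * Real.exp D) := by rw [Real.exp_add]; ring
          _ ≤ K ^ 2 * (C₁ * Real.exp D) := by gcongr

end Pool.Agent.helper12.AI
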