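import Pool.Agent.helper12.AI.Sym
import Pool.Agent.helper12.AI.NecB
import Pool.Agent.helper12.AI.LipB
import Pool.Agent.helper12.AI.AinfA

/-!
# AI-Main: stability on pairs of `A_∞` weights

PROOF.  `K = 2 max C 0` (`ainfA`); `N' = max N 0` (`NormAtMost` is monotone in `N`); `NB_of_norm`, `necB` give `A2 K₁ s w`; `K₂ = max K K₁`; `lipB` gives `K₃` and the densities `s', w'` of the push-forwards; `sufB` for `K₃` and the monomial(s), `NB_add`, `NB_smul` with `rsym`, `bsym`; `norm_of_NB` (`good_fin`).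
-/

set_option autoImplicit false

open MeasureTheory FourierTransform
open scoped ENNReal InnerProductSpace ComplexConjugate

namespace Pool.Agent.helper12.AI

open Pool.Agent.helper12.RT

variable {n : ℕ}

private theorem Main_mono {m : E n → ℂ} {σ ω : Measure (E n)} {N N' : ℝ} (hN : N ≤ N')
    (h : NormAtMost m σ ω N) : NormAtMost m σ ω N' := by
  intro f u v U h1 h2 h3 h4
  exact (h f u v U h1 h2 h3 h4).trans (mul_le_mul_left (ENNReal.ofReal_le_ofReal hN) _)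

private theorem Main_core {m : E n → ℂ} (hm : BM m)
    (hm0 : ∀ᵐ ξ ∂(volume : Measure (E n)), m ξ ≠ 0)
    (hh : ∀ (t : ℝ) (ξ : E n), 0 < t → m (t • ξ) = m ξ)
    (hsuf : ∀ K : ℝ, 0 ≤ K → ∃ N : ℝ, 0 ≤ N ∧ ∀ s w : E n → ℝ, Good K s → Good K w →
      A2 K s w → NB m s w N) (C L N : ℝ) :
    ∃ N' : ℝ, ∀ s w : E n → ℝ, AinfLe s C → AinfLe w C → ∀ Φ : E n → E n, BiLip Φ L →
      NormAtMost m (dens s) (dens w) N →
      NormAtMost m ((dens s).map Φ) ((dens w).map Φ) N' := by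
  have hK : 0 ≤ 2 * max C 0 := by positivity
  have hN0 : 0 ≤ max N 0 := le_max_right _ _
  obtain ⟨K₁, hK₁, H₁⟩ := necB hm hm0 hh hK hN0
  have hK₂ : 0 ≤ max (2 * max C 0) K₁ := le_max_of_le_left hK
  obtain ⟨K₃, hK₃, H₃⟩ := lipB n L hK₂
  obtain ⟨N', hN', H'⟩ := hsuf K₃ hK₃
  refine ⟨N', fun s w hs hw Φ hΦ h => ?_⟩
  have gs := ainfA hs
  have gw := ainfA hw
  have hNB := NB_of_norm hm gs.meas gs.pos gw.meas hN0 (Main_mono (le_max_left N 0) h)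
  have hA := H₁ s w gs gw hNB
  obtain ⟨s', w', gs', gw', hA', es, ew⟩ := H₃ s w Φ (gs.mono (le_max_left _ _))
    (gw.mono (le_max_left _ _)) (hA.mono (le_max_right _ _)) hΦ
  rw [es, ew]
  exact norm_of_NB hm gs'.meas gs'.pos gw'.meas (good_fin gs') hN' (H' s' w' gs' gw' hA')

theorem ainf_riesz (β : Fin n → ℕ) (hβ : Even (∑ j, β j)) (hβ0 : 0 < ∑ j, β j) (C L N : ℝ) :
    ∃ N' : ℝ, ∀ s w : E n → ℝ, AinfLe s C → AinfLe w C → ∀ Φ : E n → E n, BiLip Φ L →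
      NormAtMost (rieszSymbol β) (dens s) (dens w) N →
      NormAtMost (rieszSymbol β) ((dens s).map Φ) ((dens w).map Φ) N' := by
  refine Main_core (rsym_bm β) (rsym_ne β) (fun t ξ ht => rsym_homog β t ξ ht) ?_ C L N
  intro K hK
  obtain ⟨N₁, hN₁, H⟩ := sufB β hβ hβ0 hK
  refine ⟨‖Complex.I ^ (∑ j, β j)‖ * N₁, by positivity, fun s w hs hw h => ?_⟩
  have h1 := NB_smul (mono_bmr β).bm (Complex.I ^ (∑ j, β j)) hN₁ (H s w hs hw h)
  have h2 : (rieszSymbol β : E n → ℂ) = fun ξ => Complex.I ^ (∑ j, β j) * (mono β ξ : ℂ) :=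
    funext (rsym β)
  rw [h2]
  exact h1

theorem ainf_beurling (C L N : ℝ) :
    ∃ N' : ℝ, ∀ s w : E 2 → ℝ, AinfLe s C → AinfLe w C → ∀ Φ : E 2 → E 2, BiLip Φ L →
      NormAtMost beurlingSymbol (dens s) (dens w) N →
      NormAtMost beurlingSymbol ((dens s).map Φ) ((dens w).map Φ) N' := by
  refine Main_core bsym_bm bsym_ne (fun t ξ ht => bsym_homog t ξ ht) ?_ C L N
  intro K hK
  obtain ⟨N₁, hN₁, H₁⟩ := sufB (n := 2) ![2, 0] (by decide) (by decide) hK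
  obtain ⟨N₂, hN₂, H₂⟩ := sufB (n := 2) ![0, 2] (by decide) (by decide) hK
  obtain ⟨N₃, hN₃, H₃⟩ := sufB (n := 2) ![1, 1] (by decide) (by decide) hK
  refine ⟨N₁ + ‖(-1 : ℂ)‖ * N₂ + ‖(-2 * Complex.I : ℂ)‖ * N₃, by positivity,
    fun s w hs hw h => ?_⟩
  have b₁ : BM fun ξ : E 2 => (mono ![2, 0] ξ : ℂ) := (mono_bmr _).bm
  have b₂ : BM fun ξ : E 2 => (-1 : ℂ) * (mono ![0, 2] ξ : ℂ) :=
    (BM.const (-1)).mul (mono_bmr _).bm
  have b₃ : BM fun ξ : E 2 => (-2 * Complex.I : ℂ) * (mono ![1, 1] ξ : ℂ) :=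
    (BM.const (-2 * Complex.I)).mul (mono_bmr _).bm
  have h₂ := NB_smul (mono_bmr _).bm (-1 : ℂ) hN₂ (H₂ s w hs hw h)
  have h₃ := NB_smul (mono_bmr _).bm (-2 * Complex.I : ℂ) hN₃ (H₃ s w hs hw h)
  have h₁₂ := NB_add b₁ b₂ hw.meas hN₁ (by positivity) (H₁ s w hs hw h) h₂
  have h₁₂₃ := NB_add (b₁.add b₂) b₃ hw.meas (by positivity) (by positivity) h₁₂ h₃
  have e : beurlingSymbol = fun ξ => (mono ![2, 0] ξ : ℂ) + (-1) * (mono ![0, 2] ξ : ℂ) +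
      (-2 * Complex.I) * (mono ![1, 1] ξ : ℂ) := funext bsym
  rw [e]
  exact h₁₂₃

end Pool.Agent.helper12.AI
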