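import Pool.Agent.helper12.AI.Defs
import Pool.Agent.helper12.AI.Cube
import Pool.Agent.helper12.RT.OpsT

/-!
# AI-NBa: the operator inequality is the measure inequality

PROOFS.  `NB_of_norm`: given `u : H n` with `∫ ‖u‖² / s < ∞`, put `f = u / s` (measurable representative), `U = 𝓕 u`, `v = T m u`; `f ∈ L²(s dx)` with `‖f‖² = ∫ ‖u‖² / s`, `∫_B f d(dens s) = ∫_B u`
(`integral_withDensity_eq_integral_smul` or `setIntegral_withDensity..`; `B` bounded, `u` is integrable on `B`), `isFourier_iff` (`RT/SpecA.lean`) twice (`fourier_T`, `M_apply`).  Then write the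
`eLpNorm`s as lintegrals (`eLpNorm_two..`, `lintegral_withDensity_eq_lintegral_mul`) and square.
`norm_of_NB`: given `f, u, v, U`; `isFourier_iff` gives `u' : H n`, `u' = u` a.e., and `v = T m u'` a.e. (as in `normAtMost_iff` in `RT/SpecA.lean`, where `dens w ≪ volume`).  The set integrals of `f s` and `u` over bounded
sets agree; `f` is integrable on bounded sets for `dens s` (`L²` on a set of finite measure, by `hfin`), so `u = f s` a.e. (`ae_eq_of_forall_setIntegral_eq_of_sigmaFinite`-type lemma on each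
cube), so `‖u‖² / s = ‖f‖² s` and `∫ ‖u‖² / s = ‖f‖²_(L²(s dx)) < ∞`.
-/

set_option autoImplicit false

open MeasureTheory FourierTransform
open scoped ENNReal InnerProductSpace ComplexConjugate

namespace Pool.Agent.helper12.AI

open Pool.Agent.helper12.RT

variable {n : ℕ}

private theorem NBa_sq {w : E n → ℝ} (hw : Measurable w) {g : E n → ℂ}
    (hg : AEStronglyMeasurable g volume) :
    eLpNorm g 2 (dens w) ^ 2 = ∫⁻ x, ENNReal.ofReal (w x) * ‖g x‖ₑ ^ 2 := by
  have e : (2 : ℝ≥0∞).toReal = 2 := ENNReal.toReal_ofNat 2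
  rw [eLpNorm_eq_lintegral_rpow_enorm_toReal two_ne_zero ENNReal.ofNat_ne_top, e,
    ← ENNReal.rpow_two, ← ENNReal.rpow_mul]
  norm_num
  unfold dens
  rw [lintegral_withDensity_eq_lintegral_mul₀ hw.ennreal_ofReal.aemeasurable
    (hg.enorm.pow_const 2)]
  rfl

private theorem NBa_ac (w : E n → ℝ) : dens w ≪ volume :=
  withDensity_absolutelyContinuous _ _

private theorem NBa_ac' {s : E n → ℝ} (hs : Measurable s) (hs0 : ∀ x, 0 < s x) :
    (volume : Measure (E n)) ≪ dens s := by
  refine withDensity_absolutelyContinuous' hs.ennreal_ofReal.aemeasurable ?_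
  refine Filter.Eventually.of_forall fun x => ?_
  exact (ENNReal.ofReal_pos.2 (hs0 x)).ne'

private theorem NBa_int {s : E n → ℝ} (hs : Measurable s) (hs0 : ∀ x, 0 < s x) (f : E n → ℂ)
    {B : Set (E n)} (hB : MeasurableSet B) :
    ∫ x in B, f x ∂(dens s) = ∫ x in B, s x • f x := by
  unfold dens
  rw [restrict_withDensity hB, integral_withDensity_eq_integral_toReal_smul hs.ennreal_ofReal
    (Filter.Eventually.of_forall fun x => ENNReal.ofReal_lt_top)]
  refine integral_congr_ae (Filter.Eventually.of_forall fun x => ?_)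
  show (ENNReal.ofReal (s x)).toReal • f x = s x • f x
  rw [ENNReal.toReal_ofReal (hs0 x).le]

private theorem NBa_point {a : ℝ} (ha : 0 < a) (z : ℂ) :
    ENNReal.ofReal (1 / a) * ‖a • z‖ₑ ^ 2 = ENNReal.ofReal a * ‖z‖ₑ ^ 2 := by
  have h1 : ‖a • z‖ₑ = ENNReal.ofReal a * ‖z‖ₑ := by
    rw [enorm_smul, Real.enorm_eq_ofReal ha.le]
  rw [h1, mul_pow, ← mul_assoc]
  congr 1
  rw [← ENNReal.ofReal_pow ha.le, ← ENNReal.ofReal_mul (by positivity)]
  congr 1
  field_simp

private theorem NBa_smul {a : ℝ} (ha : 0 < a) (z : ℂ) : a • (((1 / a : ℝ) : ℂ) * z) = z := by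
  rw [Complex.real_smul, ← mul_assoc, ← Complex.ofReal_mul, mul_one_div_cancel ha.ne',
    Complex.ofReal_one, one_mul]

theorem NB_of_norm {m : E n → ℂ} (hm : BM m) {s w : E n → ℝ} (hs : Measurable s) (hs0 : ∀ x, 0 < s x)
    (hw : Measurable w) {N : ℝ} (hN : 0 ≤ N) (h : NormAtMost m (dens s) (dens w) N) :
    NB m s w N := by
  intro u hu
  have h' := (normAtMost_iff hm (NBa_ac w)).1 h
  have hum : AEStronglyMeasurable (u : E n → ℂ) volume := (Lp.memLp u).1
  have hfm : AEStronglyMeasurable (fun x => ((1 / s x : ℝ) : ℂ) * u x) volume := by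
    refine AEStronglyMeasurable.mul ?_ hum
    exact (Complex.measurable_ofReal.comp (measurable_const.div hs)).aestronglyMeasurable
  have hsq : eLpNorm (fun x => ((1 / s x : ℝ) : ℂ) * u x) 2 (dens s) ^ 2 =
      ∫⁻ x, ENNReal.ofReal (1 / s x) * ‖u x‖ₑ ^ 2 := by
    rw [NBa_sq hs hfm]
    refine lintegral_congr fun x => ?_
    rw [← NBa_point (hs0 x), NBa_smul (hs0 x)]
  have hf : MemLp (fun x => ((1 / s x : ℝ) : ℂ) * u x) 2 (dens s) := by
    refine ⟨hfm.mono_ac (NBa_ac s), ?_⟩
    by_contra hcon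
    apply hu
    rw [← hsq, not_lt_top_iff.1 hcon]
    exact ENNReal.top_pow two_ne_zero
  have hset : ∀ B : Set (E n), MeasurableSet B → Bornology.IsBounded B →
      ∫ x in B, ((1 / s x : ℝ) : ℂ) * u x ∂(dens s) = ∫ x in B, u x := by
    intro B hB _
    rw [NBa_int hs hs0 _ hB]
    refine integral_congr_ae (Filter.Eventually.of_forall fun x => ?_)
    exact NBa_smul (hs0 x) (u x)
  have hfin := h' _ hf u hset
  have hTm : AEStronglyMeasurable (T m u : E n → ℂ) volume := (Lp.memLp (T m u)).1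
  rw [← NBa_sq hw hTm, ← hsq, ENNReal.ofReal_pow hN, ← mul_pow]
  exact pow_le_pow_left₀ zero_le hfin 2

theorem norm_of_NB {m : E n → ℂ} (hm : BM m) {s w : E n → ℝ} (hs : Measurable s)
    (hs0 : ∀ x, 0 < s x) (hw : Measurable w)
    (hfin : ∀ (x : E n) (r : ℝ), ∫⁻ y in cube x r, ENNReal.ofReal (s y) ≠ ∞) {N : ℝ} (hN : 0 ≤ N)
    (h : NB m s w N) : NormAtMost m (dens s) (dens w) N := by
  rw [normAtMost_iff hm (NBa_ac w)]
  intro f hf u hu
  have hum : AEStronglyMeasurable (u : E n → ℂ) volume := (Lp.memLp u).1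
  have hfm : AEStronglyMeasurable f volume := hf.1.mono_ac (NBa_ac' hs hs0)
  have hlt : ∀ᵐ x ∂(volume : Measure (E n)), ENNReal.ofReal (s x) < ∞ :=
    Filter.Eventually.of_forall fun x => ENNReal.ofReal_lt_top
  -- the two functions agree on cubes
  have hcube : ∀ k : ℕ, (fun x => s x • f x) =ᵐ[volume.restrict (cube (0 : E n) (k : ℝ))] u := by
    intro k
    have hCm := cube_meas (0 : E n) (k : ℝ)
    have hfinC : dens s (cube (0 : E n) (k : ℝ)) < ∞ := by
      unfold dens
      rw [withDensity_apply _ hCm]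
      exact lt_top_iff_ne_top.2 (hfin 0 k)
    have hIf : Integrable f ((dens s).restrict (cube (0 : E n) (k : ℝ))) := by
      have : IsFiniteMeasure ((dens s).restrict (cube (0 : E n) (k : ℝ))) :=
        ⟨by rw [Measure.restrict_apply_univ]; exact hfinC⟩
      exact (hf.restrict _).integrable one_le_two
    have hIs : Integrable (fun x => s x • f x) (volume.restrict (cube (0 : E n) (k : ℝ))) := by
      unfold dens at hIf
      rw [restrict_withDensity hCm, integrable_withDensity_iff_integrable_smul' hs.ennreal_ofReal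
        (ae_restrict_of_ae hlt)] at hIf
      refine hIf.congr (Filter.Eventually.of_forall fun x => ?_)
      show (ENNReal.ofReal (s x)).toReal • f x = s x • f x
      rw [ENNReal.toReal_ofReal (hs0 x).le]
    have hIu : Integrable (u : E n → ℂ) (volume.restrict (cube (0 : E n) (k : ℝ))) := by
      have : IsFiniteMeasure ((volume : Measure (E n)).restrict (cube (0 : E n) (k : ℝ))) :=
        ⟨by rw [Measure.restrict_apply_univ]
            exact lt_top_iff_ne_top.2 (cube_vol_ne_top _ _)⟩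
      exact ((Lp.memLp u).restrict _).integrable one_le_two
    refine hIs.ae_eq_of_forall_setIntegral_eq _ _ hIu fun B hB _ => ?_
    rw [Measure.restrict_restrict hB]
    have hBC : MeasurableSet (B ∩ cube (0 : E n) (k : ℝ)) := hB.inter hCm
    rw [← NBa_int hs hs0 f hBC]
    exact hu _ hBC ((cube_bounded _ _).subset Set.inter_subset_right)
  have hae : (fun x => s x • f x) =ᵐ[volume] u := by
    have h1 : (fun x => s x • f x) =ᵐ[volume.restrict (⋃ k : ℕ, cube (0 : E n) (k : ℝ))] u := by
      unfold Filter.EventuallyEq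
      rw [ae_restrict_iUnion_eq, Filter.eventually_iSup]
      exact hcube
    rwa [cube_iUnion, Measure.restrict_univ] at h1
  have hsq : ∫⁻ x, ENNReal.ofReal (1 / s x) * ‖u x‖ₑ ^ 2 = eLpNorm f 2 (dens s) ^ 2 := by
    rw [NBa_sq hs hfm]
    refine lintegral_congr_ae ?_
    filter_upwards [hae] with x hx
    rw [← hx, NBa_point (hs0 x)]
  have hne : ∫⁻ x, ENNReal.ofReal (1 / s x) * ‖u x‖ₑ ^ 2 ≠ ∞ := by
    rw [hsq]
    exact ENNReal.pow_ne_top hf.2.ne
  have h1 := h u hne
  have hTm : AEStronglyMeasurable (T m u : E n → ℂ) volume := (Lp.memLp (T m u)).1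
  rw [← NBa_sq hw hTm, hsq, ENNReal.ofReal_pow hN, ← mul_pow] at h1
  exact (ENNReal.pow_le_pow_left_iff two_ne_zero).1 h1

end Pool.Agent.helper12.AI
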