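import Pool.Agent.helper12.AI.NBa

/-!
# AI-NBb: linear combinations of symbols

PROOFS.  `T (m₁ + m₂) u = T m₁ u + T m₂ u` (`T_add`), `√` of the integrals: triangle inequality in `L²(w dx)` (`‖a + b‖ ≤ ‖a‖ + ‖b‖` for `eLpNorm`, or `|a + b|² ≤ (1 + δ) |a|² + (1 + 1/δ) |b|²` optimised; a cheap way: write the inequality
`NB` as `eLpNorm (T m u) 2 (dens w) ≤ ofReal N * eLpNorm ..`-type and use `eLpNorm_add_le`).  Constants: `T (c m) u = c T m u`.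
-/

set_option autoImplicit false

open MeasureTheory FourierTransform
open scoped ENNReal InnerProductSpace ComplexConjugate

namespace Pool.Agent.helper12.AI

open Pool.Agent.helper12.RT

variable {n : ℕ}

private theorem NBb_sq {w : E n → ℝ} (hw : Measurable w) {g : E n → ℂ}
    (hg : AEStronglyMeasurable g volume) :
    eLpNorm g 2 (dens w) ^ 2 = ∫⁻ x, ENNReal.ofReal (w x) * ‖g x‖ₑ ^ 2 := by
  have e : (2 : ℝ≥0∞).toReal = 2 := ENNReal.toReal_ofNat 2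
  rw [eLpNorm_eq_lintegral_rpow_enorm_toReal two_ne_zero ENNReal.ofNat_ne_top, e,
    ← ENNReal.rpow_two, ← ENNReal.rpow_mul]
  norm_num
  unfold dens
  rw [lintegral_withDensity_eq_lintegral_mul₀ hw.ennreal_ofReal.aemeasurable
    (hg.enorm.pow_const 2)]
  rfl

private theorem NBb_ac (w : E n → ℝ) : dens w ≪ volume :=
  withDensity_absolutelyContinuous _ _

/-- from squares to roots -/
private theorem NBb_root {a r : ℝ≥0∞} {N : ℝ} (hN : 0 ≤ N) (h : a ^ 2 ≤ ENNReal.ofReal (N ^ 2) * r ^ 2) :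
    a ≤ ENNReal.ofReal N * r := by
  rw [ENNReal.ofReal_pow hN, ← mul_pow] at h
  exact (ENNReal.pow_le_pow_left_iff two_ne_zero).1 h

theorem NB_add {m₁ m₂ : E n → ℂ} (h₁ : BM m₁) (h₂ : BM m₂) {s w : E n → ℝ} (hw : Measurable w)
    {N₁ N₂ : ℝ} (hN₁ : 0 ≤ N₁) (hN₂ : 0 ≤ N₂) (H₁ : NB m₁ s w N₁) (H₂ : NB m₂ s w N₂) :
    NB (fun ξ => m₁ ξ + m₂ ξ) s w (N₁ + N₂) := by
  intro u hu
  have e1 : T (fun ξ => m₁ ξ + m₂ ξ) u = T m₁ u + T m₂ u := T_add h₁ h₂ u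
  have k0 : AEStronglyMeasurable (T (fun ξ => m₁ ξ + m₂ ξ) u : E n → ℂ) volume := (Lp.memLp _).1
  have k1 : AEStronglyMeasurable (T m₁ u : E n → ℂ) volume := (Lp.memLp _).1
  have k2 : AEStronglyMeasurable (T m₂ u : E n → ℂ) volume := (Lp.memLp _).1
  have g1 := H₁ u hu
  have g2 := H₂ u hu
  rw [← NBb_sq hw k1] at g1
  rw [← NBb_sq hw k2] at g2
  rw [← NBb_sq hw k0]
  obtain ⟨r, hr⟩ : ∃ r : ℝ≥0∞, r ^ 2 = ∫⁻ x, ENNReal.ofReal (1 / s x) * ‖u x‖ₑ ^ 2 := by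
    refine ⟨(∫⁻ x, ENNReal.ofReal (1 / s x) * ‖u x‖ₑ ^ 2) ^ (1 / 2 : ℝ), ?_⟩
    rw [← ENNReal.rpow_two, ← ENNReal.rpow_mul]
    norm_num
  rw [← hr] at g1 g2 ⊢
  have g1' := NBb_root hN₁ g1
  have g2' := NBb_root hN₂ g2
  have hsum : eLpNorm (T (fun ξ => m₁ ξ + m₂ ξ) u : E n → ℂ) 2 (dens w) ≤
      ENNReal.ofReal (N₁ + N₂) * r := by
    have e2 : (T (fun ξ => m₁ ξ + m₂ ξ) u : E n → ℂ) =ᵐ[volume]
        (T m₁ u : E n → ℂ) + (T m₂ u : E n → ℂ) := by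
      rw [e1]
      exact Lp.coeFn_add _ _
    rw [eLpNorm_congr_ae ((NBb_ac w).ae_eq e2), ENNReal.ofReal_add hN₁ hN₂, add_mul]
    refine (eLpNorm_add_le (k1.mono_ac (NBb_ac w)) (k2.mono_ac (NBb_ac w)) one_le_two).trans ?_
    exact add_le_add g1' g2'
  rw [ENNReal.ofReal_pow (add_nonneg hN₁ hN₂), ← mul_pow]
  exact pow_le_pow_left₀ zero_le hsum 2

theorem NB_smul {m : E n → ℂ} (hm : BM m) (c : ℂ) {s w : E n → ℝ} {N : ℝ} (hN : 0 ≤ N)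
    (h : NB m s w N) : NB (fun ξ => c * m ξ) s w (‖c‖ * N) := by
  intro u hu
  have hc : BM (fun _ : E n => c) := ⟨measurable_const, ‖c‖, fun _ => le_rfl⟩
  have e1 : T (fun ξ => c * m ξ) u = c • T m u := by
    rw [T_mul hc hm, T_const]
  have e2 : (T (fun ξ => c * m ξ) u : E n → ℂ) =ᵐ[volume] fun x => c • (T m u : E n → ℂ) x := by
    rw [e1]
    exact Lp.coeFn_smul c (T m u)
  have g1 := h u hu
  have e3 : ∫⁻ x, ENNReal.ofReal (w x) * ‖T (fun ξ => c * m ξ) u x‖ₑ ^ 2 =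
      ‖c‖ₑ ^ 2 * ∫⁻ x, ENNReal.ofReal (w x) * ‖T m u x‖ₑ ^ 2 := by
    rw [← lintegral_const_mul' _ _ (ENNReal.pow_ne_top enorm_ne_top)]
    refine lintegral_congr_ae ?_
    filter_upwards [e2] with x hx
    rw [hx, enorm_smul, mul_pow]
    ring
  rw [e3]
  have e4 : ENNReal.ofReal ((‖c‖ * N) ^ 2) = ‖c‖ₑ ^ 2 * ENNReal.ofReal (N ^ 2) := by
    rw [mul_pow, ENNReal.ofReal_mul (by positivity), ENNReal.ofReal_pow (norm_nonneg c),
      ofReal_norm]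
  rw [e4, mul_assoc]
  exact mul_le_mul_right g1 _

end Pool.Agent.helper12.AI
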