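import Pool.Agent.helper12.AI.FT
import Pool.Agent.helper12.AI.Cube
import Pool.Agent.helper12.RT.OpsT

/-!
# AI-NecA: a multiplier acts nontrivially between cubes, uniformly in all scales

`1_B` is the indicator function as an element of `L²` (`indicatorConstLp 2 hB hfin 1`).  PROOF.  (1) `b = T m 1_Q`, `Q = cube 0 1`: `m ≠ 0` a.e. and `1_Q ≠ 0`, so `b ≠ 0`, so `∫_B b ≠ 0` for some cube `B = cube z₀ ρ₀` (an `L²` function whose
integrals over all cubes vanish is zero a.e.; cubes form a differentiation basis, or: cubes generate the Borel sets and the integrals over bounded boxes; boxes are unions of cubes up to null sets; the easiest may be `IsUnifLocDoublingMeasure`/`VitaliFamily`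
or approximation of balls; one can also use Lebesgue differentiation for the centred closed balls in the sup norm).  `c₀ := |∫_B b| = |⟪1_B, T m 1_Q⟫| > 0`.
(2) Scaling: for `y`, `δ > 0` with `Q' = cube y δ = y + δ Q`, `B' = cube (y + δ z₀) (δ ρ₀) = y + δ B`: `𝓕 1_Q' (ξ) = δ^n e^(-2 π i ξ·y) 𝓕 1_Q (δ ξ)` (change of variables), same for `B'`, so
`⟪1_B', T m 1_Q'⟫ = ∫ conj (𝓕 1_B') m 𝓕 1_Q' = δ^(2n) ∫ conj (𝓕 1_B (δ ξ)) m(ξ) 𝓕 1_Q (δ ξ) dξ = δ^n ⟪1_B, T m 1_Q⟫` (`m (δ⁻¹ ξ) = m ξ`; `ft_ae`).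
-/

set_option autoImplicit false

open MeasureTheory FourierTransform
open scoped ENNReal InnerProductSpace ComplexConjugate

namespace Pool.Agent.helper12.AI

open Pool.Agent.helper12.RT

variable {n : ℕ}

/-- the indicator function of a cube -/
private noncomputable def NecA_ind (z : E n) (r : ℝ) : E n → ℂ :=
  (cube z r).indicator (fun _ => (1 : ℂ))

/-- its Fourier transform -/
private noncomputable def NecA_F (z : E n) (r : ℝ) : E n → ℂ := 𝓕 (NecA_ind z r)

private theorem NecA_ind_integrable (z : E n) (r : ℝ) : Integrable (NecA_ind z r) :=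
  (integrable_indicator_iff (cube_meas z r)).2 (integrableOn_const (cube_vol_ne_top z r))

private theorem NecA_ind_memLp (z : E n) (r : ℝ) : MemLp (NecA_ind z r) 2 volume :=
  memLp_indicator_const 2 (cube_meas z r) (1 : ℂ) (Or.inr (cube_vol_ne_top z r))

private theorem NecA_ft (z : E n) (r : ℝ) :
    ((𝓕 (indicatorConstLp 2 (cube_meas z r) (cube_vol_ne_top z r) (1 : ℂ) : H n) : H n) : E n → ℂ)
      =ᵐ[volume] NecA_F z r :=
  ft_ae (NecA_ind_integrable z r) (NecA_ind_memLp z r)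

private theorem NecA_mem {y z u : E n} {δ r : ℝ} (hδ : 0 < δ) :
    y + δ • u ∈ cube (y + δ • z) (δ * r) ↔ u ∈ cube z r := by
  simp only [cube, Set.mem_ofPred_eq, PiLp.add_apply, PiLp.smul_apply, smul_eq_mul]
  refine forall_congr' fun i => ?_
  have h : y i + δ * u i - (y i + δ * z i) = δ * (u i - z i) := by ring
  rw [h, abs_mul, abs_of_pos hδ]
  exact mul_le_mul_iff_right₀ hδ

private theorem NecA_change (f : E n → ℂ) (y : E n) {δ : ℝ} (hδ : 0 < δ) :
    ∫ v, f v = (δ : ℂ) ^ n * ∫ u, f (y + δ • u) := by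
  have h1 : ∫ v, f v = ∫ v, f (y + v) := (integral_add_left_eq_self f y).symm
  have h2 := Measure.integral_comp_smul (volume : Measure (E n)) (fun v => f (y + v)) δ
  rw [h1, h2, finrank_euclideanSpace_fin, abs_of_pos (by positivity), Complex.real_smul,
    ← mul_assoc]
  push_cast
  rw [mul_inv_cancel₀ (pow_ne_zero n (by exact_mod_cast hδ.ne')), one_mul]

private theorem NecA_scale (y z : E n) {δ : ℝ} (r : ℝ) (hδ : 0 < δ) (ξ : E n) :
    NecA_F (y + δ • z) (δ * r) ξ =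
      (δ : ℂ) ^ n * ((Real.fourierChar (-⟪y, ξ⟫_ℝ) : ℂ) * NecA_F z r (δ • ξ)) := by
  unfold NecA_F
  rw [Real.fourier_eq, Real.fourier_eq, NecA_change _ y hδ]
  congr 1
  rw [← integral_const_mul]
  apply integral_congr_ae
  refine Filter.Eventually.of_forall fun u => ?_
  have h1 : NecA_ind (y + δ • z) (δ * r) (y + δ • u) = NecA_ind z r u := by
    unfold NecA_ind
    by_cases hu : u ∈ cube z r
    · rw [Set.indicator_of_mem hu, Set.indicator_of_mem ((NecA_mem hδ).2 hu)]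
    · rw [Set.indicator_of_notMem hu, Set.indicator_of_notMem (fun h => hu ((NecA_mem hδ).1 h))]
  have h2 : -⟪y + δ • u, ξ⟫_ℝ = -⟪y, ξ⟫_ℝ + -⟪u, δ • ξ⟫_ℝ := by
    rw [inner_add_left, real_inner_smul_left, real_inner_smul_right]
    ring
  simp only [h1, h2, AddChar.map_add_eq_mul, Circle.smul_def, smul_eq_mul, Circle.coe_mul]
  ring

private theorem NecA_inner {m : E n → ℂ} (hm : BM m) (z : E n) (r : ℝ) (z' : E n) (r' : ℝ) :
    ⟪(indicatorConstLp 2 (cube_meas z r) (cube_vol_ne_top z r) (1 : ℂ) : H n),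
        T m (indicatorConstLp 2 (cube_meas z' r') (cube_vol_ne_top z' r') (1 : ℂ))⟫_ℂ =
      ∫ ξ, conj (NecA_F z r ξ) * (m ξ * NecA_F z' r' ξ) := by
  rw [← Lp.inner_fourier_eq, fourier_T, L2.inner_def]
  apply integral_congr_ae
  filter_upwards [NecA_ft z r, NecA_ft z' r', M_apply hm (𝓕 (indicatorConstLp 2 (cube_meas z' r')
    (cube_vol_ne_top z' r') (1 : ℂ) : H n) : H n)] with ξ h1 h2 h3
  rw [h3, h1, h2, RCLike.inner_apply]
  ring

private theorem NecA_zero (b : H n)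
    (hb : ∀ (z : E n) (r : ℝ), 0 < r →
      ⟪(indicatorConstLp 2 (cube_meas z r) (cube_vol_ne_top z r) (1 : ℂ) : H n), b⟫_ℂ = 0) :
    b = 0 := by
  have h1 : ∀ (z : E n) (r : ℝ), 0 < r → ∫ x in cube z r, b x = 0 := by
    intro z r hr
    have := hb z r hr
    rwa [L2.inner_indicatorConstLp_one] at this
  have hmp := PiLp.volume_preserving_ofLp (Fin n)
  -- transfer to the sup norm
  let g : (Fin n → ℝ) → ℂ := fun v => b (WithLp.toLp 2 v)
  have hg : LocallyIntegrable g volume :=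
    ((Lp.memLp b).comp_measurePreserving (PiLp.volume_preserving_toLp (Fin n))).locallyIntegrable
      (by norm_num)
  have hball : ∀ (v : Fin n → ℝ) (r : ℝ), 0 < r → ∫ x in Metric.closedBall v r, g x = 0 := by
    intro v r hr
    have h2 := hmp.setIntegral_preimage_emb
      (MeasurableEquiv.toLp 2 (Fin n → ℝ)).symm.measurableEmbedding g (Metric.closedBall v r)
    rw [← h2]
    have h3 : (@WithLp.ofLp 2 (Fin n → ℝ)) ⁻¹' (Metric.closedBall v r) =
        cube (WithLp.toLp 2 v) r := by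
      ext y
      simp only [Set.mem_preimage, Metric.mem_closedBall, cube, Set.mem_ofPred_eq]
      rw [dist_pi_le_iff hr.le]
      rfl
    rw [h3]
    exact h1 _ r hr
  have hae : ∀ᵐ v : Fin n → ℝ, g v = 0 := by
    filter_upwards [IsUnifLocDoublingMeasure.ae_tendsto_average (μ := (volume : Measure (Fin n → ℝ)))
      hg 1] with v hv
    have h2 := hv (l := Filter.atTop) (fun _ : ℕ => v) (fun j : ℕ => 1 / ((j : ℝ) + 1)) ?_ ?_
    · have h3 : (fun j : ℕ => ⨍ y in Metric.closedBall v (1 / ((j : ℝ) + 1)), g y) =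
          fun _ => (0 : ℂ) := by
        funext j
        rw [setAverage_eq, hball v _ (by positivity), smul_zero]
      rw [h3] at h2
      exact tendsto_nhds_unique h2 tendsto_const_nhds
    · rw [tendsto_nhdsWithin_iff]
      exact ⟨tendsto_one_div_add_atTop_nhds_zero_nat,
        Filter.Eventually.of_forall fun j => by
          show (0 : ℝ) < 1 / ((j : ℝ) + 1)
          positivity⟩
    · refine Filter.Eventually.of_forall fun j => ?_
      apply Metric.mem_closedBall_self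
      positivity
  apply Lp.ext
  have h4 := hmp.quasiMeasurePreserving.ae hae
  filter_upwards [h4, Lp.coeFn_zero ℂ 2 (volume : Measure (E n))] with x hx hx0
  rw [hx0]
  exact hx

theorem necA {m : E n → ℂ} (hm : BM m) (hm0 : ∀ᵐ ξ ∂(volume : Measure (E n)), m ξ ≠ 0)
    (hh : ∀ (t : ℝ) (ξ : E n), 0 < t → m (t • ξ) = m ξ) :
    ∃ (z₀ : E n) (ρ₀ c₀ : ℝ), 0 < ρ₀ ∧ 0 < c₀ ∧ ∀ (y : E n) (δ : ℝ), 0 < δ →
      c₀ * δ ^ n ≤ ‖⟪indicatorConstLp 2 (cube_meas (y + δ • z₀) (δ * ρ₀))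
          (cube_vol_ne_top (y + δ • z₀) (δ * ρ₀)) (1 : ℂ),
        T m (indicatorConstLp 2 (cube_meas y δ) (cube_vol_ne_top y δ) (1 : ℂ))⟫_ℂ‖ := by
  -- the cube `B`
  have hex : ∃ (z₀ : E n) (ρ₀ : ℝ), 0 < ρ₀ ∧
      ⟪(indicatorConstLp 2 (cube_meas z₀ ρ₀) (cube_vol_ne_top z₀ ρ₀) (1 : ℂ) : H n),
        T m (indicatorConstLp 2 (cube_meas 0 1) (cube_vol_ne_top 0 1) (1 : ℂ))⟫_ℂ ≠ 0 := by
    by_contra hcon
    push Not at hcon
    have hb := NecA_zero _ hcon
    have h1 : (𝓕 (indicatorConstLp 2 (cube_meas (n := n) 0 1) (cube_vol_ne_top 0 1) (1 : ℂ) : H n)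
        : H n) = 0 := by
      have h2 : M m (𝓕 (indicatorConstLp 2 (cube_meas (n := n) 0 1) (cube_vol_ne_top 0 1) (1 : ℂ)
          : H n) : H n) = 0 := by
        rw [← fourier_T, hb]
        exact map_zero (Lp.fourierTransformₗᵢ (E n) ℂ)
      apply Lp.ext
      filter_upwards [hm0, M_apply hm (𝓕 (indicatorConstLp 2 (cube_meas (n := n) 0 1)
        (cube_vol_ne_top 0 1) (1 : ℂ) : H n) : H n), Lp.coeFn_zero ℂ 2 (volume : Measure (E n))]
        with ξ h3 h4 h5
      rw [h2, h5] at h4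
      rw [h5]
      rcases mul_eq_zero.1 h4.symm with h6 | h6
      · exact absurd h6 h3
      · rw [h6]
        rfl
    have h2 : ‖(indicatorConstLp 2 (cube_meas (n := n) 0 1) (cube_vol_ne_top 0 1) (1 : ℂ) : H n)‖
        = 0 := by
      rw [← Lp.norm_fourier_eq, h1, norm_zero]
    rw [norm_indicatorConstLp (by norm_num) (by norm_num)] at h2
    have h3 : 0 < volume.real (cube (0 : E n) 1) :=
      ENNReal.toReal_pos (cube_vol_pos 0 one_pos).ne' (cube_vol_ne_top 0 1)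
    have h4 : 0 < volume.real (cube (0 : E n) 1) ^ (1 / (2 : ℝ≥0∞).toReal) := by positivity
    rw [norm_one, one_mul] at h2
    exact h4.ne' h2
  obtain ⟨z₀, ρ₀, hρ₀, hne⟩ := hex
  refine ⟨z₀, ρ₀, _, hρ₀, norm_pos_iff.2 hne, fun y δ hδ => ?_⟩
  have hQ : ∀ ξ, NecA_F y δ ξ =
      (δ : ℂ) ^ n * ((Real.fourierChar (-⟪y, ξ⟫_ℝ) : ℂ) * NecA_F 0 1 (δ • ξ)) := by
    intro ξ
    rw [← NecA_scale y 0 1 hδ ξ, smul_zero, add_zero, mul_one]
  rw [NecA_inner hm, NecA_inner hm]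
  have h1 : ∫ ξ, conj (NecA_F (y + δ • z₀) (δ * ρ₀) ξ) * (m ξ * NecA_F y δ ξ) =
      (δ : ℂ) ^ n * ((δ : ℂ) ^ n * ∫ ξ, (fun ξ => conj (NecA_F z₀ ρ₀ ξ) * (m ξ * NecA_F 0 1 ξ))
        ((0 : E n) + δ • ξ)) := by
    rw [← integral_const_mul, ← integral_const_mul]
    apply integral_congr_ae
    refine Filter.Eventually.of_forall fun ξ => ?_
    simp only [zero_add]
    rw [NecA_scale y z₀ ρ₀ hδ ξ, hQ ξ, hh δ ξ hδ]
    have h2 : conj (Real.fourierChar (-⟪y, ξ⟫_ℝ) : ℂ) * (Real.fourierChar (-⟪y, ξ⟫_ℝ) : ℂ) = 1 := by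
      rw [mul_comm, Complex.mul_conj, Complex.normSq_eq_norm_sq, Circle.norm_coe]
      norm_num
    rw [map_mul, map_mul, map_pow, Complex.conj_ofReal]
    linear_combination ((δ : ℂ) ^ n * (δ : ℂ) ^ n * conj (NecA_F z₀ ρ₀ (δ • ξ)) * m ξ *
      NecA_F 0 1 (δ • ξ)) * h2
  rw [h1, ← NecA_change (fun ξ => conj (NecA_F z₀ ρ₀ ξ) * (m ξ * NecA_F 0 1 ξ)) 0 hδ, norm_mul,
    norm_pow, Complex.norm_real, Real.norm_eq_abs, abs_of_pos hδ, mul_comm]

end Pool.Agent.helper12.AI
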