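import Pool.Agent.helper12.RT.Spec

/-!
# AI: `A_∞` weights, biLipschitz maps, the Beurling transform (definitions of the final statement)
-/

set_option autoImplicit false

open MeasureTheory

namespace Pool.Agent.helper12.AI

open Pool.Agent.helper12.RT

variable {n : ℕ}

/-- `s dx` is an `A_∞` measure, `0 < s < ∞`, with `[s]_(A_∞) ≤ C` -/
structure AinfLe (s : E n → ℝ) (C : ℝ) : Prop where
  meas : Measurable s
  pos : ∀ x, 0 < s x
  loc : LocallyIntegrable s volume
  logloc : LocallyIntegrable (fun x => Real.log (s x)) volume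
  le : ∀ (x : E n) (r : ℝ), 0 < r →
    (⨍ y in cube x r, s y) * Real.exp (⨍ y in cube x r, Real.log (1 / s y)) ≤ C

/-- `Φ` is a homeomorphism, and the Lipschitz constants of `Φ` and of its inverse are at most `L` -/
def BiLip (Φ : E n → E n) (L : ℝ) : Prop :=
  Function.Surjective Φ ∧ ∀ x y, dist (Φ x) (Φ y) ≤ L * dist x y ∧ dist x y ≤ L * dist (Φ x) (Φ y)

/-- the symbol `(ξ₁ - i ξ₂)² / |ξ|²` of the Beurling transform -/
noncomputable def beurlingSymbol (ξ : E 2) : ℂ := ((ξ 0 : ℂ) - Complex.I * (ξ 1 : ℂ)) ^ 2 / (‖ξ‖ : ℂ) ^ 2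

end Pool.Agent.helper12.AI
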