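import Pool.Agent.helper12.AI.Time
import Pool.Agent.helper12.RT.OpsT

/-!
# AI-SufA: bounded weights

PROOF.  (1) For `u, v` bounded and integrable (as elements of `H n`, `toLp`): `⟪Tr (mono β) u, v⟫ = ∫ mono β conj (𝓕 u) 𝓕 v` (`T_inner`/`fourier_T`, `Lp.inner_fourier_eq`, `L2.inner_def`, `ft_ae`), bounded by `time`.
(2) Density: continuous functions with compact support (bounded and integrable) are dense in `L²` (`MemLp.exists_hasCompactSupport_eLpNorm_sub_le` or
`ContinuousMap.toLp_denseRange`-type lemma), and both sides are continuous in `u, v ∈ L²` (`1/s`, `1/w` bounded; `∫ ‖u‖² / s = Q (1/s) u`).  So for all `u v : H n`: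
`‖⟪Tr (mono β) u, v⟫‖ ≤ C √A exp (2 c) √(Q (1/s) u) √(Q (1/w) v)`.
(3) `v = Mr w (Tr (mono β) u)`: the left side is `Q w (Tr (mono β) u)` (`Q_eq_inner`), and `Q (1/w) v = Q w (Tr ..)` (`Q_Mr`).  Divide.
-/

set_option autoImplicit false

open MeasureTheory FourierTransform
open scoped ENNReal InnerProductSpace ComplexConjugate

namespace Pool.Agent.helper12.AI

open Pool.Agent.helper12.RT

variable {n : ℕ}

theorem mono_abs (β : Fin n → ℕ) (ξ : E n) : |mono β ξ| ≤ 1 := by
  unfold mono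
  rw [abs_div, Finset.abs_prod, abs_of_nonneg (pow_nonneg (norm_nonneg ξ) _)]
  apply div_le_one_of_le₀ _ (pow_nonneg (norm_nonneg ξ) _)
  rw [← Finset.prod_pow_eq_pow_sum]
  apply Finset.prod_le_prod
  · intro i _
    exact abs_nonneg _
  · intro i _
    rw [abs_pow]
    exact pow_le_pow_left₀ (abs_nonneg _) (PiLp.norm_apply_le ξ i) _

theorem mono_bmr (β : Fin n → ℕ) : BMr (mono β : E n → ℝ) := by
  refine ⟨?_, 1, mono_abs β⟩
  unfold mono
  apply Measurable.div
  · apply Finset.measurable_fun_prod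
    intro i _
    apply Measurable.pow_const
    exact ((EuclideanSpace.proj i : E n →L[ℝ] ℝ).continuous).measurable
  · exact (measurable_norm.pow_const _)

theorem inner_Tr_mono (β : Fin n → ℕ) {u v : E n → ℂ} (u1 : Integrable u) (u2 : MemLp u 2 volume)
    (v1 : Integrable v) (v2 : MemLp v 2 volume) :
    ⟪Tr (mono β) (u2.toLp u), v2.toLp v⟫_ℂ = ∫ ξ, (mono β ξ : ℂ) * (conj (𝓕 u ξ) * 𝓕 v ξ) := by
  rw [← Lp.inner_fourier_eq, Tr, fourier_T, L2.inner_def]
  apply integral_congr_ae
  filter_upwards [M_apply (mono_bmr β).bm (𝓕 (u2.toLp u)), ft_ae u1 u2, ft_ae v1 v2] with x h1 h2 h3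
  rw [h1, h2, h3]
  simp only [RCLike.inner_apply, map_mul, Complex.conj_ofReal]
  ring

theorem Q_toLp {p : E n → ℝ} {u : E n → ℂ} (u2 : MemLp u 2 volume) :
    Q p (u2.toLp u) = ∫ x, p x * ‖u x‖ ^ 2 := by
  unfold Q
  apply integral_congr_ae
  filter_upwards [u2.coeFn_toLp] with x h1
  rw [h1]

theorem Q_continuous {p : E n → ℝ} (hp : BMr p) : Continuous fun u : H n => Q p u := by
  have h1 : (fun u : H n => Q p u) = fun u : H n => (⟪u, Mr p u⟫_ℂ).re := by
    funext u
    exact Q_eq_inner hp u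
  rw [h1]
  exact Complex.continuous_re.comp (continuous_id.inner (Mr p).continuous)

theorem sufA (β : Fin n → ℕ) (hβ : Even (∑ j, β j)) (hβ0 : 0 < ∑ j, β j) :
    ∃ C : ℝ, 0 ≤ C ∧ ∀ (s w : E n → ℝ) (m c A : ℝ), BMr s → BMr w → 0 < m → (∀ x, m ≤ s x) →
      (∀ x, m ≤ w x) → 0 ≤ c → HA c s → HA c w → (∀ t : ℝ, 0 < t → ∀ x, P t s x * P t w x ≤ A) →
      ∀ u : H n, Q w (Tr (mono β) u) ≤ (C * √A * Real.exp (2 * c)) ^ 2 *
        Q (fun x => 1 / s x) u := by
  obtain ⟨C, hC, HT⟩ := time β hβ hβ0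
  refine ⟨C, hC, ?_⟩
  intro s w m c A hs hw hm hms hmw hc hsc hwc hA u
  set K : ℝ := C * √A * Real.exp (2 * c) with hK
  have hK0 : 0 ≤ K := by positivity
  have hs' : BMr fun x => 1 / s x := by
    have := hs.inv hm hms
    simpa [one_div] using this
  have hw' : BMr fun x => 1 / w x := by
    have := hw.inv hm hmw
    simpa [one_div] using this
  have hs0 : ∀ x, 0 ≤ 1 / s x := fun x =>
    div_nonneg zero_le_one (hm.le.trans (hms x))
  have key : ∀ u v : H n, ‖⟪Tr (mono β) u, v⟫_ℂ‖ ≤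
      K * (√(Q (fun x => 1 / s x) u) * √(Q (fun x => 1 / w x) v)) := by
    intro u v
    refine DenseRange.induction_on₂ (p := fun u v : H n => ‖⟪Tr (mono β) u, v⟫_ℂ‖ ≤
      K * (√(Q (fun x => 1 / s x) u) * √(Q (fun x => 1 / w x) v)))
      (Lp.simpleFunc.denseRange (E := ℂ) (μ := (volume : Measure (E n))) (p := 2)
        (by norm_num)) ?_ ?_ u v
    · apply isClosed_le
      · exact (((Tr (mono β)).continuous.comp continuous_fst).inner continuous_snd).norm
      · exact continuous_const.mul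
          ((Real.continuous_sqrt.comp ((Q_continuous hs').comp continuous_fst)).mul
            (Real.continuous_sqrt.comp ((Q_continuous hw').comp continuous_snd)))
    · intro a b
      have ha2 : MemLp (Lp.simpleFunc.toSimpleFunc a) 2 volume := Lp.simpleFunc.memLp a
      have hb2 : MemLp (Lp.simpleFunc.toSimpleFunc b) 2 volume := Lp.simpleFunc.memLp b
      have ha1 : Integrable (Lp.simpleFunc.toSimpleFunc a) :=
        (SimpleFunc.memLp_iff_integrable (by norm_num) (by norm_num)).1 ha2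
      have hb1 : Integrable (Lp.simpleFunc.toSimpleFunc b) :=
        (SimpleFunc.memLp_iff_integrable (by norm_num) (by norm_num)).1 hb2
      have hab : BM (Lp.simpleFunc.toSimpleFunc a) :=
        ⟨(Lp.simpleFunc.toSimpleFunc a).measurable,
          (Lp.simpleFunc.toSimpleFunc a).exists_forall_norm_le⟩
      have hbb : BM (Lp.simpleFunc.toSimpleFunc b) :=
        ⟨(Lp.simpleFunc.toSimpleFunc b).measurable,
          (Lp.simpleFunc.toSimpleFunc b).exists_forall_norm_le⟩
      have hae : (a : H n) = ha2.toLp _ := by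
        apply Lp.ext
        exact (Lp.simpleFunc.toSimpleFunc_eq_toFun a).symm.trans ha2.coeFn_toLp.symm
      have hbe : (b : H n) = hb2.toLp _ := by
        apply Lp.ext
        exact (Lp.simpleFunc.toSimpleFunc_eq_toFun b).symm.trans hb2.coeFn_toLp.symm
      rw [hae, hbe, inner_Tr_mono β ha1 ha2 hb1 hb2, Q_toLp, Q_toLp]
      have h1 := HT s w m c A hs hw hm hms hmw hc hsc hwc hA _ _ hab ha1 hbb hb1
      refine h1.trans (le_of_eq ?_)
      rw [hK]
      congr 3
      · congr 1
        funext x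
        ring
      · congr 1
        funext x
        ring
  have h1 := key u (Mr w (Tr (mono β) u))
  have h2 : Q (fun x => 1 / w x) (Mr w (Tr (mono β) u)) = Q w (Tr (mono β) u) := by
    rw [Q_Mr hw]
    congr 1
    funext x
    have : w x ≠ 0 := (lt_of_lt_of_le hm (hmw x)).ne'
    field_simp
  rw [h2] at h1
  have h3 : Q w (Tr (mono β) u) ≤ ‖⟪Tr (mono β) u, Mr w (Tr (mono β) u)⟫_ℂ‖ := by
    rw [Q_eq_inner hw]
    exact Complex.re_le_norm _
  have hX0 : 0 ≤ Q w (Tr (mono β) u) := Q_nonneg (fun x => hm.le.trans (hmw x)) _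
  have hB0 : 0 ≤ Q (fun x => 1 / s x) u := Q_nonneg hs0 _
  set X := Q w (Tr (mono β) u) with hX
  set B := Q (fun x => 1 / s x) u with hB
  have h4 : X ≤ K * (√B * √X) := h3.trans h1
  have hsX : √X ^ 2 = X := Real.sq_sqrt hX0
  have hsB : √B ^ 2 = B := Real.sq_sqrt hB0
  rcases (Real.sqrt_nonneg X).eq_or_lt with h5 | h5
  · have : X = 0 := by rw [← hsX, ← h5]; norm_num
    rw [this]
    positivity
  · have h6 : √X ≤ K * √B := by
      have : √X * √X ≤ (K * √B) * √X := by nlinarith
      exact le_of_mul_le_mul_right this h5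
    have h7 : √X ^ 2 ≤ (K * √B) ^ 2 := pow_le_pow_left₀ (Real.sqrt_nonneg X) h6 2
    rw [hsX, mul_pow, hsB] at h7
    exact h7

end Pool.Agent.helper12.AI
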