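import Pool.Agent.helper12.AI.SufA
import Pool.Agent.helper12.AI.CubeHeat
import Pool.Agent.helper12.AI.Trunc

/-!
# AI-SufB: `A_∞` data and `A_2` imply the norm inequality

PROOF.  `K' = K + 3` (`Good` and `A2` are monotone in `K`), `c, A` from `heat_HA`, `heat_A2` for `K'`, `C` from `sufA`; `N = C √A exp (2 c)`.  For `M ≥ 1` put `s_M = tr M s`, `w_M = tr M w`; `sufA` (with `m = M⁻¹`) gives for `u : H n`
`∫ w_M |T u|² ≤ N² ∫ |u|² / s_M` (write `Q` as a lintegral; `Tr (mono β) = T (fun ξ => mono β ξ)`).  Since `w_M ≥ min w M`, `1 / s_M ≤ 1 / s + M⁻¹`: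
`∫⁻ min (w x) M ‖T u‖² ≤ N² (∫⁻ ‖u‖² / s + M⁻¹ ‖u‖²)`.  Let `M → ∞` through the natural numbers: monotone convergence (`lintegral_iSup` or `lintegral_tendsto_of_tendsto_of_monotone`; or Fatou).
-/

set_option autoImplicit false

open MeasureTheory FourierTransform
open scoped ENNReal InnerProductSpace ComplexConjugate

namespace Pool.Agent.helper12.AI

open Pool.Agent.helper12.RT

variable {n : ℕ}

theorem Good.mono {K K' : ℝ} (hKK : K ≤ K') {s : E n → ℝ} (hs : Good K s) : Good K' s := by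
  refine ⟨hs.meas, hs.pos, fun x r hr => ?_⟩
  obtain ⟨κ, h1, h2⟩ := hs.osc x r hr
  refine ⟨κ, h1.trans ?_, h2.trans ?_⟩
  · exact mul_le_mul_left (ENNReal.ofReal_le_ofReal hKK) _
  · exact mul_le_mul_left
      (ENNReal.ofReal_le_ofReal (mul_le_mul_of_nonneg_right hKK (Real.exp_pos κ).le)) _

theorem A2.mono {K K' : ℝ} (hKK : K ≤ K') {s w : E n → ℝ} (h : A2 K s w) : A2 K' s w :=
  fun x r hr => (h x r hr).trans (mul_le_mul_left (ENNReal.ofReal_le_ofReal hKK) _)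

theorem SufB_ofReal_Q {p : E n → ℝ} (hp : BMr p) (h : ∀ x, 0 ≤ p x) (u : H n) :
    ENNReal.ofReal (Q p u) = ∫⁻ x, ENNReal.ofReal (p x) * ‖u x‖ₑ ^ 2 := by
  unfold Q
  rw [ofReal_integral_eq_lintegral_ofReal (Q_integrable hp u)
    (Filter.Eventually.of_forall fun x => mul_nonneg (h x) (sq_nonneg _))]
  apply lintegral_congr
  intro x
  rw [ENNReal.ofReal_mul (h x), ENNReal.ofReal_pow (norm_nonneg _), ofReal_norm]

theorem SufB_inv_tr {M : ℝ} (hM : 1 ≤ M) {s : E n → ℝ} (x : E n) (hs : 0 < s x) :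
    1 / tr M s x ≤ 1 / s x + M⁻¹ := by
  have hM0 : 0 < M := lt_of_lt_of_le one_pos hM
  have hMi : 0 < M⁻¹ := inv_pos.2 hM0
  have hMM : M⁻¹ ≤ M := (inv_le_one_of_one_le₀ hM).trans hM
  unfold tr
  rcases le_total (s x) M with h | h
  · rw [min_eq_left h]
    have h1 : 1 / max M⁻¹ (s x) ≤ 1 / s x := one_div_le_one_div_of_le hs (le_max_right _ _)
    linarith
  · rw [min_eq_right h, max_eq_right hMM, one_div]
    have : 0 < 1 / s x := one_div_pos.2 hs
    linarith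

theorem sufB (β : Fin n → ℕ) (hβ : Even (∑ j, β j)) (hβ0 : 0 < ∑ j, β j) {K : ℝ} (hK : 0 ≤ K) :
    ∃ N : ℝ, 0 ≤ N ∧ ∀ s w : E n → ℝ, Good K s → Good K w → A2 K s w →
      NB (fun ξ => (mono β ξ : ℂ)) s w N := by
  obtain ⟨c, hc, hHA⟩ := heat_HA n (K := K + 3) (by linarith)
  obtain ⟨A, _, hA2⟩ := heat_A2 n (K := K + 3) (by linarith)
  obtain ⟨C, hC, hmain⟩ := sufA β hβ hβ0
  obtain ⟨N, hN⟩ : ∃ N, N = C * √A * Real.exp (2 * c) := ⟨_, rfl⟩
  refine ⟨N, by rw [hN]; positivity, fun s w hs hw h2 u _ => ?_⟩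
  obtain ⟨v, hv⟩ : ∃ v : H n, v = T (fun ξ => (mono β ξ : ℂ)) u := ⟨_, rfl⟩
  rw [← hv]
  obtain ⟨I, hI⟩ : ∃ I, I = ∫⁻ x, ENNReal.ofReal (1 / s x) * ‖u x‖ₑ ^ 2 := ⟨_, rfl⟩
  obtain ⟨J, hJ⟩ : ∃ J, J = ∫⁻ x, ‖u x‖ₑ ^ 2 := ⟨_, rfl⟩
  have hJt : J ≠ ∞ := by
    have h1 := SufB_ofReal_Q (BMr.const (n := n) 1) (fun _ => zero_le_one) u
    simp only [ENNReal.ofReal_one, one_mul] at h1
    rw [hJ, ← h1]
    exact ENNReal.ofReal_ne_top
  rw [← hI]
  have hstep : ∀ M : ℝ, 1 ≤ M → ∫⁻ x, ENNReal.ofReal (min (w x) M) * ‖v x‖ₑ ^ 2 ≤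
      ENNReal.ofReal (N ^ 2) * (I + ENNReal.ofReal M⁻¹ * J) := by
    intro M hM
    have hM0 : 0 < M := lt_of_lt_of_le one_pos hM
    have hMi : 0 < M⁻¹ := inv_pos.2 hM0
    have gs : Good (K + 3) (tr M s) := (tr_good hK hs hM).mono (by linarith)
    have gw : Good (K + 3) (tr M w) := (tr_good hK hw hM).mono (by linarith)
    have bs := tr_bmr hM hs.meas
    have bw := tr_bmr hM hw.meas
    have ls : ∀ x, M⁻¹ ≤ tr M s x := fun x => (tr_bounds hM s x).1
    have lw : ∀ x, M⁻¹ ≤ tr M w x := fun x => (tr_bounds hM w x).1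
    have h3 := hmain (tr M s) (tr M w) M⁻¹ c A bs bw hMi ls lw hc (hHA _ bs _ hMi ls gs)
      (hHA _ bw _ hMi lw gw)
      (hA2 _ _ bs bw _ hMi ls lw gs gw (tr_A2 hK hs hw h2 hM)) u
    have e : Tr (mono β) u = v := hv.symm
    rw [e, ← hN] at h3
    have hbi : BMr fun x => 1 / tr M s x := by
      have := bs.inv hMi ls
      simpa [one_div] using this
    have h4 := ENNReal.ofReal_le_ofReal h3
    rw [ENNReal.ofReal_mul (sq_nonneg N), SufB_ofReal_Q bw (fun x => hMi.le.trans (lw x)),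
      SufB_ofReal_Q hbi (fun x => one_div_nonneg.2 (hMi.le.trans (ls x)))] at h4
    have hum : AEMeasurable (fun x => ‖u x‖ₑ ^ 2) volume :=
      (Lp.aestronglyMeasurable u).enorm.pow_const 2
    calc ∫⁻ x, ENNReal.ofReal (min (w x) M) * ‖v x‖ₑ ^ 2
        ≤ ∫⁻ x, ENNReal.ofReal (tr M w x) * ‖v x‖ₑ ^ 2 := by
          apply lintegral_mono
          intro x
          exact mul_le_mul_left (ENNReal.ofReal_le_ofReal (le_max_right _ _)) _
      _ ≤ _ := h4
      _ ≤ ENNReal.ofReal (N ^ 2) * ∫⁻ x, (ENNReal.ofReal (1 / s x) * ‖u x‖ₑ ^ 2 +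
            ENNReal.ofReal M⁻¹ * ‖u x‖ₑ ^ 2) := by
          apply mul_le_mul_right
          apply lintegral_mono
          intro x
          change ENNReal.ofReal (1 / tr M s x) * ‖u x‖ₑ ^ 2 ≤
            ENNReal.ofReal (1 / s x) * ‖u x‖ₑ ^ 2 + ENNReal.ofReal M⁻¹ * ‖u x‖ₑ ^ 2
          rw [← add_mul, ← ENNReal.ofReal_add (one_div_nonneg.2 (hs.pos x).le) hMi.le]
          exact mul_le_mul_left (ENNReal.ofReal_le_ofReal (SufB_inv_tr hM x (hs.pos x))) _
      _ = ENNReal.ofReal (N ^ 2) * (I + ENNReal.ofReal M⁻¹ * J) := by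
          rw [lintegral_add_right' _ (hum.const_mul _), lintegral_const_mul'' _ hum, ← hI, ← hJ]
  have hlim1 : Filter.Tendsto
      (fun k : ℕ => ∫⁻ x, ENNReal.ofReal (min (w x) ((k : ℝ) + 1)) * ‖v x‖ₑ ^ 2) Filter.atTop
      (nhds (∫⁻ x, ENNReal.ofReal (w x) * ‖v x‖ₑ ^ 2)) := by
    apply lintegral_tendsto_of_tendsto_of_monotone
    · intro k
      exact ((ENNReal.measurable_ofReal.comp (hw.meas.min measurable_const)).aemeasurable).mul
        ((Lp.aestronglyMeasurable v).enorm.pow_const 2)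
    · apply Filter.Eventually.of_forall
      intro x k l hkl
      apply mul_le_mul_left
      apply ENNReal.ofReal_le_ofReal
      have : (k : ℝ) ≤ l := by exact_mod_cast hkl
      exact min_le_min_left _ (by linarith)
    · apply Filter.Eventually.of_forall
      intro x
      apply tendsto_const_nhds.congr'
      obtain ⟨k0, hk0⟩ := exists_nat_ge (w x)
      filter_upwards [Filter.eventually_ge_atTop k0] with k hk
      have : (k0 : ℝ) ≤ k := by exact_mod_cast hk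
      rw [min_eq_left (by linarith)]
  have hlim2 : Filter.Tendsto
      (fun k : ℕ => ENNReal.ofReal (N ^ 2) * (I + ENNReal.ofReal ((k : ℝ) + 1)⁻¹ * J)) Filter.atTop
      (nhds (ENNReal.ofReal (N ^ 2) * (I + 0 * J))) := by
    apply ENNReal.Tendsto.const_mul _ (Or.inr ENNReal.ofReal_ne_top)
    apply Filter.Tendsto.add tendsto_const_nhds
    apply ENNReal.Tendsto.mul_const _ (Or.inr hJt)
    have h5 : Filter.Tendsto (fun k : ℕ => ((k : ℝ) + 1)⁻¹) Filter.atTop (nhds 0) := by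
      simpa [one_div] using tendsto_one_div_add_atTop_nhds_zero_nat (𝕜 := ℝ)
    have h6 := (ENNReal.continuous_ofReal.tendsto 0).comp h5
    rw [ENNReal.ofReal_zero] at h6
    exact h6
  rw [zero_mul, add_zero] at hlim2
  exact le_of_tendsto_of_tendsto' hlim1 hlim2 fun k => hstep _ (by
    have : (0 : ℝ) ≤ k := Nat.cast_nonneg k
    linarith)

end Pool.Agent.helper12.AI
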