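import Pool.Agent.helper12.AI.SufB
import Pool.Agent.helper12.AI.NBb

/-!
# AI-Sym: the symbols

PROOFS.  `rieszSymbol β ξ = i^|β| ∏ ξ_j^β_j / |ξ|^|β|`.  `bsym`: expand the square, `ξ₁²/|ξ|² = mono ![2,0]`, `ξ₂²/|ξ|² = mono ![0,2]`, `ξ₁ ξ₂/|ξ|² = mono ![1,1]`.  Nonvanishing a.e.: the zero set is contained in finitely many hyperplanes `ξ_j = 0` (null sets) resp. `{0}`
(`n = 2`; `beurlingSymbol ξ ≠ 0` for `ξ ≠ 0`).  Homogeneity: numerator and denominator have the same degree.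
-/

set_option autoImplicit false

open MeasureTheory FourierTransform
open scoped ENNReal InnerProductSpace ComplexConjugate

namespace Pool.Agent.helper12.AI

open Pool.Agent.helper12.RT

variable {n : ℕ}

private theorem Sym_coord (j : Fin n) : ∀ᵐ ξ ∂(volume : Measure (E n)), ξ j ≠ 0 := by
  have h1 : (LinearMap.ker (EuclideanSpace.projₗ j : E n →ₗ[ℝ] ℝ)) ≠ ⊤ := by
    intro h
    have h2 : EuclideanSpace.single j (1 : ℝ) ∈
        LinearMap.ker (EuclideanSpace.projₗ j : E n →ₗ[ℝ] ℝ) := by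
      rw [h]
      exact Submodule.mem_top
    rw [LinearMap.mem_ker] at h2
    have h3 : (EuclideanSpace.projₗ j : E n →ₗ[ℝ] ℝ) (EuclideanSpace.single j (1 : ℝ)) = 1 := by
      simp
    rw [h3] at h2
    exact one_ne_zero h2
  have h2 := Measure.addHaar_submodule (volume : Measure (E n)) _ h1
  rw [ae_iff]
  convert h2 using 2
  ext ξ
  simp

private theorem Sym_norm {ξ : E n} {j : Fin n} (h : ξ j ≠ 0) : (‖ξ‖ : ℂ) ≠ 0 := by
  have h1 : ξ ≠ 0 := by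
    intro h0
    apply h
    rw [h0]
    rfl
  have h2 : ‖ξ‖ ≠ 0 := norm_ne_zero_iff.2 h1
  exact_mod_cast h2

private theorem Sym_smul_bm {p : E n → ℂ} (hp : BM p) (c : ℂ) : BM fun ξ => c * p ξ := by
  obtain ⟨h1, C, hC⟩ := hp
  refine ⟨measurable_const.mul h1, ‖c‖ * C, fun x => ?_⟩
  rw [norm_mul]
  exact mul_le_mul_of_nonneg_left (hC x) (norm_nonneg c)

private theorem Sym_add_bm {p q : E n → ℂ} (hp : BM p) (hq : BM q) :
    BM fun ξ => p ξ + q ξ := by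
  obtain ⟨h1, C, hC⟩ := hp
  obtain ⟨h2, D, hD⟩ := hq
  exact ⟨h1.add h2, C + D, fun x => (norm_add_le _ _).trans (add_le_add (hC x) (hD x))⟩

private theorem Sym_fac (t : ℝ) (ht : 0 < t) (ξ : E n) : (‖t • ξ‖ : ℂ) = (t : ℂ) * (‖ξ‖ : ℂ) := by
  rw [norm_smul, Real.norm_of_nonneg ht.le]
  push_cast
  rfl

theorem rsym (β : Fin n → ℕ) : ∀ ξ : E n, rieszSymbol β ξ = Complex.I ^ (∑ j, β j) * (mono β ξ : ℂ) := by
  intro ξ
  unfold rieszSymbol mono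
  push_cast
  rw [← Finset.prod_pow_eq_pow_sum, ← Finset.prod_pow_eq_pow_sum, ← Finset.prod_div_distrib,
    ← Finset.prod_mul_distrib]
  refine Finset.prod_congr rfl fun j _ => ?_
  rw [mul_div_assoc, mul_pow, div_pow]

theorem bsym : ∀ ξ : E 2, beurlingSymbol ξ = (mono ![2, 0] ξ : ℂ) + (-1) * (mono ![0, 2] ξ : ℂ) +
    (-2 * Complex.I) * (mono ![1, 1] ξ : ℂ) := by
  intro ξ
  unfold beurlingSymbol mono
  simp only [Fin.prod_univ_two, Fin.sum_univ_two, Matrix.cons_val_zero, Matrix.cons_val_one,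
    pow_zero, mul_one, one_mul, add_zero, zero_add, pow_one]
  push_cast
  have h : ((ξ 0 : ℂ) - Complex.I * (ξ 1 : ℂ)) ^ 2 =
      (ξ 0 : ℂ) ^ 2 - (ξ 1 : ℂ) ^ 2 - 2 * Complex.I * ((ξ 0 : ℂ) * (ξ 1 : ℂ)) := by
    have hI : Complex.I ^ 2 = -1 := Complex.I_sq
    linear_combination (ξ 1 : ℂ) ^ 2 * hI
  rw [h]
  ring

theorem rsym_bm (β : Fin n → ℕ) : BM (rieszSymbol β : E n → ℂ) := by
  have h : (rieszSymbol β : E n → ℂ) = fun ξ => Complex.I ^ (∑ j, β j) * (mono β ξ : ℂ) :=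
    funext (rsym β)
  rw [h]
  exact Sym_smul_bm (mono_bmr β).bm _

theorem bsym_bm : BM beurlingSymbol := by
  have h : beurlingSymbol = fun ξ => (mono ![2, 0] ξ : ℂ) + (-1) * (mono ![0, 2] ξ : ℂ) +
      (-2 * Complex.I) * (mono ![1, 1] ξ : ℂ) := funext bsym
  rw [h]
  exact Sym_add_bm (Sym_add_bm (mono_bmr _).bm (Sym_smul_bm (mono_bmr _).bm _))
    (Sym_smul_bm (mono_bmr _).bm _)

theorem rsym_ne (β : Fin n → ℕ) : ∀ᵐ ξ ∂(volume : Measure (E n)), rieszSymbol β ξ ≠ 0 := by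
  have h : ∀ᵐ ξ ∂(volume : Measure (E n)), ∀ j, ξ j ≠ 0 := ae_all_iff.2 fun j => Sym_coord j
  filter_upwards [h] with ξ hξ
  unfold rieszSymbol
  rw [Finset.prod_ne_zero_iff]
  intro j _
  apply pow_ne_zero
  exact div_ne_zero (mul_ne_zero Complex.I_ne_zero (Complex.ofReal_ne_zero.2 (hξ j)))
    (Sym_norm (hξ j))

theorem bsym_ne : ∀ᵐ ξ ∂(volume : Measure (E 2)), beurlingSymbol ξ ≠ 0 := by
  filter_upwards [Sym_coord (n := 2) 0] with ξ hξ
  unfold beurlingSymbol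
  refine div_ne_zero (pow_ne_zero _ ?_) (pow_ne_zero _ (Sym_norm hξ))
  intro h
  apply hξ
  have h1 := congrArg Complex.re h
  simpa using h1

theorem rsym_homog (β : Fin n → ℕ) (t : ℝ) (ξ : E n) (ht : 0 < t) :
    rieszSymbol β (t • ξ) = rieszSymbol β ξ := by
  unfold rieszSymbol
  refine Finset.prod_congr rfl fun j _ => ?_
  have ht' : (t : ℂ) ≠ 0 := by exact_mod_cast ht.ne'
  have h1 : (((t • ξ) j : ℝ) : ℂ) = (t : ℂ) * (ξ j : ℂ) := by
    rw [PiLp.smul_apply, smul_eq_mul]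
    push_cast
    rfl
  rw [h1, Sym_fac t ht, show Complex.I * ((t : ℂ) * (ξ j : ℂ)) = (t : ℂ) * (Complex.I * (ξ j : ℂ)) by
    ring, mul_div_mul_left _ _ ht']

theorem bsym_homog (t : ℝ) (ξ : E 2) (ht : 0 < t) : beurlingSymbol (t • ξ) = beurlingSymbol ξ := by
  unfold beurlingSymbol
  have ht' : (t : ℂ) ≠ 0 := by exact_mod_cast ht.ne'
  have h1 : ∀ j, (((t • ξ) j : ℝ) : ℂ) = (t : ℂ) * (ξ j : ℂ) := by
    intro j
    rw [PiLp.smul_apply, smul_eq_mul]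
    push_cast
    rfl
  rw [h1, h1, Sym_fac t ht, show (t : ℂ) * (ξ 0 : ℂ) - Complex.I * ((t : ℂ) * (ξ 1 : ℂ)) =
    (t : ℂ) * ((ξ 0 : ℂ) - Complex.I * (ξ 1 : ℂ)) by ring, mul_pow, mul_pow,
    mul_div_mul_left _ _ (pow_ne_zero 2 ht')]

end Pool.Agent.helper12.AI
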