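import Pool.Agent.helper12.AI.FormB

/-!
# AI-Time: integration over the time

PROOF.  `∑ β = 2 k`, `k ≥ 1`; choose `β = β₁ + β₂` with `0 < ∑ β₁`, `0 < ∑ β₂` (one unit of `β` in `β₁`, the rest in `β₂`; the rest is nonzero because the sum is even).
For `ξ ≠ 0`: `∫_0^∞ t^(k-1) exp (- 2 π t |ξ|²) dt = (k-1)! / (2 π |ξ|²)^k` (`Real.integral_rpow_mul_exp_neg_mul_Ioi` or the natural power version), so
`mono β ξ = c_k ∫_0^∞ t^(k-1) (∏ ξ_j^β_j) exp (- 2 π t |ξ|²) dt`, `c_k = (2 π)^k / (k-1)!`.  Fubini: the function of `(ξ, t)` is absolutely integrable, since the `t`-integral of its norm is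
`|mono β ξ| / c_k ‖𝓕 u‖ ‖𝓕 v‖ ≤ C ‖𝓕 u‖ ‖𝓕 v‖`, integrable (`ft_memLp`); `|mono| ≤ 1`.  So the left side is `c_k ∫_0^∞ t^(k-1) I(t) dt`, `I(t)` the integral in `formB`.
It suffices to bound `∫_(2^(-N))^(2^N)` for every `N` (limit of integrals over increasing sets, `Ioi 0 = ⋃`).  On `[2^(i+1) τ₀, 2^(i+2) τ₀]` use `formB` with `τ = 2^i τ₀` (`2 τ ≤ t ≤ 4 τ`):
`t^(k-1) |I(t)| ≤ C t^(-1) √A a_i b_i` (`(√t)⁻¹ ^ (2 k) = t^(-k)`), and `∫ dt / t = log 2 ≤ 1` over the interval (or length `2 τ` times `1 / (2 τ)`).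
Sum over `i`: Cauchy-Schwarz and `enD` for `u, s` and for `v, w`: `∑ a_i b_i ≤ 3 (2 + 32 exp (2 c)) √(∫ ‖u‖² / s) √(∫ ‖v‖² / w) ≤ 102 exp (2 c) ...` (`c ≥ 0`).
-/

set_option autoImplicit false

open MeasureTheory FourierTransform
open scoped ENNReal InnerProductSpace ComplexConjugate

namespace Pool.Agent.helper12.AI

open Pool.Agent.helper12.RT

variable {n : ℕ}

theorem Time_gamma (l : ℕ) {r : ℝ} (hr : 0 < r) :
    IntegrableOn (fun t : ℝ => t ^ l * Real.exp (-(r * t))) (Set.Ioi 0) ∧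
    ∫ t in Set.Ioi (0 : ℝ), t ^ l * Real.exp (-(r * t)) = (l.factorial : ℝ) / r ^ (l + 1) := by
  have key := Real.integral_rpow_mul_exp_neg_mul_Ioi (a := (l : ℝ) + 1) (r := r)
    (by positivity) hr
  have e : ∀ t : ℝ, t ^ ((l : ℝ) + 1 - 1) = t ^ l := fun t => by
    rw [add_sub_cancel_right, Real.rpow_natCast]
  simp only [e] at key
  have e2 : (1 / r) ^ ((l : ℝ) + 1) = (1 / r) ^ (l + 1) := by
    rw [← Nat.cast_add_one, Real.rpow_natCast]
  rw [Real.Gamma_nat_eq_factorial, e2] at key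
  have key2 : ∫ t in Set.Ioi (0 : ℝ), t ^ l * Real.exp (-(r * t)) =
      (l.factorial : ℝ) / r ^ (l + 1) := by
    rw [key, one_div, inv_pow]
    ring
  refine ⟨?_, key2⟩
  apply Integrable.of_integral_ne_zero
  rw [key2]
  positivity

theorem Time_prod_le (β : Fin n → ℕ) (ξ : E n) : |∏ j, ξ j ^ β j| ≤ ‖ξ‖ ^ (∑ j, β j) := by
  rw [Finset.abs_prod, ← Finset.prod_pow_eq_pow_sum]
  apply Finset.prod_le_prod
  · intro j _
    positivity
  · intro j _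
    rw [abs_pow]
    have h1 : ‖ξ j‖ ≤ ‖ξ‖ := PiLp.norm_apply_le ξ j
    exact pow_le_pow_left₀ (abs_nonneg _) h1 _

/-- the integrand -/
private noncomputable def TG (β : Fin n → ℕ) (l : ℕ) (F : E n → ℂ) (ξ : E n) (t : ℝ) : ℂ :=
  ((t ^ l * Real.exp (-(2 * Real.pi * t * ‖ξ‖ ^ 2)) * ∏ j, ξ j ^ β j : ℝ) : ℂ) * F ξ

private theorem TG_cont (β : Fin n → ℕ) (l : ℕ) {F : E n → ℂ} (hF : Continuous F) :
    Continuous (Function.uncurry (TG β l F)) := by
  unfold TG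
  apply Continuous.mul
  · apply Complex.continuous_ofReal.comp
    apply Continuous.mul
    · apply Continuous.mul
      · exact continuous_snd.pow l
      · apply Real.continuous_exp.comp
        apply Continuous.neg
        exact (continuous_const.mul continuous_snd).mul (continuous_fst.norm.pow 2)
    · apply continuous_finsetProd
      intro j _
      apply Continuous.pow
      exact (EuclideanSpace.proj (𝕜 := ℝ) j).continuous.comp continuous_fst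
  · exact hF.comp continuous_fst

private theorem TG_norm (β : Fin n → ℕ) (l : ℕ) (F : E n → ℂ) (ξ : E n) {t : ℝ} (ht : 0 < t) :
    ‖TG β l F ξ t‖ =
      (t ^ l * Real.exp (-((2 * Real.pi * ‖ξ‖ ^ 2) * t))) * (|∏ j, ξ j ^ β j| * ‖F ξ‖) := by
  unfold TG
  have e : -(2 * Real.pi * t * ‖ξ‖ ^ 2) = -((2 * Real.pi * ‖ξ‖ ^ 2) * t) := by ring
  have e2 : 0 ≤ t ^ l * Real.exp (-((2 * Real.pi * ‖ξ‖ ^ 2) * t)) := by positivity
  rw [norm_mul, Complex.norm_real, norm_mul, e, Real.norm_of_nonneg e2, Real.norm_eq_abs]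
  ring

private theorem TG_eq (β : Fin n → ℕ) (l : ℕ) (F : E n → ℂ) (ξ : E n) (t : ℝ) :
    TG β l F ξ t =
      ((t ^ l * Real.exp (-((2 * Real.pi * ‖ξ‖ ^ 2) * t)) : ℝ) : ℂ) *
        (((∏ j, ξ j ^ β j : ℝ) : ℂ) * F ξ) := by
  unfold TG
  have e : -(2 * Real.pi * t * ‖ξ‖ ^ 2) = -((2 * Real.pi * ‖ξ‖ ^ 2) * t) := by ring
  rw [e, Complex.ofReal_mul, mul_assoc]

private theorem TG_zero (β : Fin n → ℕ) {l : ℕ} (hl : ∑ j, β j = 2 * (l + 1)) :
    ∏ j, (0 : E n) j ^ β j = 0 := by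
  obtain ⟨j, _, hj⟩ : ∃ j ∈ Finset.univ, β j ≠ 0 := by
    apply Finset.exists_ne_zero_of_sum_ne_zero
    omega
  apply Finset.prod_eq_zero (Finset.mem_univ j)
  simp [hj]

private theorem TG_int_t (β : Fin n → ℕ) {l : ℕ} (hl : ∑ j, β j = 2 * (l + 1)) (F : E n → ℂ)
    (ξ : E n) : Integrable (fun t => TG β l F ξ t) (volume.restrict (Set.Ioi 0)) ∧
      ∫ t in Set.Ioi (0 : ℝ), TG β l F ξ t =
        (((l.factorial : ℝ) / (2 * Real.pi) ^ (l + 1) : ℝ) : ℂ) * ((mono β ξ : ℂ) * F ξ) ∧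
      ∫ t in Set.Ioi (0 : ℝ), ‖TG β l F ξ t‖ ≤
        (l.factorial : ℝ) / (2 * Real.pi) ^ (l + 1) * ‖F ξ‖ := by
  have hpi := Real.pi_pos
  by_cases hξ : ξ = 0
  · subst hξ
    have h0 : ∀ t, TG β l F 0 t = 0 := fun t => by
      rw [TG_eq, TG_zero β hl]
      simp
    have hm : mono β (0 : E n) = 0 := by
      unfold mono
      rw [TG_zero β hl, zero_div]
    simp only [h0, hm]
    refine ⟨integrable_zero _ _ _, by simp, ?_⟩
    simp only [norm_zero, integral_zero]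
    positivity
  · have hn : 0 < ‖ξ‖ := norm_pos_iff.2 hξ
    have hr : 0 < 2 * Real.pi * ‖ξ‖ ^ 2 := by positivity
    obtain ⟨g1, g2⟩ := Time_gamma l hr
    have g3 : (l.factorial : ℝ) / (2 * Real.pi * ‖ξ‖ ^ 2) ^ (l + 1) =
        (l.factorial : ℝ) / (2 * Real.pi) ^ (l + 1) * (‖ξ‖ ^ (∑ j, β j))⁻¹ := by
      rw [hl, pow_mul, mul_pow]
      field_simp
    refine ⟨?_, ?_, ?_⟩
    · simp only [TG_eq]
      exact (Integrable.ofReal (𝕜 := ℂ) g1).mul_const _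
    · simp only [TG_eq]
      have g4 : ∫ t in Set.Ioi (0 : ℝ),
          ((t ^ l * Real.exp (-((2 * Real.pi * ‖ξ‖ ^ 2) * t)) : ℝ) : ℂ) =
          ((∫ t in Set.Ioi (0 : ℝ), t ^ l * Real.exp (-((2 * Real.pi * ‖ξ‖ ^ 2) * t)) : ℝ) : ℂ) :=
        integral_ofReal
      rw [integral_mul_const, g4, g2, g3]
      unfold mono
      push_cast
      ring
    · have e : ∫ t in Set.Ioi (0 : ℝ), ‖TG β l F ξ t‖ = ∫ t in Set.Ioi (0 : ℝ),
          (t ^ l * Real.exp (-((2 * Real.pi * ‖ξ‖ ^ 2) * t))) * (|∏ j, ξ j ^ β j| * ‖F ξ‖) :=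
        setIntegral_congr_fun measurableSet_Ioi fun t ht => TG_norm β l F ξ ht
      rw [e, integral_mul_const, g2, g3]
      have h2 := Time_prod_le β ξ
      have h3 : (‖ξ‖ ^ (∑ j, β j))⁻¹ * |∏ j, ξ j ^ β j| ≤ 1 := by
        rw [inv_mul_le_iff₀ (by positivity), mul_one]
        exact h2
      calc (l.factorial : ℝ) / (2 * Real.pi) ^ (l + 1) * (‖ξ‖ ^ (∑ j, β j))⁻¹ *
          (|∏ j, ξ j ^ β j| * ‖F ξ‖)
          = (l.factorial : ℝ) / (2 * Real.pi) ^ (l + 1) * ‖F ξ‖ *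
            ((‖ξ‖ ^ (∑ j, β j))⁻¹ * |∏ j, ξ j ^ β j|) := by ring
        _ ≤ (l.factorial : ℝ) / (2 * Real.pi) ^ (l + 1) * ‖F ξ‖ * 1 := by
            apply mul_le_mul_of_nonneg_left h3
            positivity
        _ = _ := mul_one _

private theorem TG_fubini (β : Fin n → ℕ) {l : ℕ} (hl : ∑ j, β j = 2 * (l + 1)) {F : E n → ℂ}
    (hF : Continuous F) (hFi : Integrable F) :
    Integrable (fun t : ℝ => ∫ ξ, TG β l F ξ t) (volume.restrict (Set.Ioi 0)) ∧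
    ∫ ξ, (mono β ξ : ℂ) * F ξ = (((2 * Real.pi) ^ (l + 1) / (l.factorial : ℝ) : ℝ) : ℂ) *
      ∫ t in Set.Ioi (0 : ℝ), ∫ ξ, TG β l F ξ t := by
  have hpi := Real.pi_pos
  have hm : AEStronglyMeasurable (Function.uncurry (TG β l F))
      ((volume : Measure (E n)).prod (volume.restrict (Set.Ioi (0 : ℝ)))) :=
    (TG_cont β l hF).aestronglyMeasurable
  have hint : Integrable (Function.uncurry (TG β l F))
      ((volume : Measure (E n)).prod (volume.restrict (Set.Ioi (0 : ℝ)))) := by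
    rw [integrable_prod_iff hm]
    refine ⟨Filter.Eventually.of_forall fun ξ => (TG_int_t β hl F ξ).1, ?_⟩
    refine Integrable.mono' (hFi.norm.const_mul ((l.factorial : ℝ) / (2 * Real.pi) ^ (l + 1)))
      hm.norm.integral_prod_right' (Filter.Eventually.of_forall fun ξ => ?_)
    have h0 : 0 ≤ ∫ t in Set.Ioi (0 : ℝ), ‖TG β l F ξ t‖ := integral_nonneg fun t => norm_nonneg _
    have e : (∫ t in Set.Ioi (0 : ℝ), ‖Function.uncurry (TG β l F) (ξ, t)‖) =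
        ∫ t in Set.Ioi (0 : ℝ), ‖TG β l F ξ t‖ := rfl
    rw [e, Real.norm_of_nonneg h0]
    exact (TG_int_t β hl F ξ).2.2
  refine ⟨hint.integral_prod_right, ?_⟩
  rw [← integral_integral_swap hint]
  have e1 : ∀ ξ, ∫ t in Set.Ioi (0 : ℝ), TG β l F ξ t =
      (((l.factorial : ℝ) / (2 * Real.pi) ^ (l + 1) : ℝ) : ℂ) * ((mono β ξ : ℂ) * F ξ) :=
    fun ξ => (TG_int_t β hl F ξ).2.1
  simp only [e1]
  rw [integral_const_mul, ← mul_assoc, ← Complex.ofReal_mul]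
  have e2 : (2 * Real.pi) ^ (l + 1) / (l.factorial : ℝ) *
      ((l.factorial : ℝ) / (2 * Real.pi) ^ (l + 1)) = 1 := by
    have h1 : (l.factorial : ℝ) ≠ 0 := Nat.cast_ne_zero.2 l.factorial_ne_zero
    field_simp
  rw [e2, Complex.ofReal_one, one_mul]

/-- summation over dyadic intervals -/
private theorem Time_dyadic {h : ℝ → ℝ} (hi : IntegrableOn h (Set.Ioi 0)) {a b : ℝ → ℝ} {D U V : ℝ}
    (ha : ∀ τ, 0 ≤ a τ) (hb : ∀ τ, 0 ≤ b τ) (hD : 0 ≤ D)
    (hh : ∀ τ t, 0 < τ → 2 * τ ≤ t → t ≤ 4 * τ → h t ≤ D * t⁻¹ * (a τ * b τ))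
    (hU : ∀ τ, 0 < τ → ∀ N : ℕ, ∑ i ∈ Finset.range N, a (2 ^ i * τ) ^ 2 ≤ U)
    (hV : ∀ τ, 0 < τ → ∀ N : ℕ, ∑ i ∈ Finset.range N, b (2 ^ i * τ) ^ 2 ≤ V) :
    ∫ t in Set.Ioi (0 : ℝ), h t ≤ D * (√U * √V) := by
  have hlim : Filter.Tendsto (fun N : ℕ => ∫ t in Set.Ioc ((2 : ℝ) ^ N)⁻¹ (2 ^ N), h t)
      Filter.atTop (nhds (∫ t in Set.Ioi (0 : ℝ), h t)) := by
    have hU' : (⋃ N : ℕ, Set.Ioc ((2 : ℝ) ^ N)⁻¹ (2 ^ N)) = Set.Ioi 0 := by
      ext t
      rw [Set.mem_iUnion, Set.mem_Ioi]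
      constructor
      · rintro ⟨N, hN⟩
        exact lt_trans (by positivity) hN.1
      · intro ht
        obtain ⟨N1, h1⟩ := pow_unbounded_of_one_lt t (one_lt_two (α := ℝ))
        obtain ⟨N2, h2⟩ := pow_unbounded_of_one_lt t⁻¹ (one_lt_two (α := ℝ))
        refine ⟨max N1 N2, ?_, ?_⟩
        · apply inv_lt_of_inv_lt₀ ht
          exact h2.trans_le (pow_le_pow_right₀ one_le_two (le_max_right _ _))
        · exact h1.le.trans (pow_le_pow_right₀ one_le_two (le_max_left _ _))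
    have := tendsto_setIntegral_of_monotone (μ := volume) (f := h)
      (s := fun N : ℕ => Set.Ioc ((2 : ℝ) ^ N)⁻¹ (2 ^ N)) (fun N => measurableSet_Ioc)
      (by
        intro M N hMN
        apply Set.Ioc_subset_Ioc
        · apply inv_anti₀ (by positivity)
          exact pow_le_pow_right₀ one_le_two hMN
        · exact pow_le_pow_right₀ one_le_two hMN)
      (by rw [hU']; exact hi)
    rwa [hU'] at this
  refine le_of_tendsto' hlim fun N => ?_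
  obtain ⟨x0, hx0⟩ : ∃ x0 : ℝ, x0 = ((2 : ℝ) ^ N)⁻¹ := ⟨_, rfl⟩
  have hx0p : 0 < x0 := by rw [hx0]; positivity
  have hx1 : (2 : ℝ) ^ (2 * N) * x0 = 2 ^ N := by
    rw [hx0, two_mul, pow_add]
    field_simp
  have hint : ∀ i : ℕ, IntervalIntegrable h volume (2 ^ i * x0) (2 ^ (i + 1) * x0) := by
    intro i
    rw [intervalIntegrable_iff_integrableOn_Ioc_of_le]
    · apply hi.mono_set
      intro t ht
      exact lt_trans (by positivity) ht.1
    · apply mul_le_mul_of_nonneg_right _ hx0p.le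
      exact pow_le_pow_right₀ one_le_two (Nat.le_succ i)
  have hsum := intervalIntegral.sum_integral_adjacent_intervals (μ := volume) (f := h)
    (a := fun i : ℕ => (2 : ℝ) ^ i * x0) (n := 2 * N) (fun i _ => hint i)
  have e1 : ∫ t in Set.Ioc ((2 : ℝ) ^ N)⁻¹ (2 ^ N), h t =
      ∫ t in ((2 : ℝ) ^ 0 * x0)..(2 ^ (2 * N) * x0), h t := by
    rw [hx1, pow_zero, one_mul, intervalIntegral.integral_of_le, hx0]
    rw [hx0]
    calc ((2 : ℝ) ^ N)⁻¹ ≤ 1 := inv_le_one_of_one_le₀ (one_le_pow₀ one_le_two)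
      _ ≤ 2 ^ N := one_le_pow₀ one_le_two
  rw [e1]
  have hterm : ∀ i ∈ Finset.range (2 * N),
      ∫ t in ((2 : ℝ) ^ i * x0)..(2 ^ (i + 1) * x0), h t ≤
        D * (a (2 ^ i * (x0 / 2)) * b (2 ^ i * (x0 / 2))) := by
    intro i _
    obtain ⟨y, hy⟩ : ∃ y : ℝ, y = 2 ^ i * x0 := ⟨_, rfl⟩
    have hyp : 0 < y := by rw [hy]; positivity
    have hy2 : (2 : ℝ) ^ (i + 1) * x0 = 2 * y := by rw [hy, pow_succ]; ring
    have hy3 : (2 : ℝ) ^ i * (x0 / 2) = y / 2 := by rw [hy]; ring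
    have hint' := hint i
    rw [hy2, ← hy] at hint'
    rw [hy2, ← hy, hy3]
    have hle : y ≤ 2 * y := by linarith
    calc ∫ t in y..(2 * y), h t ≤ ∫ _ in y..(2 * y), D * y⁻¹ * (a (y / 2) * b (y / 2)) := by
          apply intervalIntegral.integral_mono_on hle hint' intervalIntegrable_const
          intro t ht
          have h1 := hh (y / 2) t (by linarith) (by linarith [ht.1]) (by linarith [ht.2])
          refine h1.trans ?_
          have h2 : t⁻¹ ≤ y⁻¹ := inv_anti₀ hyp ht.1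
          have h3 : 0 ≤ a (y / 2) * b (y / 2) := mul_nonneg (ha _) (hb _)
          exact mul_le_mul_of_nonneg_right (mul_le_mul_of_nonneg_left h2 hD) h3
      _ = D * (a (y / 2) * b (y / 2)) := by
          rw [intervalIntegral.integral_const, smul_eq_mul]
          field_simp
          ring
  rw [← hsum]
  calc ∑ i ∈ Finset.range (2 * N), ∫ t in ((2 : ℝ) ^ i * x0)..(2 ^ (i + 1) * x0), h t
      ≤ ∑ i ∈ Finset.range (2 * N), D * (a (2 ^ i * (x0 / 2)) * b (2 ^ i * (x0 / 2))) :=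
        Finset.sum_le_sum hterm
    _ = D * ∑ i ∈ Finset.range (2 * N), a (2 ^ i * (x0 / 2)) * b (2 ^ i * (x0 / 2)) := by
        rw [Finset.mul_sum]
    _ ≤ D * (√U * √V) := by
        apply mul_le_mul_of_nonneg_left _ hD
        refine (Real.sum_mul_le_sqrt_mul_sqrt _ _ _).trans ?_
        exact mul_le_mul (Real.sqrt_le_sqrt (hU _ (by linarith) _))
          (Real.sqrt_le_sqrt (hV _ (by linarith) _)) (Real.sqrt_nonneg _) (Real.sqrt_nonneg _)

private theorem Time_memLp {u : E n → ℂ} (hu : BM u) (hi : Integrable u) :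
    MemLp u 2 (volume : Measure (E n)) := by
  rw [memLp_two_iff_integrable_sq_norm hu.1.aestronglyMeasurable]
  have := sq_integrable hu hi (BMr.const (n := n) 1)
  simpa using this

theorem time (β : Fin n → ℕ) (hβ : Even (∑ j, β j)) (hβ0 : 0 < ∑ j, β j) :
    ∃ C : ℝ, 0 ≤ C ∧ ∀ (s w : E n → ℝ) (m c A : ℝ), BMr s → BMr w → 0 < m → (∀ x, m ≤ s x) →
      (∀ x, m ≤ w x) → 0 ≤ c → HA c s → HA c w → (∀ t : ℝ, 0 < t → ∀ x, P t s x * P t w x ≤ A) →
      ∀ u v : E n → ℂ, BM u → Integrable u → BM v → Integrable v →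
      ‖∫ ξ, (mono β ξ : ℂ) * (conj (𝓕 u ξ) * 𝓕 v ξ)‖ ≤ C * √A * Real.exp (2 * c) *
        (√(∫ x, ‖u x‖ ^ 2 / s x) * √(∫ x, ‖v x‖ ^ 2 / w x)) := by
  classical
  have hpi := Real.pi_pos
  obtain ⟨l, hl⟩ : ∃ l, ∑ j, β j = 2 * (l + 1) := by
    obtain ⟨k, hk⟩ := hβ
    exact ⟨k - 1, by omega⟩
  obtain ⟨j0, _, hj0⟩ : ∃ j ∈ Finset.univ, β j ≠ 0 :=
    Finset.exists_ne_zero_of_sum_ne_zero (by omega)
  obtain ⟨β₁, hβ₁⟩ : ∃ β₁ : Fin n → ℕ, β₁ = Pi.single j0 1 := ⟨_, rfl⟩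
  obtain ⟨β₂, hβ₂⟩ : ∃ β₂ : Fin n → ℕ, β₂ = fun j => β j - β₁ j := ⟨_, rfl⟩
  have hsum : ∀ j, β₁ j + β₂ j = β j := by
    intro j
    rw [hβ₂]
    have : β₁ j ≤ β j := by
      rw [hβ₁]
      by_cases hj : j = j0
      · subst hj
        rw [Pi.single_eq_same]
        omega
      · rw [Pi.single_eq_of_ne hj]
        exact Nat.zero_le _
    change β₁ j + (β j - β₁ j) = β j
    omega
  have hs1 : ∑ j, β₁ j = 1 := by
    rw [hβ₁]
    simp
  have hs2 : ∑ j, β₁ j + ∑ j, β₂ j = 2 * (l + 1) := by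
    rw [← Finset.sum_add_distrib, ← hl]
    exact Finset.sum_congr rfl fun j _ => hsum j
  obtain ⟨CB, hCB, hform⟩ := formB β₁ β₂ (by omega) (by omega)
  obtain ⟨ck, hck⟩ : ∃ ck : ℝ, ck = (2 * Real.pi) ^ (l + 1) / (l.factorial : ℝ) := ⟨_, rfl⟩
  have hck0 : 0 ≤ ck := by rw [hck]; positivity
  refine ⟨ck * CB * 102, by positivity, ?_⟩
  intro s w m c A hs hw hm hsm hwm hc hHs hHw hA u v hu hui hv hvi
  obtain ⟨F, hF⟩ : ∃ F : E n → ℂ, F = fun ξ => conj (𝓕 u ξ) * 𝓕 v ξ := ⟨_, rfl⟩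
  have hFc : Continuous F := by
    rw [hF]
    exact (Complex.continuous_conj.comp (FT_continuous hui)).mul (FT_continuous hvi)
  have hFi : Integrable F := by
    have h1 := ft_memLp hui (Time_memLp hu hui)
    have h2 := ft_memLp hvi (Time_memLp hv hvi)
    have h3 : MemLp (fun ξ => conj (𝓕 u ξ)) 2 (volume : Measure (E n)) := h1.star
    rw [hF]
    exact h3.integrable_mul h2
  obtain ⟨hi1, hi2⟩ := TG_fubini β hl hFc hFi
  have e0 : ∫ ξ, (mono β ξ : ℂ) * (conj (𝓕 u ξ) * 𝓕 v ξ) = ∫ ξ, (mono β ξ : ℂ) * F ξ := by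
    rw [hF]
  rw [e0, hi2, norm_mul, Complex.norm_real, ← hck, Real.norm_of_nonneg hck0]
  obtain ⟨a, ha⟩ : ∃ a : ℝ → ℝ, a = fun τ => √(∫ x, osc τ u x ^ 2 / P (8 * τ) s x) := ⟨_, rfl⟩
  obtain ⟨b, hb⟩ : ∃ b : ℝ → ℝ, b = fun τ => √(∫ x, osc τ v x ^ 2 / P (8 * τ) w x) := ⟨_, rfl⟩
  obtain ⟨U, hU⟩ : ∃ U : ℝ, U = ∫ x, ‖u x‖ ^ 2 / s x := ⟨_, rfl⟩
  obtain ⟨V, hV⟩ : ∃ V : ℝ, V = ∫ x, ‖v x‖ ^ 2 / w x := ⟨_, rfl⟩
  have hsq : ∀ {p : E n → ℝ} {f : E n → ℂ} {τ : ℝ}, BMr p → (∀ x, m ≤ p x) → 0 < τ →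
      0 ≤ ∫ x, osc τ f x ^ 2 / P (8 * τ) p x := by
    intro p f τ hp hpm hτ
    apply integral_nonneg
    intro x
    exact div_nonneg (sq_nonneg _) (hm.le.trans (P_ge (by linarith) hp hpm x))
  have hexp : 1 ≤ Real.exp (2 * c) := Real.one_le_exp (by linarith)
  have hmain := Time_dyadic (h := fun t => ‖∫ ξ, TG β l F ξ t‖) hi1.norm (a := a) (b := b)
    (D := CB * √A) (U := 3 * (2 + 32 * Real.exp (2 * c)) * U)
    (V := 3 * (2 + 32 * Real.exp (2 * c)) * V)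
    (fun τ => by rw [ha]; exact Real.sqrt_nonneg _)
    (fun τ => by rw [hb]; exact Real.sqrt_nonneg _) (by positivity)
    (by
      intro τ t hτ h1 h2
      have ht : 0 < t := by linarith
      have h3 := hform s w m c A hs hw hm hsm hwm hHs hHw hA u v hu hui hv hvi τ t hτ h1 h2
      have e1 : ∫ ξ, TG β l F ξ t = ((t ^ l : ℝ) : ℂ) * ∫ ξ, (∏ j, (ξ j : ℂ) ^ (β₁ j + β₂ j)) *
          ((Real.exp (-(2 * Real.pi * t * ‖ξ‖ ^ 2)) : ℝ) : ℂ) * (conj (𝓕 u ξ) * 𝓕 v ξ) := by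
        rw [← integral_const_mul]
        congr 1
        ext ξ
        unfold TG
        rw [hF]
        simp only [hsum]
        push_cast
        ring
      change ‖∫ ξ, TG β l F ξ t‖ ≤ CB * √A * t⁻¹ * (a τ * b τ)
      rw [e1, norm_mul, Complex.norm_real, Real.norm_of_nonneg (by positivity)]
      have e2 : (√t)⁻¹ ^ (∑ j, β₁ j + ∑ j, β₂ j) = (t⁻¹) ^ (l + 1) := by
        rw [hs2, pow_mul, inv_pow, Real.sq_sqrt ht.le]
      have e3 : t ^ l * (t⁻¹) ^ (l + 1) = t⁻¹ := by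
        rw [pow_succ, ← mul_assoc, ← mul_pow, mul_inv_cancel₀ ht.ne', one_pow, one_mul]
      have h4 := mul_le_mul_of_nonneg_left h3 (pow_nonneg ht.le l)
      refine h4.trans (le_of_eq ?_)
      rw [e2, ha, hb]
      calc t ^ l * (CB * (t⁻¹) ^ (l + 1) * √A *
            (√(∫ x, osc τ u x ^ 2 / P (8 * τ) s x) * √(∫ x, osc τ v x ^ 2 / P (8 * τ) w x)))
          = CB * √A * (t ^ l * (t⁻¹) ^ (l + 1)) *
            (√(∫ x, osc τ u x ^ 2 / P (8 * τ) s x) * √(∫ x, osc τ v x ^ 2 / P (8 * τ) w x)) := by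
            ring
        _ = _ := by rw [e3])
    (by
      intro τ hτ N
      have h1 := enD hs hm hsm hHs hu hui hτ N
      rw [← hU] at h1
      refine le_trans (le_of_eq ?_) h1
      apply Finset.sum_congr rfl
      intro i _
      rw [ha]
      exact Real.sq_sqrt (hsq hs hsm (by positivity)))
    (by
      intro τ hτ N
      have h1 := enD hw hm hwm hHw hv hvi hτ N
      rw [← hV] at h1
      refine le_trans (le_of_eq ?_) h1
      apply Finset.sum_congr rfl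
      intro i _
      rw [hb]
      exact Real.sq_sqrt (hsq hw hwm (by positivity)))
  rw [← hU, ← hV]
  have h5 : ‖∫ t in Set.Ioi (0 : ℝ), ∫ ξ, TG β l F ξ t‖ ≤
      CB * √A * (√(3 * (2 + 32 * Real.exp (2 * c)) * U) *
        √(3 * (2 + 32 * Real.exp (2 * c)) * V)) :=
    (norm_integral_le_integral_norm _).trans hmain
  have hK : 0 ≤ 3 * (2 + 32 * Real.exp (2 * c)) := by positivity
  have h6 : √(3 * (2 + 32 * Real.exp (2 * c)) * U) * √(3 * (2 + 32 * Real.exp (2 * c)) * V) =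
      (3 * (2 + 32 * Real.exp (2 * c))) * (√U * √V) := by
    rw [Real.sqrt_mul hK, Real.sqrt_mul hK]
    calc √(3 * (2 + 32 * Real.exp (2 * c))) * √U * (√(3 * (2 + 32 * Real.exp (2 * c))) * √V)
        = (√(3 * (2 + 32 * Real.exp (2 * c))) * √(3 * (2 + 32 * Real.exp (2 * c)))) *
          (√U * √V) := by ring
      _ = _ := by rw [Real.mul_self_sqrt hK]
  rw [h6] at h5
  have h7 : 3 * (2 + 32 * Real.exp (2 * c)) ≤ 102 * Real.exp (2 * c) := by linarith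
  have h8 : 0 ≤ √U * √V := by positivity
  calc ck * ‖∫ t in Set.Ioi (0 : ℝ), ∫ ξ, TG β l F ξ t‖
      ≤ ck * (CB * √A * (3 * (2 + 32 * Real.exp (2 * c)) * (√U * √V))) :=
        mul_le_mul_of_nonneg_left h5 hck0
    _ ≤ ck * (CB * √A * (102 * Real.exp (2 * c) * (√U * √V))) := by
        apply mul_le_mul_of_nonneg_left _ hck0
        apply mul_le_mul_of_nonneg_left _ (by positivity)
        exact mul_le_mul_of_nonneg_right h7 h8
    _ = _ := by ring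

end Pool.Agent.helper12.AI
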